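import Mathlib

/-!
The abstract setting: an algebra of smooth functions on a proper metric measure space with a
gradient form Γ and a Laplacian Δ.  Everything about the heat flow is derived from these axioms.
-/

open MeasureTheory Filter Topology Set
open scoped ContDiff

namespace Pool.Agent.MP_3fc7f4_gt

/-- A curve of speed at most A, seen through the distance and through smooth functions. -/
structure IsCurve {M : Type} [MetricSpace M] (Sm : (M → ℝ) → Prop)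
    (Γ : (M → ℝ) → (M → ℝ) → M → ℝ) (c : ℝ → M) (A : ℝ) : Prop where
  nonneg : 0 ≤ A
  lip : ∀ a b, dist (c a) (c b) ≤ A * |a - b|
  der : ∀ f, Sm f → ∀ τ, ∃ D, HasDerivAt (fun s => f (c s)) D τ ∧ D ^ 2 ≤ A ^ 2 * Γ f f (c τ)

structure Geo (M : Type) [MetricSpace M] [MeasurableSpace M] (μ : Measure M) (n : ℕ)
    (lam : ℝ) where
  Sm : (M → ℝ) → Prop
  Γ : (M → ℝ) → (M → ℝ) → M → ℝ
  Δ : (M → ℝ) → M → ℝ
  n_pos : 0 < n
  lam_nonneg : 0 ≤ lam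
  cont : ∀ {f}, Sm f → Continuous f
  sm_const : ∀ c : ℝ, Sm fun _ => c
  sm_add : ∀ {f g}, Sm f → Sm g → Sm fun x => f x + g x
  sm_mul : ∀ {f g}, Sm f → Sm g → Sm fun x => f x * g x
  sm_comp : ∀ {f} {φ : ℝ → ℝ}, Sm f → (∀ x, ContDiffAt ℝ ∞ φ (f x)) → Sm fun x => φ (f x)
  sm_Γ : ∀ {f g}, Sm f → Sm g → Sm (Γ f g)
  sm_Δ : ∀ {f}, Sm f → Sm (Δ f)
  Γ_symm : ∀ {f g}, Sm f → Sm g → ∀ x, Γ f g x = Γ g f x
  Γ_nonneg : ∀ {f}, Sm f → ∀ x, 0 ≤ Γ f f x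
  Γ_add : ∀ {f g h}, Sm f → Sm g → Sm h → ∀ x,
    Γ (fun y => f y + g y) h x = Γ f h x + Γ g h x
  Γ_mul : ∀ {f g h}, Sm f → Sm g → Sm h → ∀ x,
    Γ (fun y => f y * g y) h x = f x * Γ g h x + g x * Γ f h x
  Γ_comp : ∀ {f g} {φ : ℝ → ℝ}, Sm f → Sm g → (∀ x, ContDiffAt ℝ ∞ φ (f x)) → ∀ x,
    Γ (fun y => φ (f y)) g x = deriv φ (f x) * Γ f g x
  Γ_congr : ∀ {f f' g x}, f =ᶠ[𝓝 x] f' → Γ f g x = Γ f' g x
  Δ_add : ∀ {f g}, Sm f → Sm g → ∀ x, Δ (fun y => f y + g y) x = Δ f x + Δ g x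
  Δ_mul : ∀ {f g}, Sm f → Sm g → ∀ x,
    Δ (fun y => f y * g y) x = f x * Δ g x + g x * Δ f x + 2 * Γ f g x
  Δ_comp : ∀ {f} {φ : ℝ → ℝ}, Sm f → (∀ x, ContDiffAt ℝ ∞ φ (f x)) → ∀ x,
    Δ (fun y => φ (f y)) x = deriv φ (f x) * Δ f x + deriv (deriv φ) (f x) * Γ f f x
  Δ_congr : ∀ {f f' x}, f =ᶠ[𝓝 x] f' → Δ f x = Δ f' x
  ibp : ∀ {φ f}, Sm φ → HasCompactSupport φ → Sm f →
    ∫ x, φ x * Δ f x ∂μ = -∫ x, Γ φ f x ∂μ
  bochner : ∀ {f}, Sm f → ∀ x,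
    Δ f x ^ 2 / n ≤ Δ (Γ f f) x / 2 - Γ f (Δ f) x + lam * Γ f f x
  kato : ∀ {f}, Sm f → ∀ x, Γ (Γ f f) (Γ f f) x ≤
    4 * (Δ (Γ f f) x / 2 - Γ f (Δ f) x + lam * Γ f f x) * Γ f f x
  curve : ∀ x y : M, ∀ ε > 0, ∃ c : ℝ → M, c 0 = x ∧ c 1 = y ∧ IsCurve Sm Γ c (dist x y + ε)
  lipApprox : ∀ f : M → ℝ, LipschitzWith 1 f → HasCompactSupport f → ∀ ε > 0,
    ∃ h, Sm h ∧ HasCompactSupport h ∧ (∀ x, |h x - f x| ≤ ε) ∧ ∀ x, Γ h h x ≤ (1 + ε) ^ 2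
  approx : ∀ f : M → ℝ, Continuous f → ∀ ε > 0,
    ∃ h, Sm h ∧ (∀ x, |h x - f x| ≤ ε) ∧ Function.support h ⊆ Function.support f
  reg : ∀ u : ℕ → M → ℝ, (∀ k, MemLp (u k) 2 μ) →
    (∀ k φ, Sm φ → HasCompactSupport φ → ∫ x, u k x * Δ φ x ∂μ = ∫ x, u (k + 1) x * φ x ∂μ) →
    ∃ f, Sm f ∧ f =ᵐ[μ] u 0
  frame : ∀ x : M, ∃ (c : Fin n → ℝ → M) (C : ℝ), (∀ i, c i 0 = x) ∧ ∀ f, Sm f →
    (∀ i, DifferentiableAt ℝ (fun s => f (c i s)) 0) ∧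
      Γ f f x ≤ C * ∑ i, deriv (fun s => f (c i s)) 0 ^ 2
  vol_small : ∀ x : M, ∃ r₀ > 0, ∀ r ∈ Ioo 0 r₀, μ.real (Metric.ball x r) ≤ (8 * r) ^ n

/-- The Gaussian weight centred at x. -/
noncomputable def gw {M : Type} [MetricSpace M] (t : ℝ) (x y : M) : ℝ :=
  Real.exp (-(dist x y ^ 2 / (4 * t)))

/-- The Gaussian volume ratio at scale √t. -/
noncomputable def Zf {M : Type} [MetricSpace M] [MeasurableSpace M] (μ : Measure M) (n : ℕ)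
    (t : ℝ) (x : M) : ℝ :=
  (∫ y, gw t x y ∂μ) / Real.sqrt t ^ n

namespace Geo

variable {M : Type} [MetricSpace M] [MeasurableSpace M] {μ : Measure M} {n : ℕ} {lam : ℝ}
  (g : Geo M μ n lam) {f f' h : M → ℝ}

theorem sm_smul (c : ℝ) (hf : g.Sm f) : g.Sm fun x => c * f x := g.sm_mul (g.sm_const c) hf

theorem sm_neg (hf : g.Sm f) : g.Sm fun x => -f x := by
  simpa using g.sm_smul (-1) hf

theorem sm_sub (hf : g.Sm f) (hf' : g.Sm f') : g.Sm fun x => f x - f' x := by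
  simpa [sub_eq_add_neg] using g.sm_add hf (g.sm_neg hf')

theorem sm_sq (hf : g.Sm f) : g.Sm fun x => f x ^ 2 := by
  simpa [sq] using g.sm_mul hf hf

theorem Γ_const (c : ℝ) (hh : g.Sm h) (x : M) : g.Γ (fun _ => c) h x = 0 := by
  simpa using g.Γ_comp (φ := fun _ => c) hh hh (fun _ => contDiffAt_const) x

theorem Δ_const (c : ℝ) (x : M) : g.Δ (fun _ => c) x = 0 := by
  simpa using g.Δ_comp (φ := fun _ => c) (g.sm_const 0) (fun _ => contDiffAt_const) x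

theorem Γ_smul (c : ℝ) (hf : g.Sm f) (hh : g.Sm h) (x : M) :
    g.Γ (fun y => c * f y) h x = c * g.Γ f h x := by
  rw [g.Γ_mul (g.sm_const c) hf hh, g.Γ_const c hh]; ring

theorem Γ_neg (hf : g.Sm f) (hh : g.Sm h) (x : M) : g.Γ (fun y => -f y) h x = -g.Γ f h x := by
  simpa using g.Γ_smul (-1) hf hh x

theorem Γ_sub (hf : g.Sm f) (hf' : g.Sm f') (hh : g.Sm h) (x : M) :
    g.Γ (fun y => f y - f' y) h x = g.Γ f h x - g.Γ f' h x := by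
  simp only [sub_eq_add_neg]
  rw [g.Γ_add hf (g.sm_neg hf') hh, g.Γ_neg hf' hh]

theorem Γ_add_right (hf : g.Sm f) (hf' : g.Sm f') (hh : g.Sm h) (x : M) :
    g.Γ h (fun y => f y + f' y) x = g.Γ h f x + g.Γ h f' x := by
  rw [g.Γ_symm hh (g.sm_add hf hf'), g.Γ_add hf hf' hh, g.Γ_symm hf hh, g.Γ_symm hf' hh]

theorem Γ_smul_right (c : ℝ) (hf : g.Sm f) (hh : g.Sm h) (x : M) :
    g.Γ h (fun y => c * f y) x = c * g.Γ h f x := by
  rw [g.Γ_symm hh (g.sm_smul c hf), g.Γ_smul c hf hh, g.Γ_symm hf hh]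

theorem Γ_sub_right (hf : g.Sm f) (hf' : g.Sm f') (hh : g.Sm h) (x : M) :
    g.Γ h (fun y => f y - f' y) x = g.Γ h f x - g.Γ h f' x := by
  rw [g.Γ_symm hh (g.sm_sub hf hf'), g.Γ_sub hf hf' hh, g.Γ_symm hf hh, g.Γ_symm hf' hh]

theorem Γ_mul_right (hf : g.Sm f) (hf' : g.Sm f') (hh : g.Sm h) (x : M) :
    g.Γ h (fun y => f y * f' y) x = f x * g.Γ h f' x + f' x * g.Γ h f x := by
  rw [g.Γ_symm hh (g.sm_mul hf hf'), g.Γ_mul hf hf' hh, g.Γ_symm hf hh, g.Γ_symm hf' hh]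

theorem Γ_comp_right {φ : ℝ → ℝ} (hf : g.Sm f) (hh : g.Sm h)
    (hφ : ∀ x, ContDiffAt ℝ ∞ φ (f x)) (x : M) :
    g.Γ h (fun y => φ (f y)) x = deriv φ (f x) * g.Γ h f x := by
  rw [g.Γ_symm hh (g.sm_comp hf hφ), g.Γ_comp hf hh hφ, g.Γ_symm hf hh]

theorem Γ_comp_self {φ : ℝ → ℝ} (hf : g.Sm f) (hφ : ∀ x, ContDiffAt ℝ ∞ φ (f x)) (x : M) :
    g.Γ (fun y => φ (f y)) (fun y => φ (f y)) x = deriv φ (f x) ^ 2 * g.Γ f f x := by
  rw [g.Γ_comp hf (g.sm_comp hf hφ) hφ, g.Γ_comp_right hf hf hφ]; ring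

/-- The quadratic form on a linear combination. -/
theorem Γ_comb (a b : ℝ) (hf : g.Sm f) (hh : g.Sm h) (x : M) :
    g.Γ (fun y => a * f y + b * h y) (fun y => a * f y + b * h y) x =
      a ^ 2 * g.Γ f f x + 2 * a * b * g.Γ f h x + b ^ 2 * g.Γ h h x := by
  have h1 := g.sm_smul a hf
  have h2 := g.sm_smul b hh
  rw [g.Γ_add h1 h2 (g.sm_add h1 h2), g.Γ_add_right h1 h2 h1, g.Γ_add_right h1 h2 h2,
    g.Γ_smul a hf h1, g.Γ_smul a hf h2, g.Γ_smul b hh h1, g.Γ_smul b hh h2,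
    g.Γ_smul_right a hf hf, g.Γ_smul_right b hh hf, g.Γ_smul_right a hf hh,
    g.Γ_smul_right b hh hh, g.Γ_symm hh hf]
  ring

/-- Cauchy-Schwarz. -/
theorem Γ_sq_le (hf : g.Sm f) (hh : g.Sm h) (x : M) : g.Γ f h x ^ 2 ≤ g.Γ f f x * g.Γ h h x := by
  have key : ∀ s : ℝ, 0 ≤ g.Γ f f x * (s * s) + 2 * g.Γ f h x * s + g.Γ h h x := fun s => by
    have := g.Γ_nonneg (g.sm_add (g.sm_smul s hf) (g.sm_smul 1 hh)) x
    rw [g.Γ_comb s 1 hf hh] at this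
    linarith
  have := discrim_le_zero key
  rw [discrim] at this
  nlinarith

theorem abs_Γ_le (hf : g.Sm f) (hh : g.Sm h) (x : M) :
    |g.Γ f h x| ≤ Real.sqrt (g.Γ f f x) * Real.sqrt (g.Γ h h x) := by
  rw [← Real.sqrt_mul (g.Γ_nonneg hf x)]
  exact Real.abs_le_sqrt (g.Γ_sq_le hf hh x)

theorem Δ_smul (c : ℝ) (hf : g.Sm f) (x : M) : g.Δ (fun y => c * f y) x = c * g.Δ f x := by
  rw [g.Δ_mul (g.sm_const c) hf, g.Δ_const, g.Γ_const c hf]; ring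

theorem Δ_neg (hf : g.Sm f) (x : M) : g.Δ (fun y => -f y) x = -g.Δ f x := by
  simpa using g.Δ_smul (-1) hf x

theorem Δ_sub (hf : g.Sm f) (hf' : g.Sm f') (x : M) :
    g.Δ (fun y => f y - f' y) x = g.Δ f x - g.Δ f' x := by
  simp only [sub_eq_add_neg]
  rw [g.Δ_add hf (g.sm_neg hf'), g.Δ_neg hf']

theorem Δ_sq (hf : g.Sm f) (x : M) :
    g.Δ (fun y => f y ^ 2) x = 2 * f x * g.Δ f x + 2 * g.Γ f f x := by
  simp only [sq]
  rw [g.Δ_mul hf hf]; ring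

theorem Γ_eq_zero (hh : g.Sm h) {x : M} (hx : x ∉ tsupport f) : g.Γ f h x = 0 := by
  rw [g.Γ_congr (notMem_tsupport_iff_eventuallyEq.1 hx)]
  exact g.Γ_const 0 hh x

theorem Δ_eq_zero {x : M} (hx : x ∉ tsupport f) : g.Δ f x = 0 := by
  rw [g.Δ_congr (notMem_tsupport_iff_eventuallyEq.1 hx)]
  exact g.Δ_const 0 x

theorem cs_Γ (hf : HasCompactSupport f) (hh : g.Sm h) : HasCompactSupport (g.Γ f h) :=
  HasCompactSupport.intro hf fun _ hx => g.Γ_eq_zero hh hx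

theorem cs_Δ (hf : HasCompactSupport f) : HasCompactSupport (g.Δ f) :=
  HasCompactSupport.intro hf fun _ hx => g.Δ_eq_zero hx

/-- A smooth function with bounded gradient is Lipschitz along curves. -/
theorem abs_sub_le_of_curve {c : ℝ → M} {A L : ℝ} (hc : IsCurve g.Sm g.Γ c A) (hf : g.Sm f)
    (hL : 0 ≤ L) (hb : ∀ τ ∈ Icc (0 : ℝ) 1, g.Γ f f (c τ) ≤ L ^ 2) :
    |f (c 1) - f (c 0)| ≤ A * L := by
  choose D hD using hc.der f hf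
  have := norm_image_sub_le_of_norm_deriv_le_segment_01' (f := fun s => f (c s)) (f' := D)
    (C := A * L) (fun τ _ => (hD τ).1.hasDerivWithinAt) fun τ hτ => by
      rw [Real.norm_eq_abs]
      refine abs_le_of_sq_le_sq' ?_ (mul_nonneg hc.nonneg hL) |> abs_le.2
      rw [mul_pow]
      exact (hD τ).2.trans
        (mul_le_mul_of_nonneg_left (hb τ (Ico_subset_Icc_self hτ)) (sq_nonneg _))
  simpa [Real.norm_eq_abs] using this

variable [BorelSpace M] [IsFiniteMeasureOnCompacts μ]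

theorem memLp_of_cs (hf : g.Sm f) (hc : HasCompactSupport f) : MemLp f 2 μ :=
  (g.cont hf).memLp_of_hasCompactSupport hc

theorem integrable_of_cs (hf : g.Sm f) (hc : HasCompactSupport f) : Integrable f μ :=
  (g.cont hf).integrable_of_hasCompactSupport hc

end Geo

end Pool.Agent.MP_3fc7f4_gt
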