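import Pool.Agent.MP_3fc7f4_gt.Cut

/-!
TASK MP.  The L² parabolic maximum principle.

Hints.  Let e₀ = expNegInvGlue (smooth, monotone, 0 ≤ e₀ ≤ 1, zero exactly on r ≤ 0),
γ r = r * e₀ r, so γ ≥ 0, γ' = e₀ + r e₀' ≥ e₀ and γ² ≤ (max r 0)² γ'.  Let G r = ∫ u in 0..r, γ u:
G' = γ, 0 ≤ G r ≤ (max r 0)², G r > 0 for r > 0.  With χ = χ k from exists_cutoff let
J s = ∫ χ² G (z s x).  For s in (0,T), J is differentiable with J' s = ∫ χ² γ(z) z'
(hasDerivAt_integral_of_dominated_loc_of_deriv_le; the bound comes from continuity on the compact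
set [s-δ, s+δ] × tsupport χ).  Then J' ≤ ∫ χ² γ(z) Δz = -∫ Γ (χ² γ(z)) z
= -∫ χ² γ'(z) Γ z z - 2 ∫ χ γ(z) Γ χ z ≤ ∫ (max z 0)² Γ χ χ ≤ C/(k+1)²
(pointwise: |2 χ γ Γ χ z| ≤ χ² γ' Γ z z + (max z 0)² Γ χ χ by Γ_sq_le).  So
J s₂ ≤ J s₁ + C T/(k+1)² and J s₁ ≤ ∫ e s₁ → 0.  Hence ∫ over ball x₀ m of G (z s₂) is
≤ C T/(k+1)² for all k ≥ m, so it vanishes, and by continuity (IsOpenPosMeasure) G (z s₂ x) = 0.
-/

open MeasureTheory Filter Topology Set
open scoped ContDiff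

namespace Pool.Agent.MP_3fc7f4_gt.Geo

variable {M : Type} [MetricSpace M] [ProperSpace M] [MeasurableSpace M] [BorelSpace M]
  {μ : Measure M} [IsFiniteMeasureOnCompacts μ] [μ.IsOpenPosMeasure] {n : ℕ} {lam : ℝ}
  (g : Geo M μ n lam)

theorem mp_exists : ∃ γ G : ℝ → ℝ, ContDiff ℝ ∞ γ ∧ (∀ r, 0 ≤ γ r) ∧ (∀ r, 0 ≤ deriv γ r) ∧
    (∀ r, γ r ^ 2 ≤ max r 0 ^ 2 * deriv γ r) ∧ (∀ r, HasDerivAt G (γ r) r) ∧
    (∀ r, 0 ≤ G r ∧ G r ≤ max r 0 ^ 2) ∧ ∀ r, 0 < r → 0 < G r := by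
  have he : ContDiff ℝ ∞ expNegInvGlue := expNegInvGlue.contDiff
  have he1 : ∀ r, expNegInvGlue r ≤ 1 := fun r => by
    unfold expNegInvGlue
    split_ifs with h
    · exact zero_le_one
    · exact Real.exp_le_one_iff.2 (neg_nonpos.2 (inv_nonneg.2 (not_le.1 h).le))
  have hγ : ContDiff ℝ ∞ fun r => r * expNegInvGlue r := contDiff_id.mul he
  have hz : ∀ r ≤ 0, r * expNegInvGlue r = 0 := fun r hr => by
    rw [expNegInvGlue.zero_of_nonpos hr, mul_zero]
  have h0 : ∀ r, 0 ≤ r * expNegInvGlue r := fun r => by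
    rcases le_total r 0 with h | h
    · exact (hz r h).ge
    · exact mul_nonneg h (expNegInvGlue.nonneg r)
  have hd : ∀ r, deriv (fun r => r * expNegInvGlue r) r
      = expNegInvGlue r + r * deriv expNegInvGlue r := fun r => by
    have := ((hasDerivAt_id' r).fun_mul (he.differentiable (by simp) r).hasDerivAt).deriv
    simpa using this
  have hd' : ∀ r, 0 ≤ r → expNegInvGlue r ≤ deriv (fun r => r * expNegInvGlue r) r :=
    fun r hr => by
      rw [hd]
      exact le_add_of_nonneg_right (mul_nonneg hr expNegInvGlue.monotone.deriv_nonneg)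
  refine ⟨fun r => r * expNegInvGlue r, fun r => ∫ u in (0 : ℝ)..r, u * expNegInvGlue u, hγ, h0,
    fun r => ?_, fun r => ?_,
    fun r => (hγ.continuous.integral_hasStrictDerivAt 0 r).hasDerivAt, fun r => ?_,
    fun r hr => ?_⟩
  · rcases lt_or_ge r 0 with h | h
    · have e : (fun r => r * expNegInvGlue r) =ᶠ[𝓝 r] fun _ => 0 := by
        filter_upwards [Iio_mem_nhds h] with x hx using hz x hx.le
      rw [e.deriv_eq]
      simp
    · exact (expNegInvGlue.nonneg r).trans (hd' r h)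
  · rcases le_total r 0 with h | h
    · simp [hz r h, max_eq_right h]
    · rw [max_eq_left h, mul_pow]
      refine mul_le_mul_of_nonneg_left (le_trans ?_ (hd' r h)) (sq_nonneg r)
      nlinarith [expNegInvGlue.nonneg r, he1 r]
  · rcases le_total r 0 with h | h
    · have e : ∫ u in (0 : ℝ)..r, u * expNegInvGlue u = 0 := by
        rw [intervalIntegral.integral_congr (g := fun _ => 0) fun u hu => hz u
          (by rw [uIcc_of_ge h] at hu; exact hu.2)]
        simp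
      simp [e]
    · refine ⟨intervalIntegral.integral_nonneg h fun u _ => h0 u, ?_⟩
      have := intervalIntegral.integral_mono_on (μ := volume) h
        (hγ.continuous.intervalIntegrable 0 r) (continuous_const (y := r).intervalIntegrable 0 r)
        fun u hu => (mul_le_of_le_one_right hu.1 (he1 u)).trans hu.2
      simpa [max_eq_left h, sq] using this
  · exact intervalIntegral.intervalIntegral_pos_of_pos_on (hγ.continuous.intervalIntegrable 0 r)
      (fun u hu => mul_pos hu.1 (expNegInvGlue.pos_of_pos hu.1)) hr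

theorem mp_point {χ γ γ' m A B D : ℝ} (hγ' : 0 ≤ γ') (hγ : γ ^ 2 ≤ m ^ 2 * γ') (hA : 0 ≤ A)
    (hD : 0 ≤ D) (hB : B ^ 2 ≤ D * A) : -(χ * (χ * (γ' * A) + γ * B) + χ * γ * B) ≤ m ^ 2 * D := by
  have hX : 0 ≤ χ ^ 2 * γ' * A := by positivity
  have hY : 0 ≤ m ^ 2 * D := by positivity
  have h1 : γ ^ 2 * B ^ 2 ≤ m ^ 2 * γ' * (D * A) :=
    mul_le_mul hγ hB (sq_nonneg _) (by positivity)
  have h2 := mul_le_mul_of_nonneg_left h1 (sq_nonneg χ)
  have h3 : |2 * χ * γ * B| ≤ χ ^ 2 * γ' * A + m ^ 2 * D := by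
    refine abs_le.2 (abs_le_of_sq_le_sq' ?_ (add_nonneg hX hY))
    nlinarith [sq_nonneg (χ ^ 2 * γ' * A - m ^ 2 * D)]
  have h4 := (abs_le.1 h3).1
  nlinarith

theorem max_principle {T C : ℝ} {z z' e : ℝ → M → ℝ}
    (hsm : ∀ s ∈ Ioo 0 T, g.Sm (z s))
    (hz : ContinuousOn (fun q : ℝ × M => z q.1 q.2) (Ioo 0 T ×ˢ univ))
    (hz' : ContinuousOn (fun q : ℝ × M => z' q.1 q.2) (Ioo 0 T ×ˢ univ))
    (hd : ∀ s ∈ Ioo 0 T, ∀ x, HasDerivAt (fun r => z r x) (z' s x) s)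
    (hle : ∀ s ∈ Ioo 0 T, ∀ x, z' s x ≤ g.Δ (z s) x)
    (he : ∀ s ∈ Ioo 0 T, Integrable (e s) μ)
    (hze : ∀ s ∈ Ioo 0 T, ∀ᵐ x ∂μ, max (z s x) 0 ^ 2 ≤ e s x)
    (hC : ∀ s ∈ Ioo 0 T, ∫ x, e s x ∂μ ≤ C)
    (h0 : Tendsto (fun s => ∫ x, e s x ∂μ) (𝓝[>] 0) (𝓝 0)) :
    ∀ s ∈ Ioo 0 T, ∀ x, z s x ≤ 0 := by
  intro s₂ hs₂ x₀
  obtain ⟨γ, G, hγ, γ0, γ1, γ2, hG, G0, G1⟩ := mp_exists
  obtain ⟨χ, hχ⟩ := g.exists_cutoff x₀
  have Gc : Continuous G := continuous_iff_continuousAt.2 fun r => (hG r).continuousAt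
  have key : ∀ k : ℕ, ∫ x, χ k x * χ k x * G (z s₂ x) ∂μ ≤ (1 / ((k : ℝ) + 1)) ^ 2 * C * s₂ := by
    intro k
    obtain ⟨h1, h2, h3, -, h5⟩ := hχ k
    have cχ : Continuous fun x => χ k x * χ k x := (g.cont h1).mul (g.cont h1)
    have sχ : HasCompactSupport fun x => χ k x * χ k x := h2.mul_right
    have iF : ∀ s ∈ Ioo 0 T, Integrable (fun x => χ k x * χ k x * G (z s x)) μ := fun s hs =>
      (cχ.mul (Gc.comp (g.cont (hsm s hs)))).integrable_of_hasCompactSupport sχ.mul_right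
    have der : ∀ s ∈ Ioo 0 T, ∃ D, D ≤ (1 / ((k : ℝ) + 1)) ^ 2 * C ∧
        HasDerivAt (fun r => ∫ x, χ k x * χ k x * G (z r x) ∂μ) D s := by
      intro s hs
      have hK : Icc (s / 2) ((s + T) / 2) ⊆ Ioo 0 T := fun r hr =>
        ⟨by linarith [hr.1, hs.1], by linarith [hr.2, hs.2]⟩
      have hKn : Icc (s / 2) ((s + T) / 2) ∈ 𝓝 s :=
        Icc_mem_nhds (by linarith [hs.1]) (by linarith [hs.2])
      obtain ⟨B, hB⟩ := (isCompact_Icc.prod h2.isCompact).exists_bound_of_continuousOn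
        (((hγ.continuous.comp_continuousOn hz).mul hz').mono (prod_mono hK (subset_univ _)))
      have cz' : Continuous (z' s) :=
        hz'.comp_continuous (continuous_const.prodMk continuous_id) fun x => ⟨hs, mem_univ _⟩
      have hz1 := hsm s hs
      have hγz : ∀ x, ContDiffAt ℝ ∞ γ (z s x) := fun x => hγ.contDiffAt
      have sγ := g.sm_comp hz1 hγz
      obtain ⟨i1, hD⟩ := hasDerivAt_integral_of_dominated_loc_of_deriv_le (μ := μ)
        (F := fun r x => χ k x * χ k x * G (z r x))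
        (F' := fun r x => χ k x * χ k x * (γ (z r x) * z' r x))
        (bound := fun x => χ k x * χ k x * B) hKn
        (Filter.Eventually.mono hKn fun r hr => (iF r (hK hr)).aestronglyMeasurable) (iF s hs)
        (cχ.mul ((g.cont sγ).mul cz')).aestronglyMeasurable
        (Eventually.of_forall fun x r hr => by
          by_cases hx : x ∈ tsupport (χ k)
          · rw [norm_mul, Real.norm_of_nonneg (mul_self_nonneg _)]
            exact mul_le_mul_of_nonneg_left (hB (r, x) ⟨hr, hx⟩) (mul_self_nonneg _)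
          · simp [image_eq_zero_of_notMem_tsupport hx])
        ((cχ.mul continuous_const).integrable_of_hasCompactSupport sχ.mul_right)
        (Eventually.of_forall fun x r hr =>
          ((hG (z r x)).comp r (hd r (hK hr) x)).const_mul _)
      refine ⟨_, ?_, hD⟩
      have st := g.sm_mul h1 (g.sm_mul h1 sγ)
      have ct : HasCompactSupport fun x => χ k x * (χ k x * γ (z s x)) := h2.mul_right
      have a1 : ∫ x, χ k x * χ k x * (γ (z s x) * z' s x) ∂μ ≤
          ∫ x, χ k x * (χ k x * γ (z s x)) * g.Δ (z s) x ∂μ := by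
        refine integral_mono i1 (g.integrable_of_cs (g.sm_mul st (g.sm_Δ hz1)) ct.mul_right)
          fun x => ?_
        have := mul_le_mul_of_nonneg_left (hle s hs x)
          (mul_nonneg (mul_self_nonneg (χ k x)) (γ0 (z s x)))
        linarith
      refine a1.trans ?_
      rw [g.ibp st ct hz1, ← integral_neg]
      refine le_trans ?_ (mul_le_mul_of_nonneg_left (hC s hs) (sq_nonneg _))
      rw [← integral_const_mul]
      refine integral_mono_ae (g.integrable_of_cs (g.sm_Γ st hz1) (g.cs_Γ ct hz1)).neg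
        ((he s hs).const_mul _) ?_
      filter_upwards [hze s hs] with x hx
      rw [g.Γ_mul h1 (g.sm_mul h1 sγ) hz1, g.Γ_mul h1 sγ hz1, g.Γ_comp hz1 hz1 hγz]
      refine (mp_point (γ1 _) (γ2 _) (g.Γ_nonneg hz1 x) (g.Γ_nonneg h1 x)
        (g.Γ_sq_le h1 hz1 x)).trans ?_
      rw [mul_comm]
      exact mul_le_mul (h5 x) hx (sq_nonneg _) (sq_nonneg _)
    have mv := (convex_Ioo 0 T).image_sub_le_mul_sub_of_deriv_le
      (f := fun r => ∫ x, χ k x * χ k x * G (z r x) ∂μ) (C := (1 / ((k : ℝ) + 1)) ^ 2 * C)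
      (fun s hs => (der s hs).choose_spec.2.continuousAt.continuousWithinAt)
      (fun s hs => (der s (interior_subset hs)).choose_spec.2.differentiableAt.differentiableWithinAt)
      (fun s hs => by
        rw [(der s (interior_subset hs)).choose_spec.2.deriv]
        exact (der s (interior_subset hs)).choose_spec.1)
    have t1 : Tendsto (fun s₁ => ∫ x, e s₁ x ∂μ + (1 / ((k : ℝ) + 1)) ^ 2 * C * (s₂ - s₁))
        (𝓝[>] 0) (𝓝 (0 + (1 / ((k : ℝ) + 1)) ^ 2 * C * (s₂ - 0))) :=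
      h0.add ((by fun_prop : Continuous fun s₁ : ℝ =>
        (1 / ((k : ℝ) + 1)) ^ 2 * C * (s₂ - s₁)).tendsto 0 |>.mono_left nhdsWithin_le_nhds)
    rw [zero_add, sub_zero] at t1
    refine ge_of_tendsto t1 ?_
    filter_upwards [Ioo_mem_nhdsGT hs₂.1] with s₁ hs₁
    have hs₁' : s₁ ∈ Ioo 0 T := ⟨hs₁.1, hs₁.2.trans hs₂.2⟩
    have a1 := mv s₁ hs₁' s₂ hs₂ hs₁.2.le
    have a2 : ∫ x, χ k x * χ k x * G (z s₁ x) ∂μ ≤ ∫ x, e s₁ x ∂μ := by
      refine integral_mono_ae (iF s₁ hs₁') (he s₁ hs₁') ?_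
      filter_upwards [hze s₁ hs₁'] with x hx
      exact (mul_le_of_le_one_left (G0 _).1 (mul_le_one₀ (h3 x).2 (h3 x).1 (h3 x).2)).trans
        ((G0 _).2.trans hx)
    linarith
  have t0 := (((tendsto_one_div_add_atTop_nhds_zero_nat (𝕜 := ℝ)).pow 2).mul_const C).mul_const s₂
  rw [zero_pow two_ne_zero, zero_mul, zero_mul] at t0
  have cG : Continuous fun x => G (z s₂ x) := Gc.comp (g.cont (hsm s₂ hs₂))
  have cχ : ∀ k, Continuous fun x => χ k x * χ k x := fun k =>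
    (g.cont (hχ k).1).mul (g.cont (hχ k).1)
  have oχ : ∀ k : ℕ, ∀ y ∈ Metric.ball x₀ k, χ k y * χ k y = 1 := fun k y hy => by
    rw [(hχ k).2.2.2.1 y hy, one_mul]
  have hi : Integrable (fun x => G (z s₂ x)) μ :=
    cut_fatou cχ (fun k => (hχ k).2.1.mul_right) (fun k y => mul_self_nonneg _) oχ cG
      (fun x => (G0 _).1) ((t0.eventually_le_const one_pos).mono fun k hk => (key k).trans hk)
  have hI : ∫ x, G (z s₂ x) ∂μ ≤ 0 := le_of_tendsto_of_tendsto' (cut_tendsto cχ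
    (fun k y => ⟨mul_self_nonneg _,
      mul_le_one₀ ((hχ k).2.2.1 y).2 ((hχ k).2.2.1 y).1 ((hχ k).2.2.1 y).2⟩) oχ hi) t0 key
  have hae := (integral_eq_zero_iff_of_nonneg (fun x => (G0 (z s₂ x)).1) hi).1
    (le_antisymm hI (integral_nonneg fun x => (G0 (z s₂ x)).1))
  have h00 := congrFun ((Continuous.ae_eq_iff_eq μ cG continuous_zero).1 hae) x₀
  by_contra hpos
  exact (G1 _ (not_le.1 hpos)).ne' h00

end Pool.Agent.MP_3fc7f4_gt.Geo
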