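import Pool.Agent.MP_3fc7f4_gt.Joint
import Pool.Agent.MP_3fc7f4_gt.MP

/-!
TASK BL.  Positivity, the Lipschitz bound and the Bakry-Ledoux inequality, all from
g.max_principle (use T = t + 1 or so) and the lemmas of Joint.

U_le: z s = U 0 s a - C, z' s = U 1 s a = Δ (z s), e s = (T 0 s a - a)², because a.e.
z s ≤ T 0 s a - a; ∫ e s = ‖T 0 s a - a‖² ≤ 4‖a‖² tends to 0 (semi.tendsto).
U_nonneg: U_le for -a and C = 0.  p_nonneg: κ 0 t x ≥ 0 a.e. (test against its negative part,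
Lp.negPart), then p t x is continuous and a.e. equal to it.
grad_tendsto: with u = U 0 s a, the function u - φ is smooth, in L², Δ(u - φ) = U 1 s a - Δφ is in
L² and T 1 s a = T 0 s b (h.test, b = toLp Δφ), so by g.energy
∫ Γ (u-φ) (u-φ) ≤ ‖T 0 s a - a‖ ‖T 0 s b - b‖ ≤ ‖T 0 s a - a‖ 2‖b‖.
Γ_le (Lipschitz bound): w = Γ u u, r = √(w + ε²), B = Δw/2 - Γ u Δu + lam w ≥ 0 (bochner),
∂ₛ w = 2 Γ u Δu (Γ_deriv), so (∂ₛ - Δ) w = -2B + 2 lam w and by Δ_comp and kato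
(∂ₛ - Δ) r = (-B + lam w)/r + Γ w w/(4 r³) ≤ lam w / r ≤ 2 lam (r - ε).  Apply the maximum principle to
z = exp(-2 lam s)(r - ε) - L; z ≤ √w - L ≤ √(Γ (u-φ) (u-φ)) (triangle inequality for √Γ from
Γ_sq_le), e s = Γ (u-φ) (u-φ).  Let ε → 0.
BL_test: y = (U 1 s a)² has (∂ₛ - Δ) y = -2 Γ (U 1) (U 1) ≤ 0.  For
z = exp(-2 lam s) (w + (2 s/n) y) - U 0 s b one gets (∂ₛ - Δ) z ≤ exp(-2 lam s)(-2B + (2/n) y) ≤ 0.
z ≤ |w - Γ φ φ| + (2 s/n) y + |Γ φ φ - U 0 s b|, where w - Γ φ φ = Γ (u-φ) (u+φ) has square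
≤ C Γ (u-φ) (u-φ) by Γ_le, and y ≤ (sup |Δφ|) |T 0 s b'| by U_le (b' = toLp Δφ, U 1 s a = U 0 s b').
BL: apply BL_test to χ k * φ (cutoffs); toLp (χ k φ) → a in L² (dominated convergence), the left side
converges by Γ_cont_arg and continuity of the inner product; on the right
Γ (χφ) (χφ) = χ² Γ φ φ + 2 χ φ Γ χ φ + φ² Γ χ χ and
∫ p |2 χ φ Γ χ φ| ≤ (1/(k+1)) ∫ p (φ² + Γ φ φ).
-/

open MeasureTheory Filter Topology Set
open scoped RealInnerProductSpace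

namespace Pool.Agent.MP_3fc7f4_gt.Heat

variable {M : Type} [MetricSpace M] [ProperSpace M] [MeasurableSpace M] [BorelSpace M]
  {μ : Measure M} [IsFiniteMeasureOnCompacts μ] [μ.IsOpenPosMeasure] {n : ℕ} {lam : ℝ}
  {g : Geo M μ n lam} (h : Heat g)

omit [ProperSpace M] [BorelSpace M] [IsFiniteMeasureOnCompacts μ] [μ.IsOpenPosMeasure] in
theorem bl_norm_tendsto (a : Lp ℝ 2 μ) :
    Tendsto (fun s => ‖h.T 0 s a - a‖) (𝓝[>] 0) (𝓝 0) :=
  tendsto_iff_norm_sub_tendsto_zero.1 (h.semi.tendsto a)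

omit [ProperSpace M] [BorelSpace M] [IsFiniteMeasureOnCompacts μ] [μ.IsOpenPosMeasure] in
theorem bl_norm_le {s : ℝ} (hs : 0 < s) (a : Lp ℝ 2 μ) : ‖h.T 0 s a - a‖ ≤ 2 * ‖a‖ := by
  have h1 := norm_sub_le (h.T 0 s a) a
  have h2 := h.semi.norm_le s hs a
  linarith

omit [MetricSpace M] [ProperSpace M] [BorelSpace M] [IsFiniteMeasureOnCompacts μ]
  [μ.IsOpenPosMeasure] in
theorem bl_int_sq (a : Lp ℝ 2 μ) : ∫ x, a x ^ 2 ∂μ = ‖a‖ ^ 2 :=
  (norm_sq_eq_integral (ae_eq_refl _)).symm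

/-- The maximum principle in the form used below. -/
theorem bl_mp (g : Geo M μ n lam) {t C : ℝ} (ht : 0 < t) {z z' e : ℝ → M → ℝ} {F : ℝ → ℝ}
    (hsm : ∀ s, 0 < s → g.Sm (z s))
    (hz : ContinuousOn (fun q : ℝ × M => z q.1 q.2) (Ioi 0 ×ˢ univ))
    (hz' : ContinuousOn (fun q : ℝ × M => z' q.1 q.2) (Ioi 0 ×ˢ univ))
    (hd : ∀ s, 0 < s → ∀ x, HasDerivAt (fun r => z r x) (z' s x) s)
    (hle : ∀ s, 0 < s → ∀ x, z' s x ≤ g.Δ (z s) x)
    (he : ∀ s, 0 < s → Integrable (e s) μ)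
    (hze : ∀ s ∈ Ioo 0 (t + 1), ∀ᵐ x ∂μ, max (z s x) 0 ^ 2 ≤ e s x)
    (hF : ∀ s, 0 < s → ∫ x, e s x ∂μ ≤ F s)
    (hC : ∀ s ∈ Ioo 0 (t + 1), F s ≤ C)
    (h0 : Tendsto F (𝓝[>] 0) (𝓝 0)) (x : M) : z t x ≤ 0 := by
  have hsub : (Ioo (0 : ℝ) (t + 1) ×ˢ (univ : Set M)) ⊆ Ioi 0 ×ˢ univ :=
    prod_mono Ioo_subset_Ioi_self subset_rfl
  refine g.max_principle (T := t + 1) (C := C) (z' := z') (e := e) (fun s hs => hsm s hs.1)
    (hz.mono hsub) (hz'.mono hsub) (fun s hs => hd s hs.1) (fun s hs => hle s hs.1)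
    (fun s hs => he s hs.1) hze (fun s hs => (hF s hs.1).trans (hC s hs)) ?_ t
    ⟨ht, by linarith⟩ x
  have hm : ∀ᶠ s in 𝓝[>] (0 : ℝ), s ∈ Ioo 0 (t + 1) := Ioo_mem_nhdsGT (by linarith)
  refine squeeze_zero' ?_ ?_ h0
  · filter_upwards [hm] with s hs
    refine integral_nonneg_of_ae ?_
    filter_upwards [hze s hs] with y hy
    exact (sq_nonneg _).trans hy
  · filter_upwards [hm] with s hs using hF s hs.1

theorem bl_max_sq {z v : ℝ} (hzv : z ≤ v) : max z 0 ^ 2 ≤ v ^ 2 := by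
  rcases le_total z 0 with h0 | h0
  · rw [max_eq_right h0]; simpa using sq_nonneg v
  · rw [max_eq_left h0]; exact pow_le_pow_left₀ h0 hzv 2

theorem U_le {t : ℝ} (ht : 0 < t) {a : Lp ℝ 2 μ} {C : ℝ} (hC : 0 ≤ C)
    (ha : ∀ᵐ y ∂μ, a y ≤ C) (x : M) : h.U 0 t a x ≤ C := by
  have := bl_mp g (C := (2 * ‖a‖) ^ 2) ht (z := fun s y => h.U 0 s a y - C)
    (z' := fun s y => h.U 1 s a y) (e := fun s y => (h.T 0 s a - a) y ^ 2)
    (F := fun s => ‖h.T 0 s a - a‖ ^ 2)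
    (fun s hs => g.sm_sub (h.sm_U 0 hs a) (g.sm_const C))
    ((h.U_cont 0 a).sub continuousOn_const) (h.U_cont 1 a)
    (fun s hs y => (h.U_deriv 0 hs a y).sub_const C)
    (fun s hs y => by
      rw [g.Δ_sub (h.sm_U 0 hs a) (g.sm_const C), g.Δ_const, h.Δ_U 0 hs]; simp)
    (fun s _ => (Lp.memLp _).integrable_sq)
    (fun s hs => by
      filter_upwards [ha, h.U_ae 0 hs.1 a, Lp.coeFn_sub (h.T 0 s a) a] with y h1 h2 h3
      refine bl_max_sq ?_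
      rw [h3, h2, Pi.sub_apply]; linarith)
    (fun s _ => (bl_int_sq _).le)
    (fun s hs => pow_le_pow_left₀ (norm_nonneg _) (h.bl_norm_le hs.1 a) 2)
    (by simpa using (h.bl_norm_tendsto a).pow 2) x
  linarith

omit [ProperSpace M] [BorelSpace M] [IsFiniteMeasureOnCompacts μ] [μ.IsOpenPosMeasure] in
theorem bl_U_neg (j : ℕ) (t : ℝ) (a : Lp ℝ 2 μ) (x : M) : h.U j t (-a) x = -h.U j t a x :=
  inner_neg_right _ _

theorem U_nonneg {t : ℝ} (ht : 0 < t) {a : Lp ℝ 2 μ} (ha : ∀ᵐ y ∂μ, 0 ≤ a y) (x : M) :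
    0 ≤ h.U 0 t a x := by
  have := h.U_le ht (a := -a) le_rfl (by
    filter_upwards [ha, Lp.coeFn_neg a] with y h1 h2
    rw [h2, Pi.neg_apply]; linarith) x
  rw [h.bl_U_neg] at this
  linarith

theorem abs_U_le {t : ℝ} (ht : 0 < t) {a : Lp ℝ 2 μ} {C : ℝ} (hC : 0 ≤ C)
    (ha : ∀ᵐ y ∂μ, |a y| ≤ C) (x : M) : |h.U 0 t a x| ≤ C := by
  have h1 := h.U_le ht (a := -a) hC (by
    filter_upwards [ha, Lp.coeFn_neg a] with y h1 h2
    rw [h2, Pi.neg_apply]; linarith [neg_abs_le (a y)]) x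
  have h2 := h.U_le ht (a := a) hC (by
    filter_upwards [ha] with y h1
    exact (le_abs_self _).trans h1) x
  rw [h.bl_U_neg] at h1
  exact abs_le.2 ⟨by linarith, h2⟩

theorem κ_nonneg {t : ℝ} (ht : 0 < t) (x : M) : ∀ᵐ y ∂μ, 0 ≤ h.κ 0 t x y := by
  set k := h.κ 0 t x with hk
  have hm := Lp.coeFn_negPart_eq_max k
  have h1 : 0 ≤ ⟪k, Lp.negPart k⟫ := h.U_nonneg ht (a := Lp.negPart k) (by
    filter_upwards [hm] with y hy
    rw [hy]; exact le_max_right _ _) x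
  have h2 : ⟪k, Lp.negPart k⟫ = -‖Lp.negPart k‖ ^ 2 := by
    rw [inner_eq_integral (ae_eq_refl _) hm, norm_sq_eq_integral hm, ← integral_neg]
    refine integral_congr_ae (Eventually.of_forall fun y => ?_)
    rcases le_total (-k y) 0 with h0 | h0
    · simp [max_eq_right h0]
    · simp only [max_eq_left h0]; ring
  have h3 : Lp.negPart k = 0 := by
    have : ‖Lp.negPart k‖ ^ 2 = 0 := le_antisymm (by linarith) (sq_nonneg _)
    simpa using this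
  filter_upwards [hm, Lp.coeFn_zero ℝ 2 μ] with y hy h0
  rw [h3, h0] at hy
  have := le_max_left (-k y) 0
  rw [← hy] at this
  simpa using this

theorem p_nonneg {t : ℝ} (ht : 0 < t) (x y : M) : 0 ≤ h.p t x y :=
  h.U_nonneg (half_pos ht) (h.κ_nonneg (half_pos ht) x) y

theorem U_one_test {t : ℝ} (ht : 0 < t) {φ : M → ℝ} (hφ : g.Sm φ) (hc : HasCompactSupport φ)
    {a b : Lp ℝ 2 μ} (ha : a =ᵐ[μ] φ) (hb : b =ᵐ[μ] g.Δ φ) : h.U 1 t a = h.U 0 t b := by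
  have e1 := h.U_comp 1 0 (half_pos ht) (half_pos ht) a
  have e2 := h.U_comp 0 0 (half_pos ht) (half_pos ht) b
  rw [add_halves] at e1 e2
  rw [← e1, ← e2, h.test _ (half_pos ht) φ hφ hc a b ha hb]

/-- The energy of the difference between the flow and its initial value. -/
theorem bl_grad {s : ℝ} (hs : 0 < s) {φ : M → ℝ} (hφ : g.Sm φ) (hc : HasCompactSupport φ)
    {a b : Lp ℝ 2 μ} (ha : a =ᵐ[μ] φ) (hb : b =ᵐ[μ] g.Δ φ) :
    Integrable (g.Γ (fun y => h.U 0 s a y - φ y) fun y => h.U 0 s a y - φ y) μ ∧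
      ∫ x, g.Γ (fun y => h.U 0 s a y - φ y) (fun y => h.U 0 s a y - φ y) x ∂μ ≤
        ‖h.T 0 s a - a‖ * ‖h.T 0 s b - b‖ := by
  have hu := h.sm_U 0 hs a
  have e1 : (h.T 0 s a - a : Lp ℝ 2 μ) =ᵐ[μ] fun y => h.U 0 s a y - φ y := by
    filter_upwards [ha, h.U_ae 0 hs a, Lp.coeFn_sub (h.T 0 s a) a] with y h1 h2 h3
    rw [h3, h2, Pi.sub_apply, h1]
  have e2 : (h.T 0 s b - b : Lp ℝ 2 μ) =ᵐ[μ] g.Δ fun y => h.U 0 s a y - φ y := by
    filter_upwards [hb, h.U_ae 0 hs b, Lp.coeFn_sub (h.T 0 s b) b] with y h1 h2 h3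
    rw [h3, Pi.sub_apply, h1, g.Δ_sub hu hφ, h.Δ_U 0 hs, zero_add, h.U_one_test hs hφ hc ha hb, h2]
  obtain ⟨i1, i2⟩ := g.energy (g.sm_sub hu hφ) ((memLp_congr_ae e1).1 (Lp.memLp _))
    ((memLp_congr_ae e2).1 (Lp.memLp _))
  refine ⟨i1, ?_⟩
  rw [i2, ← inner_eq_integral e1 e2]
  exact (neg_le_abs _).trans (abs_real_inner_le_norm _ _)

omit [ProperSpace M] [BorelSpace M] [IsFiniteMeasureOnCompacts μ] [μ.IsOpenPosMeasure] in
theorem bl_split (g : Geo M μ n lam) {u φ : M → ℝ} (hu : g.Sm u) (hφ : g.Sm φ) (x : M) :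
    g.Γ u u x = g.Γ (fun y => u y - φ y) (fun y => u y - φ y) x +
      2 * g.Γ (fun y => u y - φ y) φ x + g.Γ φ φ x := by
  rw [g.Γ_sub hu hφ (g.sm_sub hu hφ), g.Γ_sub_right hu hφ hu, g.Γ_sub_right hu hφ hφ,
    g.Γ_sub hu hφ hφ, g.Γ_symm hφ hu]
  ring

omit [ProperSpace M] [BorelSpace M] [IsFiniteMeasureOnCompacts μ] [μ.IsOpenPosMeasure] in
/-- The differential inequality for the square root of the regularised gradient. -/
theorem bl_sqrt (g : Geo M μ n lam) {u : M → ℝ} (hu : g.Sm u) {ε : ℝ} (hε : 0 < ε) (x : M) :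
    (g.Γ (g.Δ u) u x + g.Γ u (g.Δ u) x) / (2 * √(g.Γ u u x + ε ^ 2)) -
      2 * lam * (√(g.Γ u u x + ε ^ 2) - ε) ≤ g.Δ (fun y => √(g.Γ u u y + ε ^ 2)) x := by
  have hw := g.sm_Γ hu hu
  have pos : ∀ y, 0 < g.Γ u u y + ε ^ 2 := fun y => by
    have := g.Γ_nonneg hu y; positivity
  have hv : g.Sm fun y => g.Γ u u y + ε ^ 2 := g.sm_add hw (g.sm_const _)
  have hr : g.Sm fun y => √(g.Γ u u y + ε ^ 2) :=
    g.sm_comp (φ := Real.sqrt) hv fun y => Real.contDiffAt_sqrt (pos y).ne'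
  have esq : (fun y => √(g.Γ u u y + ε ^ 2) ^ 2) = fun y => g.Γ u u y + ε ^ 2 :=
    funext fun y => Real.sq_sqrt (pos y).le
  have e1 := g.Δ_sq hr x
  rw [esq, g.Δ_add hw (g.sm_const _), g.Δ_const] at e1
  have e2 := g.Γ_comp_self (φ := fun r => r ^ 2) hr (fun _ => by fun_prop) x
  rw [esq, g.Γ_add hw (g.sm_const _) hv, g.Γ_const _ hv, g.Γ_add_right hw (g.sm_const _) hw,
    g.Γ_symm hw (g.sm_const _), g.Γ_const _ hw] at e2
  have e3 : deriv (fun r : ℝ => r ^ 2) √(g.Γ u u x + ε ^ 2) = 2 * √(g.Γ u u x + ε ^ 2) := by simp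
  rw [e3] at e2
  have k := g.kato hu x
  have b := g.bochner hu x
  have b0 : 0 ≤ g.Δ u x ^ 2 / n := by positivity
  have w0 := g.Γ_nonneg hu x
  have rsq := Real.sq_sqrt (pos x).le
  have r0 : 0 < √(g.Γ u u x + ε ^ 2) := Real.sqrt_pos.2 (pos x)
  have rε : ε ≤ √(g.Γ u u x + ε ^ 2) := Real.le_sqrt_of_sq_le (by linarith)
  rw [g.Γ_symm (g.sm_Δ hu) hu]
  set r := √(g.Γ u u x + ε ^ 2)
  set w := g.Γ u u x
  set q := g.Γ (fun y => √(g.Γ u u y + ε ^ 2)) (fun y => √(g.Γ u u y + ε ^ 2)) x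
  set B := g.Δ (g.Γ u u) x / 2 - g.Γ u (g.Δ u) x + lam * w with hB
  have B0 : 0 ≤ B := b0.trans b
  have qB : q ≤ B := by
    have : r ^ 2 * q ≤ r ^ 2 * B := by nlinarith [mul_nonneg B0 (sq_nonneg ε)]
    exact le_of_mul_le_mul_left this (by positivity)
  have l0 := g.lam_nonneg
  have wr : lam * w ≤ lam * (2 * r * (r - ε)) :=
    mul_le_mul_of_nonneg_left (by nlinarith [sq_nonneg (r - ε)]) l0
  rw [sub_le_iff_le_add, div_le_iff₀ (by positivity)]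
  nlinarith

theorem Γ_le {t : ℝ} (ht : 0 < t) {φ : M → ℝ} (hφ : g.Sm φ) (hc : HasCompactSupport φ)
    {a : Lp ℝ 2 μ} (ha : a =ᵐ[μ] φ) {L : ℝ} (hL : ∀ y, g.Γ φ φ y ≤ L ^ 2) (x : M) :
    g.Γ (h.U 0 t a) (h.U 0 t a) x ≤ Real.exp (4 * lam * t) * L ^ 2 := by
  have mb := g.memLp_of_cs (g.sm_Δ hφ) (g.cs_Δ hc)
  set b := mb.toLp
  have hb : b =ᵐ[μ] g.Δ φ := mb.coeFn_toLp
  have l0 := g.lam_nonneg
  have key : ∀ ε > 0, √(g.Γ (h.U 0 t a) (h.U 0 t a) x) ≤ Real.exp (2 * lam * t) * |L| + ε := by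
    intro ε hε
    have pos : ∀ s, 0 < s → ∀ y, 0 < g.Γ (h.U 0 s a) (h.U 0 s a) y + ε ^ 2 := fun s hs y => by
      have := g.Γ_nonneg (h.sm_U 0 hs a) y; positivity
    have hr : ∀ s, 0 < s → g.Sm fun y => √(g.Γ (h.U 0 s a) (h.U 0 s a) y + ε ^ 2) := fun s hs =>
      g.sm_comp (φ := Real.sqrt)
        (g.sm_add (g.sm_Γ (h.sm_U 0 hs a) (h.sm_U 0 hs a)) (g.sm_const _))
        fun y => Real.contDiffAt_sqrt (pos s hs y).ne'
    have cr : ContinuousOn (fun q : ℝ × M => √(g.Γ (h.U 0 q.1 a) (h.U 0 q.1 a) q.2 + ε ^ 2))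
        (Ioi 0 ×ˢ univ) := ((h.Γ_cont 0 0 a a).add continuousOn_const).sqrt
    have ce : ContinuousOn (fun q : ℝ × M => Real.exp (-(2 * lam) * q.1)) (Ioi 0 ×ˢ univ) := by
      fun_prop
    have := bl_mp g (C := 2 * ‖a‖ * (2 * ‖b‖)) ht
      (z := fun s y => Real.exp (-(2 * lam) * s) *
        (√(g.Γ (h.U 0 s a) (h.U 0 s a) y + ε ^ 2) - ε) - |L|)
      (z' := fun s y => Real.exp (-(2 * lam) * s) *
        ((g.Γ (h.U 1 s a) (h.U 0 s a) y + g.Γ (h.U 0 s a) (h.U 1 s a) y) /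
          (2 * √(g.Γ (h.U 0 s a) (h.U 0 s a) y + ε ^ 2)) -
          2 * lam * (√(g.Γ (h.U 0 s a) (h.U 0 s a) y + ε ^ 2) - ε)))
      (e := fun s => g.Γ (fun y => h.U 0 s a y - φ y) fun y => h.U 0 s a y - φ y)
      (F := fun s => ‖h.T 0 s a - a‖ * ‖h.T 0 s b - b‖)
      (fun s hs => g.sm_sub (g.sm_smul _ (g.sm_sub (hr s hs) (g.sm_const ε))) (g.sm_const _))
      ((ce.mul (cr.sub continuousOn_const)).sub continuousOn_const)
      (ce.mul ((((h.Γ_cont 1 0 a a).add (h.Γ_cont 0 1 a a)).div (continuousOn_const.mul cr)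
        fun q hq => mul_ne_zero two_ne_zero (Real.sqrt_pos.2 (pos _ hq.1 _)).ne').sub
        (continuousOn_const.mul (cr.sub continuousOn_const))))
      (fun s hs y => by
        have d1 := (((h.Γ_deriv 0 0 hs a a y).add_const (ε ^ 2)).sqrt (pos s hs y).ne').sub_const ε
        have d2 := ((hasDerivAt_id s).const_mul (-(2 * lam))).exp
        refine ((d2.mul d1).sub_const |L|).congr_deriv ?_
        simp only [id, zero_add]
        ring)
      (fun s hs y => by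
        rw [g.Δ_sub (g.sm_smul _ (g.sm_sub (hr s hs) (g.sm_const ε))) (g.sm_const _), g.Δ_const,
          g.Δ_smul _ (g.sm_sub (hr s hs) (g.sm_const ε)), g.Δ_sub (hr s hs) (g.sm_const ε),
          g.Δ_const, sub_zero, sub_zero]
        refine mul_le_mul_of_nonneg_left ?_ (Real.exp_pos _).le
        have := bl_sqrt g (h.sm_U 0 hs a) hε y
        rwa [h.Δ_U 0 hs] at this)
      (fun s hs => (h.bl_grad hs hφ hc ha hb).1)
      (fun s hs => Eventually.of_forall fun y => by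
        have hu := h.sm_U 0 hs.1 a
        have hd := g.sm_sub hu hφ
        rw [← Real.sq_sqrt (g.Γ_nonneg hd y)]
        refine bl_max_sq ?_
        have s1 := bl_split g hu hφ y
        have s2 := g.abs_Γ_le hd hφ y
        have s3 : √(g.Γ φ φ y) ≤ |L| := Real.sqrt_le_iff.2 ⟨abs_nonneg _, by rw [sq_abs]; exact hL y⟩
        have s4 := Real.sq_sqrt (g.Γ_nonneg hd y)
        have s5 := Real.sq_sqrt (g.Γ_nonneg hφ y)
        have s6 := le_abs_self (g.Γ (fun y => h.U 0 s a y - φ y) φ y)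
        have w0 := g.Γ_nonneg hu y
        set D := √(g.Γ (fun y => h.U 0 s a y - φ y) (fun y => h.U 0 s a y - φ y) y)
        set P := √(g.Γ φ φ y)
        have D0 : 0 ≤ D := Real.sqrt_nonneg _
        have P0 : 0 ≤ P := Real.sqrt_nonneg _
        have r1 : √(g.Γ (h.U 0 s a) (h.U 0 s a) y + ε ^ 2) ≤ D + P + ε :=
          Real.sqrt_le_iff.2 ⟨by positivity, by nlinarith [mul_nonneg (add_nonneg D0 P0) hε.le]⟩
        have r2 : ε ≤ √(g.Γ (h.U 0 s a) (h.U 0 s a) y + ε ^ 2) :=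
          Real.le_sqrt_of_sq_le (by linarith)
        have x1 : Real.exp (-(2 * lam) * s) ≤ 1 :=
          Real.exp_le_one_iff.2 (by nlinarith [mul_nonneg l0 hs.1.le])
        nlinarith [mul_le_mul_of_nonneg_right x1 (sub_nonneg.2 r2)])
      (fun s hs => (h.bl_grad hs hφ hc ha hb).2)
      (fun s hs => mul_le_mul (h.bl_norm_le hs.1 a) (h.bl_norm_le hs.1 b) (norm_nonneg _)
        (by positivity))
      (by simpa using (h.bl_norm_tendsto a).mul (h.bl_norm_tendsto b)) x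
    have e : Real.exp (2 * lam * t) * Real.exp (-(2 * lam) * t) = 1 := by
      rw [← Real.exp_add]; simp
    have r1 : √(g.Γ (h.U 0 t a) (h.U 0 t a) x) ≤ √(g.Γ (h.U 0 t a) (h.U 0 t a) x + ε ^ 2) :=
      Real.sqrt_le_sqrt (by nlinarith)
    have m := mul_le_mul_of_nonneg_left (sub_nonpos.1 this) (Real.exp_pos (2 * lam * t)).le
    rw [← mul_assoc, e] at m
    linarith
  have k2 : √(g.Γ (h.U 0 t a) (h.U 0 t a) x) ≤ Real.exp (2 * lam * t) * |L| :=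
    le_of_forall_pos_le_add key
  have k3 := (Real.sqrt_le_iff.1 k2).2
  rw [mul_pow, sq_abs, ← Real.exp_nat_mul] at k3
  convert k3 using 3
  push_cast; ring

theorem BL_test {t : ℝ} (ht : 0 < t) {φ : M → ℝ} (hφ : g.Sm φ) (hc : HasCompactSupport φ)
    {a : Lp ℝ 2 μ} (ha : a =ᵐ[μ] φ) (x : M) :
    g.Γ (h.U 0 t a) (h.U 0 t a) x + 2 * t / n * h.U 1 t a x ^ 2 ≤
      Real.exp (2 * lam * t) * ∫ y, h.p t x y * g.Γ φ φ y ∂μ := by
  have mb := g.memLp_of_cs (g.sm_Δ hφ) (g.cs_Δ hc)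
  set b := mb.toLp
  have hb : b =ᵐ[μ] g.Δ φ := mb.coeFn_toLp
  have mc := g.memLp_of_cs (g.sm_Γ hφ hφ) (g.cs_Γ hc hφ)
  set c := mc.toLp
  have hcc : c =ᵐ[μ] g.Γ φ φ := mc.coeFn_toLp
  have l0 := g.lam_nonneg
  have n0 : (0 : ℝ) < n := Nat.cast_pos.2 g.n_pos
  obtain ⟨D, hD⟩ := (g.cont (g.sm_Δ hφ)).bounded_above_of_compact_support (g.cs_Δ hc)
  obtain ⟨L₀, hL₀⟩ := (g.cont (g.sm_Γ hφ hφ)).bounded_above_of_compact_support (g.cs_Γ hc hφ)
  have D0 : 0 ≤ D := (norm_nonneg _).trans (hD x)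
  have L0 : 0 ≤ L₀ := (norm_nonneg _).trans (hL₀ x)
  have hL : ∀ y, g.Γ φ φ y ≤ √L₀ ^ 2 := fun y => by
    rw [Real.sq_sqrt L0]; exact (le_abs_self _).trans (hL₀ y)
  set K := 2 * (Real.exp (4 * lam * (t + 1)) * L₀ + L₀) with hK
  have K0 : 0 ≤ K := by positivity
  have ce : ContinuousOn (fun q : ℝ × M => Real.exp (-(2 * lam) * q.1)) (Ioi 0 ×ˢ univ) := by
    fun_prop
  have cs : ContinuousOn (fun q : ℝ × M => 2 * q.1 / n) (Ioi 0 ×ˢ univ) := by fun_prop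
  have s0 : ∀ s, 0 < s → g.Sm fun y => g.Γ (h.U 0 s a) (h.U 0 s a) y +
      2 * s / n * h.U 1 s a y ^ 2 := fun s hs =>
    g.sm_add (g.sm_Γ (h.sm_U 0 hs a) (h.sm_U 0 hs a)) (g.sm_smul _ (g.sm_sq (h.sm_U 1 hs a)))
  have c0 : ContinuousOn (fun q : ℝ × M => g.Γ (h.U 0 q.1 a) (h.U 0 q.1 a) q.2 +
      2 * q.1 / n * h.U 1 q.1 a q.2 ^ 2) (Ioi 0 ×ˢ univ) :=
    (h.Γ_cont 0 0 a a).add (cs.mul ((h.U_cont 1 a).pow 2))
  have ie : ∀ s, 0 < s → Integrable (fun y => 3 * (K *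
      g.Γ (fun y => h.U 0 s a y - φ y) (fun y => h.U 0 s a y - φ y) y +
        (2 * s / n * D) ^ 2 * h.T 0 s b y ^ 2 + (h.T 0 s c - c) y ^ 2)) μ := fun s hs =>
    ((((h.bl_grad hs hφ hc ha hb).1.const_mul K).add
      ((Lp.memLp _).integrable_sq.const_mul _)).add (Lp.memLp _).integrable_sq).const_mul 3
  have := bl_mp g
    (C := 3 * (K * (2 * ‖a‖ * (2 * ‖b‖)) + (2 * (t + 1) / n * D) ^ 2 * ‖b‖ ^ 2 + (2 * ‖c‖) ^ 2)) ht
    (z := fun s y => Real.exp (-(2 * lam) * s) *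
      (g.Γ (h.U 0 s a) (h.U 0 s a) y + 2 * s / n * h.U 1 s a y ^ 2) - h.U 0 s c y)
    (z' := fun s y => Real.exp (-(2 * lam) * s) *
      (g.Γ (h.U 1 s a) (h.U 0 s a) y + g.Γ (h.U 0 s a) (h.U 1 s a) y +
        2 / n * h.U 1 s a y ^ 2 + 2 * s / n * (2 * h.U 1 s a y * h.U 2 s a y) -
        2 * lam * (g.Γ (h.U 0 s a) (h.U 0 s a) y + 2 * s / n * h.U 1 s a y ^ 2)) - h.U 1 s c y)
    (e := fun s y => 3 * (K * g.Γ (fun y => h.U 0 s a y - φ y) (fun y => h.U 0 s a y - φ y) y +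
        (2 * s / n * D) ^ 2 * h.T 0 s b y ^ 2 + (h.T 0 s c - c) y ^ 2))
    (F := fun s => 3 * (K * (‖h.T 0 s a - a‖ * ‖h.T 0 s b - b‖) +
        (2 * s / n * D) ^ 2 * ‖b‖ ^ 2 + ‖h.T 0 s c - c‖ ^ 2))
    (fun s hs => g.sm_sub (g.sm_smul _ (s0 s hs)) (h.sm_U 0 hs c))
    ((ce.mul c0).sub (h.U_cont 0 c))
    ((ce.mul (((((h.Γ_cont 1 0 a a).add (h.Γ_cont 0 1 a a)).add
      (continuousOn_const.mul ((h.U_cont 1 a).pow 2))).add
      (cs.mul ((continuousOn_const.mul (h.U_cont 1 a)).mul (h.U_cont 2 a)))).sub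
      (continuousOn_const.mul c0))).sub (h.U_cont 1 c))
    (fun s hs y => by
      have d0 := ((hasDerivAt_id s).const_mul 2).div_const (n : ℝ)
      have d1 := (h.Γ_deriv 0 0 hs a a y).add (d0.mul ((h.U_deriv 1 hs a y).pow 2))
      have d2 := ((hasDerivAt_id s).const_mul (-(2 * lam))).exp
      refine ((d2.mul d1).sub (h.U_deriv 0 hs c y)).congr_deriv ?_
      simp only [id, zero_add, Pi.add_apply, Pi.mul_apply, Pi.pow_apply]
      norm_num
      ring)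
    (fun s hs y => by
      have hu := h.sm_U 0 hs a
      have hv := h.sm_U 1 hs a
      rw [g.Δ_sub (g.sm_smul _ (s0 s hs)) (h.sm_U 0 hs c), g.Δ_smul _ (s0 s hs),
        g.Δ_add (g.sm_Γ hu hu) (g.sm_smul _ (g.sm_sq hv)), g.Δ_smul _ (g.sm_sq hv), g.Δ_sq hv,
        h.Δ_U 0 hs, h.Δ_U 1 hs]
      refine sub_le_sub_right (mul_le_mul_of_nonneg_left ?_ (Real.exp_pos _).le) _
      have bo := g.bochner hu y
      rw [h.Δ_U 0 hs, zero_add] at bo
      have q0 := g.Γ_nonneg hv y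
      have p0 : 0 ≤ 2 * s / n := by positivity
      have q1 := mul_nonneg p0 q0
      have q2 := mul_nonneg l0 (mul_nonneg p0 (sq_nonneg (h.U 1 s a y)))
      have q3 : 2 / n * h.U 1 s a y ^ 2 = 2 * (h.U 1 s a y ^ 2 / n) := by ring
      rw [g.Γ_symm hv hu, q3]
      nlinarith)
    ie
    (fun s hs => by
      have hu := h.sm_U 0 hs.1 a
      have hd := g.sm_sub hu hφ
      filter_upwards [hcc, h.U_ae 0 hs.1 b, h.U_ae 0 hs.1 c, Lp.coeFn_sub (h.T 0 s c) c]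
        with y h1 h2 h3 h4
      have e1 : h.U 1 s a y = h.T 0 s b y := by rw [h.U_one_test hs.1 hφ hc ha hb, h2]
      have e2 : |h.U 1 s a y| ≤ D := by
        rw [h.U_one_test hs.1 hφ hc ha hb]
        refine h.abs_U_le hs.1 D0 ?_ y
        filter_upwards [hb] with v hv
        rw [hv]; exact hD v
      have w0 := g.Γ_nonneg hu y
      have w1 := h.Γ_le hs.1 hφ hc ha hL y
      have w2 : g.Γ (h.U 0 s a) (h.U 0 s a) y ≤ Real.exp (4 * lam * (t + 1)) * L₀ := by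
        rw [Real.sq_sqrt L0] at w1
        refine w1.trans (mul_le_mul_of_nonneg_right (Real.exp_le_exp.2 ?_) L0)
        exact mul_le_mul_of_nonneg_left hs.2.le (by positivity)
      have w3 : g.Γ φ φ y ≤ L₀ := (le_abs_self _).trans (hL₀ y)
      have p0 : 0 ≤ 2 * s / n := by have := hs.1; positivity
      have x1 : Real.exp (-(2 * lam) * s) ≤ 1 :=
        Real.exp_le_one_iff.2 (by nlinarith [mul_nonneg l0 hs.1.le])
      have g1 := g.Γ_sq_le hd hu y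
      have g2 := g.Γ_sq_le hd hφ y
      have d0 := g.Γ_nonneg hd y
      have sp : g.Γ (h.U 0 s a) (h.U 0 s a) y - g.Γ φ φ y =
          g.Γ (fun y => h.U 0 s a y - φ y) (h.U 0 s a) y +
            g.Γ (fun y => h.U 0 s a y - φ y) φ y := by
        rw [g.Γ_sub hu hφ hu, g.Γ_sub hu hφ hφ, g.Γ_symm hφ hu]; ring
      have A2 : (g.Γ (h.U 0 s a) (h.U 0 s a) y - g.Γ φ φ y) ^ 2 ≤
          K * g.Γ (fun y => h.U 0 s a y - φ y) (fun y => h.U 0 s a y - φ y) y := by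
        rw [sp, hK]
        nlinarith [mul_le_mul_of_nonneg_left w2 d0, mul_le_mul_of_nonneg_left w3 d0,
          sq_nonneg (g.Γ (fun y => h.U 0 s a y - φ y) (h.U 0 s a) y -
            g.Γ (fun y => h.U 0 s a y - φ y) φ y)]
      have B2 : (2 * s / n * h.U 1 s a y ^ 2) ^ 2 ≤ (2 * s / n * D) ^ 2 * h.T 0 s b y ^ 2 := by
        rw [← e1]
        have : h.U 1 s a y ^ 2 ≤ D ^ 2 := sq_le_sq' (abs_le.1 e2).1 (abs_le.1 e2).2
        have := mul_le_mul_of_nonneg_left this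
          (mul_nonneg (sq_nonneg (2 * s / n)) (sq_nonneg (h.U 1 s a y)))
        nlinarith
      have C2 : (h.T 0 s c - c) y = h.U 0 s c y - g.Γ φ φ y := by
        rw [h4, Pi.sub_apply, h3, h1]
      rw [C2]
      have zz : Real.exp (-(2 * lam) * s) *
          (g.Γ (h.U 0 s a) (h.U 0 s a) y + 2 * s / n * h.U 1 s a y ^ 2) - h.U 0 s c y ≤
          (g.Γ (h.U 0 s a) (h.U 0 s a) y - g.Γ φ φ y) + 2 * s / n * h.U 1 s a y ^ 2 -
            (h.U 0 s c y - g.Γ φ φ y) := by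
        have := mul_le_mul_of_nonneg_right x1
          (add_nonneg w0 (mul_nonneg p0 (sq_nonneg (h.U 1 s a y))))
        linarith
      refine (bl_max_sq zz).trans ?_
      generalize g.Γ (h.U 0 s a) (h.U 0 s a) y - g.Γ φ φ y = A at A2 ⊢
      generalize 2 * s / n * h.U 1 s a y ^ 2 = B at B2 ⊢
      generalize h.U 0 s c y - g.Γ φ φ y = C
      nlinarith [sq_nonneg (A - B), sq_nonneg (A + C), sq_nonneg (B + C)])
    (fun s hs => by
      have i1 := (h.bl_grad hs hφ hc ha hb).1.const_mul K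
      have i2 := (Lp.memLp (h.T 0 s b)).integrable_sq.const_mul ((2 * s / n * D) ^ 2)
      have i3 := (Lp.memLp (h.T 0 s c - c)).integrable_sq
      have i4 : Integrable (fun y => K *
          g.Γ (fun y => h.U 0 s a y - φ y) (fun y => h.U 0 s a y - φ y) y +
          (2 * s / n * D) ^ 2 * h.T 0 s b y ^ 2) μ := i1.add i2
      rw [integral_const_mul, integral_add i4 i3, integral_add i1 i2, integral_const_mul,
        integral_const_mul, bl_int_sq, bl_int_sq]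
      have j1 := mul_le_mul_of_nonneg_left (h.bl_grad hs hφ hc ha hb).2 K0
      have j2 := mul_le_mul_of_nonneg_left
        (pow_le_pow_left₀ (norm_nonneg _) (h.semi.norm_le s hs b) 2) (sq_nonneg (2 * s / n * D))
      linarith)
    (fun s hs => by
      have j1 := mul_le_mul_of_nonneg_left (mul_le_mul (h.bl_norm_le hs.1 a) (h.bl_norm_le hs.1 b)
        (norm_nonneg _) (by positivity)) K0
      have j0 : 2 * s / n * D ≤ 2 * (t + 1) / n * D := by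
        have := hs.2.le
        gcongr
      have j2 := mul_le_mul_of_nonneg_right
        (pow_le_pow_left₀ (by have := hs.1; positivity) j0 2) (sq_nonneg ‖b‖)
      have j3 := pow_le_pow_left₀ (norm_nonneg _) (h.bl_norm_le hs.1 c) 2
      linarith)
    (by
      have t1 : Tendsto (fun s : ℝ => (2 * s / n * D) ^ 2 * ‖b‖ ^ 2) (𝓝[>] 0) (𝓝 0) := by
        have : Continuous fun s : ℝ => (2 * s / n * D) ^ 2 * ‖b‖ ^ 2 := by fun_prop
        simpa using (this.tendsto 0).mono_left nhdsWithin_le_nhds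
      simpa using (((((h.bl_norm_tendsto a).mul (h.bl_norm_tendsto b)).const_mul K).add t1).add
        ((h.bl_norm_tendsto c).pow 2)).const_mul 3) x
  have e : Real.exp (2 * lam * t) * Real.exp (-(2 * lam) * t) = 1 := by
    rw [← Real.exp_add]; simp
  have m := mul_le_mul_of_nonneg_left (sub_nonpos.1 this) (Real.exp_pos (2 * lam * t)).le
  rw [← mul_assoc, e, one_mul, h.U_eq_integral ht hcc] at m
  exact m

theorem BL {t : ℝ} (ht : 0 < t) {φ : M → ℝ} (hφ : g.Sm φ) {a : Lp ℝ 2 μ} (ha : a =ᵐ[μ] φ)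
    (x : M) (h1 : Integrable (fun y => h.p t x y * g.Γ φ φ y) μ)
    (h2 : Integrable (fun y => h.p t x y * φ y ^ 2) μ) :
    g.Γ (h.U 0 t a) (h.U 0 t a) x + 2 * t / n * h.U 1 t a x ^ 2 ≤
      Real.exp (2 * lam * t) * ∫ y, h.p t x y * g.Γ φ φ y ∂μ := by
  obtain ⟨χ, hχ⟩ := g.exists_cutoff x
  have sm : ∀ k, g.Sm fun y => χ k y * φ y := fun k => g.sm_mul (hχ k).1 hφ
  have cs : ∀ k, HasCompactSupport fun y => χ k y * φ y := fun k => (hχ k).2.1.mul_right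
  have mk : ∀ k, MemLp (fun y => χ k y * φ y) 2 μ := fun k => g.memLp_of_cs (sm k) (cs k)
  have φ2 : Integrable (fun y => φ y ^ 2) μ := ((memLp_congr_ae ha).1 (Lp.memLp a)).integrable_sq
  have conv : Tendsto (fun k => (mk k).toLp) atTop (𝓝 a) := by
    have e : ∀ k, ‖(mk k).toLp - a‖ ^ 2 = ∫ y, (χ k y * φ y - φ y) ^ 2 ∂μ := fun k => by
      refine norm_sq_eq_integral ?_
      filter_upwards [ha, (mk k).coeFn_toLp, Lp.coeFn_sub (mk k).toLp a] with y e1 e2 e3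
      rw [e3, Pi.sub_apply, e1, e2]
    have t1 : Tendsto (fun k => ∫ y, (χ k y * φ y - φ y) ^ 2 ∂μ) atTop (𝓝 (∫ _, (0 : ℝ) ∂μ)) := by
      refine tendsto_integral_of_dominated_convergence (fun y => φ y ^ 2)
        (fun k => (((g.cont (sm k)).sub (g.cont hφ)).pow 2).aestronglyMeasurable) φ2
        (fun k => Eventually.of_forall fun y => ?_) (Eventually.of_forall fun y => ?_)
      · obtain ⟨c0, c1⟩ := (hχ k).2.2.1 y
        rw [Real.norm_eq_abs, abs_of_nonneg (sq_nonneg _)]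
        have : (χ k y - 1) ^ 2 ≤ 1 := by nlinarith
        nlinarith [mul_le_mul_of_nonneg_right this (sq_nonneg (φ y))]
      · refine tendsto_const_nhds.congr' ?_
        filter_upwards [(tendsto_natCast_atTop_atTop (R := ℝ)).eventually_gt_atTop (dist y x)]
          with k hk
        rw [(hχ k).2.2.2.1 y hk]; simp
    rw [integral_zero] at t1
    rw [tendsto_iff_norm_sub_tendsto_zero]
    have t2 := t1.sqrt
    simp only [← e, Real.sqrt_sq (norm_nonneg _), Real.sqrt_zero] at t2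
    exact t2
  have cl : Continuous fun b : Lp ℝ 2 μ =>
      g.Γ (h.U 0 t b) (h.U 0 t b) x + 2 * t / n * h.U 1 t b x ^ 2 :=
    (h.Γ_cont_arg ht x).add (continuous_const.mul ((continuous_const.inner continuous_id).pow 2))
  have δ0 : Tendsto (fun k : ℕ => 1 / ((k : ℝ) + 1)) atTop (𝓝 0) :=
    tendsto_one_div_add_atTop_nhds_zero_nat
  set I₁ := ∫ y, h.p t x y * g.Γ φ φ y ∂μ
  set I₂ := ∫ y, h.p t x y * φ y ^ 2 ∂μ
  have tr : Tendsto (fun k : ℕ => Real.exp (2 * lam * t) *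
      ((1 + 1 / ((k : ℝ) + 1)) * I₁ + (1 / ((k : ℝ) + 1) + (1 / ((k : ℝ) + 1)) ^ 2) * I₂)) atTop
      (𝓝 (Real.exp (2 * lam * t) * I₁)) := by
    have := ((((tendsto_const_nhds (x := (1 : ℝ))).add δ0).mul_const I₁).add
      ((δ0.add (δ0.pow 2)).mul_const I₂)).const_mul (Real.exp (2 * lam * t))
    simpa using this
  refine le_of_tendsto_of_tendsto' ((cl.tendsto a).comp conv) tr fun k => ?_
  refine (h.BL_test ht (sm k) (cs k) (mk k).coeFn_toLp x).trans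
    (mul_le_mul_of_nonneg_left ?_ (Real.exp_pos _).le)
  rw [← integral_const_mul, ← integral_const_mul,
    ← integral_add (h1.const_mul _) (h2.const_mul _)]
  refine integral_mono_of_nonneg (Eventually.of_forall fun y =>
    mul_nonneg (h.p_nonneg ht x y) (g.Γ_nonneg (sm k) y))
    ((h1.const_mul _).add (h2.const_mul _)) (Eventually.of_forall fun y => ?_)
  obtain ⟨c0, c1⟩ := (hχ k).2.2.1 y
  have hk := (hχ k).1
  have c2 := (hχ k).2.2.2.2 y
  have δp : 0 < 1 / ((k : ℝ) + 1) := by positivity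
  generalize 1 / ((k : ℝ) + 1) = δ at c2 δp ⊢
  have ex : g.Γ (fun y => χ k y * φ y) (fun y => χ k y * φ y) y =
      χ k y ^ 2 * g.Γ φ φ y + 2 * χ k y * φ y * g.Γ (χ k) φ y + φ y ^ 2 * g.Γ (χ k) (χ k) y := by
    rw [g.Γ_mul hk hφ (sm k), g.Γ_mul_right hk hφ hφ, g.Γ_mul_right hk hφ hk, g.Γ_symm hφ hk]
    ring
  have f0 := g.Γ_nonneg hφ y
  have cq : χ k y ^ 2 ≤ 1 := by nlinarith
  have G1 : g.Γ (χ k) φ y ^ 2 ≤ δ ^ 2 * g.Γ φ φ y :=
    (g.Γ_sq_le hk hφ y).trans (mul_le_mul_of_nonneg_right c2 f0)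
  have G2 : 2 * χ k y * φ y * g.Γ (χ k) φ y ≤ δ * (φ y ^ 2 + g.Γ φ φ y) := by
    refine le_of_mul_le_mul_left ?_ δp
    nlinarith [sq_nonneg (δ * φ y - χ k y * g.Γ (χ k) φ y),
      mul_le_mul_of_nonneg_right cq (sq_nonneg (g.Γ (χ k) φ y))]
  have G3 : g.Γ (fun y => χ k y * φ y) (fun y => χ k y * φ y) y ≤
      (1 + δ) * g.Γ φ φ y + (δ + δ ^ 2) * φ y ^ 2 := by
    rw [ex]
    nlinarith [mul_le_mul_of_nonneg_right cq f0, mul_le_mul_of_nonneg_left c2 (sq_nonneg (φ y))]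
  have := mul_le_mul_of_nonneg_left G3 (h.p_nonneg ht x y)
  simp only
  linarith

end Pool.Agent.MP_3fc7f4_gt.Heat
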