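import Pool.Agent.MP_3fc7f4_gt.Abs

/-!
TASK Cut.  Cutoff functions and integration by parts without compact support.

exists_cutoff: θ = Real.smoothTransition has bounded derivative, |θ'| ≤ C₀ (the derivative is
continuous and vanishes outside [0,1]).  For given k put S = 2 C₀ (k+1) + 1, R = k + S + 2,
f = max (R - dist x₀ ·) 0 (1-Lipschitz, compact support since M is proper), h from g.lipApprox f with
ε = 1 (so Γ h h ≤ 4), χ = θ ((h - 1)/S).  Use g.sm_comp and g.Γ_comp_self.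

ibp_symm: choose χ = χ k with tsupport φ ⊆ ball x₀ k; ∫ f Δφ = ∫ (χ f) Δφ = -∫ Γ (χ f) φ and
Γ (χ f) φ = Γ f φ everywhere (Γ_congr inside the ball, Γ_symm and Γ_eq_zero outside tsupport φ).

energy (Caccioppoli): ibp with the test function χ² f gives
∫ χ² Γ f f = -∫ χ² f Δf - 2 ∫ χ f Γ χ f, and |2 χ f Γ χ f| ≤ χ² Γ f f / 2 + 2 f² Γ χ χ.  So
∫ χ² Γ f f is bounded uniformly in k, Γ f f is integrable (Fatou / monotone convergence on balls:
integrable_of_forall... e.g. via lintegral_liminf_le), and then green with k = f gives the identity.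

green: ibp with the test function χ k; ∫ |k| |Γ χ f| ≤ (1/(j+1)) ∫ (k² + Γ f f)/2 → 0; the other
terms converge by dominated convergence (k Δf and Γ k f are integrable).

green_weight: ∫ χ p Δw = -∫ χ Γ p w - ∫ p Γ χ w → -∫ Γ p w = ∫ w Δp (green).  So
∫ χ p Γ w w = ∫ χ p F - ∫ χ p Δw is bounded, p Γ w w ≥ 0 is integrable (Fatou) and the identity
follows by dominated convergence.
-/

open MeasureTheory Filter Topology Set
open scoped ContDiff

set_option linter.unusedSectionVars false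

namespace Pool.Agent.MP_3fc7f4_gt.Geo

variable {M : Type} [MetricSpace M] [ProperSpace M] [MeasurableSpace M] [BorelSpace M]
  {μ : Measure M} [IsFiniteMeasureOnCompacts μ] {n : ℕ} {lam : ℝ} (g : Geo M μ n lam)

theorem cut_deriv_bound : ∃ C₀ : ℝ, 0 ≤ C₀ ∧ ∀ r, |deriv Real.smoothTransition r| ≤ C₀ := by
  have hc : Continuous (deriv Real.smoothTransition) :=
    (Real.smoothTransition.contDiff (n := 1)).continuous_deriv le_rfl
  obtain ⟨C, hC⟩ := (isCompact_Icc (a := (0 : ℝ)) (b := 1)).exists_bound_of_continuousOn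
    hc.continuousOn
  have h0 : 0 ≤ C := (norm_nonneg _).trans (hC 0 ⟨le_rfl, zero_le_one⟩)
  refine ⟨C, h0, fun r => ?_⟩
  rcases lt_or_ge r 0 with h | h
  · have e : Real.smoothTransition =ᶠ[𝓝 r] fun _ => 0 := by
      filter_upwards [Iio_mem_nhds h] with x hx using Real.smoothTransition.zero_of_nonpos hx.le
    rw [e.deriv_eq]
    simpa using h0
  rcases lt_or_ge 1 r with h' | h'
  · have e : Real.smoothTransition =ᶠ[𝓝 r] fun _ => 1 := by
      filter_upwards [Ioi_mem_nhds h'] with x hx using Real.smoothTransition.one_of_one_le hx.le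
    rw [e.deriv_eq]
    simpa using h0
  · exact hC r ⟨h, h'⟩

theorem exists_cutoff (x₀ : M) : ∃ χ : ℕ → M → ℝ, ∀ k, g.Sm (χ k) ∧ HasCompactSupport (χ k) ∧
    (∀ y, 0 ≤ χ k y ∧ χ k y ≤ 1) ∧ (∀ y ∈ Metric.ball x₀ k, χ k y = 1) ∧
    ∀ y, g.Γ (χ k) (χ k) y ≤ (1 / ((k : ℝ) + 1)) ^ 2 := by
  obtain ⟨C₀, hC0, hC⟩ := cut_deriv_bound
  refine Classical.axiomOfChoice (r := fun (k : ℕ) (χ : M → ℝ) => g.Sm χ ∧ HasCompactSupport χ ∧
    (∀ y, 0 ≤ χ y ∧ χ y ≤ 1) ∧ (∀ y ∈ Metric.ball x₀ k, χ y = 1) ∧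
    ∀ y, g.Γ χ χ y ≤ (1 / ((k : ℝ) + 1)) ^ 2) fun k => ?_
  have hk : (0 : ℝ) < k + 1 := by positivity
  obtain ⟨S, hS0, hS⟩ : ∃ S : ℝ, 0 < S ∧ 2 * C₀ * (k + 1) ≤ S :=
    ⟨2 * C₀ * (k + 1) + 1, by positivity, by linarith⟩
  have hl : LipschitzWith 1 fun y => max (k + S + 2 - dist x₀ y) 0 := by
    refine LipschitzWith.of_le_add fun x y => max_le ?_ (by positivity)
    have h1 := dist_triangle x₀ x y
    have h2 := le_max_left (k + S + 2 - dist x₀ y) 0
    linarith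
  have hcs : HasCompactSupport fun y => max (k + S + 2 - dist x₀ y) 0 := by
    refine HasCompactSupport.intro (isCompact_closedBall x₀ (k + S + 2)) fun y hy => ?_
    rw [Metric.mem_closedBall, dist_comm, not_le] at hy
    exact max_eq_right (by linarith)
  obtain ⟨h, h1, h2, h3, h4⟩ := g.lipApprox _ hl hcs 1 one_pos
  have hφ : ∀ x, ContDiffAt ℝ ∞ (fun r => Real.smoothTransition ((r - 1) / S)) (h x) := fun x =>
    (Real.smoothTransition.contDiff.comp ((contDiff_id.sub contDiff_const).div_const S)).contDiffAt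
  refine ⟨fun y => Real.smoothTransition ((h y - 1) / S),
    g.sm_comp (φ := fun r => Real.smoothTransition ((r - 1) / S)) h1 hφ, ?_,
    fun y => ⟨Real.smoothTransition.nonneg _, Real.smoothTransition.le_one _⟩, fun y hy => ?_,
    fun y => ?_⟩
  · refine HasCompactSupport.intro h2 fun y hy => Real.smoothTransition.zero_of_nonpos ?_
    rw [image_eq_zero_of_notMem_tsupport hy]
    exact div_nonpos_of_nonpos_of_nonneg (by norm_num) hS0.le
  · refine Real.smoothTransition.one_of_one_le ?_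
    rw [Metric.mem_ball, dist_comm] at hy
    have k1 := (abs_le.1 (h3 y)).1
    have k2 := le_max_left (k + S + 2 - dist x₀ y) 0
    rw [le_div_iff₀ hS0]
    linarith
  · rw [g.Γ_comp_self (φ := fun r => Real.smoothTransition ((r - 1) / S)) h1 hφ]
    have hd : HasDerivAt (fun r => Real.smoothTransition ((r - 1) / S))
        (deriv Real.smoothTransition ((h y - 1) / S) * (1 / S)) (h y) :=
      ((Real.smoothTransition.contDiff (n := 1)).differentiable one_ne_zero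
        _).hasDerivAt.comp (h y) (((hasDerivAt_id (h y)).sub_const 1).div_const S)
    rw [hd.deriv]
    have k1 : |deriv Real.smoothTransition ((h y - 1) / S) * (1 / S)| ≤ 1 / (k + 1) / 2 := by
      rw [abs_mul, abs_of_pos (one_div_pos.2 hS0), mul_one_div, div_le_iff₀ hS0]
      refine (hC _).trans ?_
      rw [div_div, div_mul_eq_mul_div, le_div_iff₀ (by positivity)]
      linarith
    have k2 := mul_le_mul (pow_le_pow_left₀ (abs_nonneg _) k1 2) (h4 y) (g.Γ_nonneg h1 y)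
      (by positivity)
    rw [sq_abs] at k2
    refine k2.trans_eq ?_
    ring

theorem ibp_symm {φ f : M → ℝ} (hφ : g.Sm φ) (hc : HasCompactSupport φ) (hf : g.Sm f) :
    ∫ x, f x * g.Δ φ x ∂μ = -∫ x, g.Γ f φ x ∂μ := by
  rcases isEmpty_or_nonempty M with hM | ⟨⟨x₀⟩⟩
  · simp [Measure.eq_zero_of_isEmpty μ]
  obtain ⟨χ, hχ⟩ := g.exists_cutoff x₀
  obtain ⟨r, hr⟩ := hc.isCompact.isBounded.subset_ball x₀
  obtain ⟨k, hk⟩ := exists_nat_ge r
  have hsub := hr.trans (Metric.ball_subset_ball hk)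
  obtain ⟨h1, h2, -, h4, -⟩ := hχ k
  have key := g.ibp (g.sm_mul h1 hf) h2.mul_right hφ
  have e1 : (fun x => χ k x * f x * g.Δ φ x) = fun x => f x * g.Δ φ x := by
    funext x
    by_cases hx : x ∈ tsupport φ
    · rw [h4 x (hsub hx), one_mul]
    · rw [g.Δ_eq_zero hx, mul_zero, mul_zero]
  have e2 : g.Γ (fun x => χ k x * f x) φ = g.Γ f φ := by
    funext x
    by_cases hx : x ∈ tsupport φ
    · refine g.Γ_congr ?_
      filter_upwards [Metric.isOpen_ball.mem_nhds (hsub hx)] with y hy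
      rw [h4 y hy, one_mul]
    · rw [g.Γ_symm (g.sm_mul h1 hf) hφ, g.Γ_symm hf hφ, g.Γ_eq_zero (g.sm_mul h1 hf) hx,
        g.Γ_eq_zero hf hx]
  rw [← e2, ← key, e1]

theorem cut_tendsto {x₀ : M} {ψ : ℕ → M → ℝ} (hc : ∀ k, Continuous (ψ k))
    (h01 : ∀ k y, 0 ≤ ψ k y ∧ ψ k y ≤ 1) (h1 : ∀ k : ℕ, ∀ y ∈ Metric.ball x₀ k, ψ k y = 1)
    {F : M → ℝ} (hF : Integrable F μ) :
    Tendsto (fun k => ∫ x, ψ k x * F x ∂μ) atTop (𝓝 (∫ x, F x ∂μ)) := by
  refine tendsto_integral_of_dominated_convergence (fun x => ‖F x‖)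
    (fun k => (hc k).aestronglyMeasurable.mul hF.aestronglyMeasurable) hF.norm
    (fun k => Eventually.of_forall fun x => ?_) (Eventually.of_forall fun x => ?_)
  · rw [norm_mul, Real.norm_of_nonneg (h01 k x).1]
    exact mul_le_of_le_one_left (norm_nonneg _) (h01 k x).2
  · refine tendsto_const_nhds.congr' ?_
    filter_upwards [tendsto_natCast_atTop_atTop.eventually_gt_atTop (dist x x₀)] with k hk
    rw [h1 k x hk, one_mul]

theorem cut_fatou {x₀ : M} {ψ : ℕ → M → ℝ} (hc : ∀ k, Continuous (ψ k))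
    (hs : ∀ k, HasCompactSupport (ψ k)) (h0 : ∀ k y, 0 ≤ ψ k y)
    (h1 : ∀ k : ℕ, ∀ y ∈ Metric.ball x₀ k, ψ k y = 1) {F : M → ℝ} (hF : Continuous F)
    (hF0 : ∀ x, 0 ≤ F x) {C : ℝ} (hC : ∀ᶠ k in atTop, ∫ x, ψ k x * F x ∂μ ≤ C) :
    Integrable F μ := by
  refine (aecover_ball (μ := μ) (x := x₀) (r := fun k : ℕ => (k : ℝ))
    tendsto_natCast_atTop_atTop).integrable_of_integral_bounded_of_nonneg_ae C
    (fun k => (hF.continuousOn.integrableOn_compact (isCompact_closedBall x₀ k)).mono_set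
      Metric.ball_subset_closedBall) (Eventually.of_forall hF0) (hC.mono fun k hk => ?_)
  refine le_trans ?_ hk
  rw [setIntegral_congr_fun (g := fun x => ψ k x * F x) Metric.isOpen_ball.measurableSet
    fun x hx => by simp only [h1 k x hx, one_mul]]
  exact setIntegral_le_integral (((hc k).mul hF).integrable_of_hasCompactSupport (hs k).mul_right)
    (Eventually.of_forall fun x => mul_nonneg (h0 k x) (hF0 x))

theorem cut_amgm {δ a c u : ℝ} (hδ : 0 < δ) (h : a ^ 2 ≤ δ ^ 2 * c) :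
    |u * a| ≤ δ * ((u ^ 2 + c) / 2) := by
  refine abs_le.2 ⟨?_, ?_⟩ <;> refine le_of_mul_le_mul_left ?_ hδ
  · nlinarith [sq_nonneg (δ * u + a)]
  · nlinarith [sq_nonneg (δ * u - a)]

theorem cut_error {χ : ℕ → M → ℝ} (hs : ∀ k, g.Sm (χ k))
    (hΓ : ∀ k y, g.Γ (χ k) (χ k) y ≤ (1 / ((k : ℝ) + 1)) ^ 2) {u v : M → ℝ} (hv : g.Sm v)
    (u2 : MemLp u 2 μ) (Γv : Integrable (g.Γ v v) μ) :
    Tendsto (fun k => ∫ x, u x * g.Γ (χ k) v x ∂μ) atTop (𝓝 0) := by
  have hi : Integrable (fun x => (u x ^ 2 + g.Γ v v x) / 2) μ :=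
    (u2.integrable_sq.add Γv).div_const 2
  have ht := (tendsto_one_div_add_atTop_nhds_zero_nat (𝕜 := ℝ)).mul_const
    (∫ x, (u x ^ 2 + g.Γ v v x) / 2 ∂μ)
  rw [zero_mul] at ht
  refine squeeze_zero_norm (fun k => ?_) ht
  rw [← integral_const_mul]
  refine norm_integral_le_of_norm_le (hi.const_mul _) (Eventually.of_forall fun x => ?_)
  exact cut_amgm (by positivity) ((g.Γ_sq_le (hs k) hv x).trans
    (mul_le_mul_of_nonneg_right (hΓ k x) (g.Γ_nonneg hv x)))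

theorem cut_ibp {χ u v : M → ℝ} (hχ : g.Sm χ) (hc : HasCompactSupport χ) (hu : g.Sm u)
    (hv : g.Sm v) : ∫ x, χ x * (u x * g.Δ v x) ∂μ =
      -(∫ x, χ x * g.Γ u v x ∂μ) - ∫ x, u x * g.Γ χ v x ∂μ := by
  have key := g.ibp (g.sm_mul hχ hu) hc.mul_right hv
  simp only [g.Γ_mul hχ hu hv, mul_assoc] at key
  rw [key, integral_add (g.integrable_of_cs (g.sm_mul hχ (g.sm_Γ hu hv)) hc.mul_right)
    (g.integrable_of_cs (g.sm_mul hu (g.sm_Γ hχ hv)) (g.cs_Γ hc hv).mul_left)]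
  ring

theorem green {f k : M → ℝ} (hf : g.Sm f) (hk : g.Sm k) (k2 : MemLp k 2 μ)
    (Δ2 : MemLp (g.Δ f) 2 μ) (Γf : Integrable (g.Γ f f) μ) (Γk : Integrable (g.Γ k k) μ) :
    Integrable (g.Γ k f) μ ∧ ∫ x, k x * g.Δ f x ∂μ = -∫ x, g.Γ k f x ∂μ := by
  have hi : Integrable (g.Γ k f) μ := by
    refine ((Γk.add Γf).div_const 2).mono' (g.cont (g.sm_Γ hk hf)).aestronglyMeasurable
      (Eventually.of_forall fun x => ?_)
    have h1 := g.Γ_sq_le hk hf x
    have h2 := g.Γ_nonneg hk x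
    have h3 := g.Γ_nonneg hf x
    refine abs_le_of_sq_le_sq' ?_ (by simp only [Pi.add_apply]; positivity) |> abs_le.2
    simp only [Pi.add_apply]
    nlinarith [sq_nonneg (g.Γ k k x - g.Γ f f x)]
  refine ⟨hi, ?_⟩
  rcases isEmpty_or_nonempty M with hM | ⟨⟨x₀⟩⟩
  · simp [Measure.eq_zero_of_isEmpty μ]
  obtain ⟨χ, hχ⟩ := g.exists_cutoff x₀
  have hc := fun j => g.cont (hχ j).1
  have t1 := cut_tendsto hc (fun j => (hχ j).2.2.1) (fun j => (hχ j).2.2.2.1)
    (k2.integrable_mul Δ2)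
  have t2 := (cut_tendsto hc (fun j => (hχ j).2.2.1) (fun j => (hχ j).2.2.2.1) hi).neg.sub
    (g.cut_error (fun j => (hχ j).1) (fun j => (hχ j).2.2.2.2) hf k2 Γf)
  rw [sub_zero] at t2
  exact tendsto_nhds_unique t1 (t2.congr fun j => (g.cut_ibp (hχ j).1 (hχ j).2.1 hk hf).symm)

theorem energy {f : M → ℝ} (hf : g.Sm f) (f2 : MemLp f 2 μ) (Δ2 : MemLp (g.Δ f) 2 μ) :
    Integrable (g.Γ f f) μ ∧ ∫ x, g.Γ f f x ∂μ = -∫ x, f x * g.Δ f x ∂μ := by
  have hi : Integrable (g.Γ f f) μ := by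
    rcases isEmpty_or_nonempty M with hM | ⟨⟨x₀⟩⟩
    · simp [Measure.eq_zero_of_isEmpty μ]
    obtain ⟨χ, hχ⟩ := g.exists_cutoff x₀
    have hfΔ : Integrable (fun x => f x * g.Δ f x) μ := f2.integrable_mul Δ2
    refine cut_fatou (x₀ := x₀) (ψ := fun j x => χ j x * χ j x)
      (fun j => (g.cont (hχ j).1).mul (g.cont (hχ j).1)) (fun j => (hχ j).2.1.mul_right)
      (fun j y => mul_self_nonneg _) (fun j y hy => by rw [(hχ j).2.2.2.1 y hy, one_mul])
      (g.cont (g.sm_Γ hf hf)) (g.Γ_nonneg hf)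
      (C := 2 * (∫ x, ‖f x * g.Δ f x‖ ∂μ + 2 * ∫ x, f x ^ 2 ∂μ))
      (Eventually.of_forall fun j => ?_)
    obtain ⟨h1, h2, h3, -, h5⟩ := hχ j
    have hs := g.sm_mul h1 (g.sm_mul h1 hf)
    have hcs : HasCompactSupport fun x => χ j x * (χ j x * f x) := h2.mul_right
    have key := g.ibp hs hcs hf
    have i1 := g.integrable_of_cs (μ := μ) (g.sm_Γ hs hf) (g.cs_Γ hcs hf)
    have a1 : ∫ x, χ j x * χ j x * g.Γ f f x ∂μ ≤
        ∫ x, 2 * (g.Γ (fun x => χ j x * (χ j x * f x)) f x + 2 * f x ^ 2) ∂μ := by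
      refine integral_mono (g.integrable_of_cs (g.sm_mul (g.sm_mul h1 h1) (g.sm_Γ hf hf))
        h2.mul_right.mul_right) ((i1.add (f2.integrable_sq.const_mul 2)).const_mul 2) fun x => ?_
      have b1 : (1 / ((j : ℝ) + 1)) ^ 2 ≤ 1 := by
        refine pow_le_one₀ (by positivity) ?_
        rw [div_le_one (by positivity)]
        linarith [Nat.cast_nonneg (α := ℝ) j]
      have b2 := (g.Γ_sq_le h1 hf x).trans
        (mul_le_of_le_one_left (g.Γ_nonneg hf x) ((h5 x).trans b1))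
      have b3 := mul_le_mul_of_nonneg_left b2 (mul_self_nonneg (χ j x))
      simp only [g.Γ_mul h1 (g.sm_mul h1 hf) hf, g.Γ_mul h1 hf hf]
      nlinarith [sq_nonneg (χ j x * g.Γ (χ j) f x + 2 * f x)]
    have a2 : ‖∫ x, χ j x * (χ j x * f x) * g.Δ f x ∂μ‖ ≤ ∫ x, ‖f x * g.Δ f x‖ ∂μ := by
      refine norm_integral_le_of_norm_le hfΔ.norm (Eventually.of_forall fun x => ?_)
      rw [show χ j x * (χ j x * f x) * g.Δ f x = χ j x * χ j x * (f x * g.Δ f x) by ring,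
        norm_mul, Real.norm_of_nonneg (mul_self_nonneg _)]
      exact mul_le_of_le_one_left (norm_nonneg _) (mul_le_one₀ (h3 x).2 (h3 x).1 (h3 x).2)
    rw [key, norm_neg] at a2
    rw [integral_const_mul, integral_add i1 (f2.integrable_sq.const_mul 2),
      integral_const_mul] at a1
    have a3 := (le_abs_self _).trans a2
    linarith
  exact ⟨hi, by rw [(g.green hf hf f2 Δ2 hi hi).2, neg_neg]⟩

theorem green_weight {p w : M → ℝ} (hp : g.Sm p) (hw : g.Sm w) (p0 : ∀ x, 0 ≤ p x)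
    (p2 : MemLp p 2 μ) (w2 : MemLp w 2 μ) (Δ2 : MemLp (g.Δ p) 2 μ)
    (Γw : Integrable (g.Γ w w) μ)
    (hF : Integrable (fun x => p x * (g.Δ w x + g.Γ w w x)) μ) :
    Integrable (fun x => p x * g.Γ w w x) μ ∧
      ∫ x, p x * (g.Δ w x + g.Γ w w x) ∂μ =
        ∫ x, w x * g.Δ p x ∂μ + ∫ x, p x * g.Γ w w x ∂μ := by
  rcases isEmpty_or_nonempty M with hM | ⟨⟨x₀⟩⟩
  · simp [Measure.eq_zero_of_isEmpty μ]
  obtain ⟨χ, hχ⟩ := g.exists_cutoff x₀
  have hc := fun j => g.cont (hχ j).1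
  obtain ⟨i1, e1⟩ := g.green hp hw w2 Δ2 (g.energy hp p2 Δ2).1 Γw
  have es : g.Γ w p = g.Γ p w := funext (g.Γ_symm hw hp)
  rw [es] at i1 e1
  have t1 := (cut_tendsto hc (fun j => (hχ j).2.2.1) (fun j => (hχ j).2.2.2.1) i1).neg.sub
    (g.cut_error (fun j => (hχ j).1) (fun j => (hχ j).2.2.2.2) hw p2 Γw)
  rw [sub_zero, ← e1] at t1
  have t2 := (cut_tendsto hc (fun j => (hχ j).2.2.1) (fun j => (hχ j).2.2.2.1) hF).sub t1
  have t3 : Tendsto (fun j => ∫ x, χ j x * (p x * g.Γ w w x) ∂μ) atTop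
      (𝓝 (∫ x, p x * (g.Δ w x + g.Γ w w x) ∂μ - ∫ x, w x * g.Δ p x ∂μ)) := by
    refine t2.congr fun j => ?_
    rw [← g.cut_ibp (hχ j).1 (hχ j).2.1 hp hw, ← integral_sub
      (g.integrable_of_cs (g.sm_mul (hχ j).1 (g.sm_mul hp (g.sm_add (g.sm_Δ hw) (g.sm_Γ hw hw))))
        (hχ j).2.1.mul_right)
      (g.integrable_of_cs (g.sm_mul (hχ j).1 (g.sm_mul hp (g.sm_Δ hw))) (hχ j).2.1.mul_right)]
    refine integral_congr_ae (Eventually.of_forall fun x => ?_)
    ring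
  have hi : Integrable (fun x => p x * g.Γ w w x) μ :=
    cut_fatou hc (fun j => (hχ j).2.1) (fun j y => ((hχ j).2.2.1 y).1) (fun j => (hχ j).2.2.2.1)
      (g.cont (g.sm_mul hp (g.sm_Γ hw hw))) (fun x => mul_nonneg (p0 x) (g.Γ_nonneg hw x))
      (t3.eventually_le_const (lt_add_one _))
  refine ⟨hi, ?_⟩
  have := tendsto_nhds_unique t3
    (cut_tendsto hc (fun j => (hχ j).2.2.1) (fun j => (hχ j).2.2.2.1) hi)
  linarith

end Pool.Agent.MP_3fc7f4_gt.Geo
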