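import Mathlib

/-!
Complete Riemannian manifolds, Ricci curvature (through the Christoffel symbols in a chart),
the Riemannian volume measure, and pointed measured Gromov-Hausdorff convergence.
-/

open scoped Manifold ContDiff Bundle
open MeasureTheory Filter Topology

namespace Pool.Agent.MP_3fc7f4_gt

/-- Euclidean n-space. -/
abbrev Euc (n : ℕ) : Type := EuclideanSpace ℝ (Fin n)

section Coordinates

variable {n : ℕ}

/-- The i-th standard basis vector. -/
noncomputable def bas (i : Fin n) : Euc n := EuclideanSpace.single i 1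

/-- The i-th partial derivative. -/
noncomputable def pd (i : Fin n) (f : Euc n → ℝ) (y : Euc n) : ℝ := fderiv ℝ f y (bas i)

/-- The Christoffel symbol with upper index k and lower indices i, j of the metric with
coefficient matrix G. -/
noncomputable def christoffel (G : Euc n → Matrix (Fin n) (Fin n) ℝ) (k i j : Fin n)
    (y : Euc n) : ℝ :=
  (1 / 2) * ∑ l, (G y)⁻¹ k l *
    (pd i (fun z => G z j l) y + pd j (fun z => G z i l) y - pd l (fun z => G z i j) y)

/-- The component (i, j) of the Ricci tensor of the metric with coefficient matrix G. -/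
noncomputable def ricci (G : Euc n → Matrix (Fin n) (Fin n) ℝ) (i j : Fin n) (y : Euc n) : ℝ :=
  ∑ k, (pd k (christoffel G k i j) y - pd j (christoffel G k i k) y +
    ∑ l, (christoffel G k k l y * christoffel G l i j y -
      christoffel G k j l y * christoffel G l i k y))

end Coordinates

section General

variable (E : Type) [NormedAddCommGroup E] [NormedSpace ℝ E]
  (M : Type) [TopologicalSpace M] [ChartedSpace E M]

/-- The tangent space at x of a manifold modelled on E. -/
abbrev Tan (x : M) : Type := TangentSpace 𝓘(ℝ, E) x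

/-- A family of inner products on the tangent spaces. -/
abbrev Inn : Type := Bundle.RiemannianBundle (Tan E M)

/-- The inner products depend smoothly on the point. -/
abbrev SmoothInn [IsManifold 𝓘(ℝ, E) ∞ M] [Inn E M] : Prop :=
  IsContMDiffRiemannianBundle 𝓘(ℝ, E) ∞ E (Tan E M)

variable {E M}

/-- The image of the vector a under the differential at y of the map f. -/
noncomputable def push (f : E → M) (y a : E) : Tan E M (f y) :=
  mfderiv 𝓘(ℝ, E) 𝓘(ℝ, E) f y a

/-- The metric read in the chart at x. -/
noncomputable def chartInner [Inn E M] (x : M) (y a b : E) : ℝ :=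
  inner ℝ (push (chartAt E x).symm y a) (push (chartAt E x).symm y b)

end General

section Manifolds

variable {n : ℕ} {M : Type} [TopologicalSpace M] [ChartedSpace (Euc n) M] [Inn (Euc n) M]

/-- The coefficient matrix of the metric in the chart at x. -/
noncomputable def coef (x : M) (y : Euc n) : Matrix (Fin n) (Fin n) ℝ :=
  Matrix.of fun i j => chartInner x y (bas i) (bas j)

variable (n M)

/-- Ric ≥ K g at every point x, computed in the chart at x. -/
def RicciGe (K : ℝ) : Prop :=
  ∀ (x : M) (v : Fin n → ℝ),
    K * ∑ i, ∑ j, coef x (chartAt (Euc n) x x) i j * v i * v j ≤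
      ∑ i, ∑ j, ricci (coef x) i j (chartAt (Euc n) x x) * v i * v j

/-- μ is the Riemannian volume: in every chart it has density √(det g) with respect to Lebesgue
measure. -/
def IsVolume [MeasurableSpace M] (μ : Measure M) : Prop :=
  ∀ (x : M) (A : Set M), MeasurableSet A → A ⊆ (chartAt (Euc n) x).source →
    μ A = ∫⁻ y in chartAt (Euc n) x '' A, ENNReal.ofReal (Real.sqrt (coef x y).det)

end Manifolds

/-- A complete pointed smooth Riemannian n-manifold with its Riemannian distance and volume. -/
structure PointedRiem (n : ℕ) where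
  M : Type
  [metric : MetricSpace M]
  [charted : ChartedSpace (Euc n) M]
  [manifold : IsManifold (𝓡 n) ∞ M]
  [inn : Inn (Euc n) M]
  [smooth : SmoothInn (Euc n) M]
  [riemannian : IsRiemannianManifold (𝓡 n) M]
  [complete : CompleteSpace M]
  [meas : MeasurableSpace M]
  [borel : BorelSpace M]
  vol : Measure M
  isVolume : IsVolume n M vol
  pt : M

attribute [instance] PointedRiem.metric PointedRiem.charted PointedRiem.manifold PointedRiem.inn
  PointedRiem.smooth PointedRiem.riemannian PointedRiem.complete PointedRiem.meas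
  PointedRiem.borel

/-- The volume normalised so that the unit ball at the base point has mass one. -/
noncomputable def PointedRiem.normVol {n : ℕ} (N : PointedRiem n) : Measure N.M :=
  (N.vol (Metric.ball N.pt 1))⁻¹ • N.vol

/-- Pointed measured Gromov-Hausdorff convergence of (Y j, ν j, p j) to (X, μ, o). -/
def PMGH (Y : ℕ → Type) [∀ j, MetricSpace (Y j)] [∀ j, MeasurableSpace (Y j)]
    (ν : ∀ j, Measure (Y j)) (p : ∀ j, Y j)
    (X : Type) [MetricSpace X] [MeasurableSpace X] (μ : Measure X) (o : X) : Prop :=
  ∃ (R ε : ℕ → ℝ) (f : ∀ j, Y j → X),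
    Tendsto R atTop atTop ∧ Tendsto ε atTop (𝓝 0) ∧ (∀ j, Measurable (f j)) ∧
    (∀ j, dist (f j (p j)) o ≤ ε j) ∧
    (∀ j, ∀ x ∈ Metric.ball (p j) (R j), ∀ y ∈ Metric.ball (p j) (R j),
      |dist (f j x) (f j y) - dist x y| ≤ ε j) ∧
    (∀ j, ∀ z ∈ Metric.ball o (R j - ε j), ∃ x ∈ Metric.ball (p j) (R j), dist (f j x) z ≤ ε j) ∧
    ∀ φ : X → ℝ, Continuous φ → HasCompactSupport φ →
      Tendsto (fun j => ∫ x in Metric.ball (p j) (R j), φ (f j x) ∂ν j) atTop (𝓝 (∫ z, φ z ∂μ))

end Pool.Agent.MP_3fc7f4_gt
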