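import Mathlib

/-!
TASK Nem.  The function log (1 + r/η) acting on L², and the regularised entropy functional.

Hints.  For r, r' ≥ 0: lg η r = log (η + r) - log η, derivative 1/(η + r).
Nf_taylor: Φ η has derivative lg η on [0,∞), which is 1/η-Lipschitz, so pointwise
|Φ r' - Φ r - lg r (r' - r)| ≤ (r' - r)²/η; integrate (0 ≤ Φ r ≤ r²/η).  A direct route:
Φ r' - Φ r - lg r (r' - r) = (η + r') log ((η + r')/(η + r)) - (r' - r), and 1 - 1/x ≤ log x ≤ x - 1.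
nem_deriv: for r, r' ≥ 0 the remainder ρ = lg r' - lg r - (r' - r)/(η + r) satisfies
|ρ| ≤ (2/η) |r' - r| min 1 (|r' - r|/η).  With d s = k s - k τ = (s - τ) • k' + e s, ‖e s‖ = o(s - τ):
|ρ| ≤ (2/η) (|e| + |s - τ| |k'| min 1 (|d|/η)) and
‖ |k'| min 1 (|d|/η) ‖₂ ≤ ‖k' 1_{|k'| > L}‖₂ + L ‖d s‖/η, which is small (L large, then s near τ).
-/

open MeasureTheory Filter Topology Set
open scoped RealInnerProductSpace

namespace Pool.Agent.MP_3fc7f4_gt

noncomputable def lg (η r : ℝ) : ℝ := Real.log (1 + max r 0 / η)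

theorem lg_zero (η : ℝ) : lg η 0 = 0 := by simp [lg]

theorem lg_of_nonneg (η : ℝ) {r : ℝ} (hr : 0 ≤ r) : lg η r = Real.log (1 + r / η) := by
  rw [lg, max_eq_left hr]

theorem nem_log {a b : ℝ} (ha : 0 < a) (hb : 0 < b) :
    (b - a) / b ≤ Real.log b - Real.log a ∧ Real.log b - Real.log a ≤ (b - a) / a := by
  have h1 := Real.log_le_sub_one_of_pos (div_pos ha hb)
  have h2 := Real.log_le_sub_one_of_pos (div_pos hb ha)
  rw [Real.log_div ha.ne' hb.ne'] at h1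
  rw [Real.log_div hb.ne' ha.ne'] at h2
  have e1 : (b - a) / b = 1 - a / b := by field_simp
  have e2 : (b - a) / a = b / a - 1 := by field_simp
  constructor <;> linarith

theorem nem_lg {η : ℝ} (hη : 0 < η) (r : ℝ) :
    lg η r = Real.log (η + max r 0) - Real.log η := by
  have h : 0 < η + max r 0 := by positivity
  rw [lg, ← Real.log_div h.ne' hη.ne']
  congr 1
  field_simp

theorem nem_lg' {η : ℝ} (hη : 0 < η) {r : ℝ} (hr : 0 ≤ r) :
    lg η r = Real.log (η + r) - Real.log η := by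
  rw [nem_lg hη, max_eq_left hr]

theorem nem_abs_div {η a x : ℝ} (hη : 0 < η) (ha : η ≤ a) : |x / a| ≤ η⁻¹ * |x| := by
  have h0 : 0 < a := by linarith
  rw [abs_div, abs_of_pos h0, div_eq_inv_mul]
  exact mul_le_mul_of_nonneg_right (inv_anti₀ hη ha) (abs_nonneg x)

theorem lg_lip {η : ℝ} (hη : 0 < η) : LipschitzWith (Real.toNNReal η⁻¹) (lg η) := by
  refine LipschitzWith.of_dist_le_mul fun r r' => ?_
  have ha : η ≤ η + max r' 0 := by simp
  have hb : η ≤ η + max r 0 := by simp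
  obtain ⟨h1, h2⟩ := nem_log (lt_of_lt_of_le hη ha) (lt_of_lt_of_le hη hb)
  have h3 := abs_le.1 (nem_abs_div (x := η + max r 0 - (η + max r' 0)) hη ha)
  have h4 := abs_le.1 (nem_abs_div (x := η + max r 0 - (η + max r' 0)) hη hb)
  have h5 : |η + max r 0 - (η + max r' 0)| ≤ |r - r'| := by
    rw [add_sub_add_left_eq_sub]; exact abs_max_sub_max_le_abs r r' 0
  have h6 := mul_le_mul_of_nonneg_left h5 (inv_pos.2 hη).le
  rw [Real.dist_eq, Real.dist_eq, nem_lg hη, nem_lg hη, Real.coe_toNNReal _ (inv_pos.2 hη).le,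
    abs_le]
  constructor <;> linarith [h3.1, h3.2, h4.1, h4.2]

theorem log_one_add_le_sqrt {u : ℝ} (hu : 0 ≤ u) : Real.log (1 + u) ≤ 2 * Real.sqrt u := by
  have h0 := Real.sqrt_nonneg u
  have h1 := Real.sq_sqrt hu
  have h2 : Real.log (1 + u) ≤ Real.log ((1 + Real.sqrt u) ^ 2) :=
    Real.log_le_log (by linarith) (by nlinarith)
  have h3 := Real.log_le_sub_one_of_pos (by linarith : 0 < 1 + Real.sqrt u)
  rw [Real.log_pow] at h2
  push_cast at h2
  linarith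

/-- The regularised entropy density. -/
noncomputable def Φ (η r : ℝ) : ℝ := (max r 0 + η) * lg η r - max r 0

variable {M : Type} [MeasurableSpace M] {μ : Measure M}

open Classical in
/-- The map k ↦ log (1 + k₊/η) on L². -/
noncomputable def nem (η : ℝ) (k : Lp ℝ 2 μ) : Lp ℝ 2 μ :=
  if hη : 0 < η then (lg_lip hη).compLp (lg_zero η) k else 0

theorem nem_ae {η : ℝ} (hη : 0 < η) (k : Lp ℝ 2 μ) : nem η k =ᵐ[μ] fun y => lg η (k y) := by
  rw [nem, dif_pos hη]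
  exact (lg_lip hη).coeFn_compLp (lg_zero η) k

theorem nem_cont {η : ℝ} (hη : 0 < η) : Continuous (nem η : Lp ℝ 2 μ → Lp ℝ 2 μ) := by
  have : (nem η : Lp ℝ 2 μ → Lp ℝ 2 μ) = (lg_lip hη).compLp (lg_zero η) :=
    funext fun k => by rw [nem, dif_pos hη]
  rw [this]
  exact (lg_lip hη).continuous_compLp (lg_zero η)

/-- The regularised entropy functional. -/
noncomputable def Nf (η : ℝ) (k : Lp ℝ 2 μ) : ℝ := ∫ y, Φ η (k y) ∂μ

theorem nem_taylor {η r r' : ℝ} (hη : 0 < η) (hr : 0 ≤ r) (hr' : 0 ≤ r') :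
    |Φ η r' - Φ η r - lg η r * (r' - r)| ≤ (r' - r) ^ 2 / η := by
  have ha : 0 < η + r := by linarith
  have hb : 0 < η + r' := by linarith
  obtain ⟨h1, h2⟩ := nem_log ha hb
  have e : Φ η r' - Φ η r - lg η r * (r' - r) =
      (η + r') * (Real.log (η + r') - Real.log (η + r)) - (r' - r) := by
    rw [Φ, Φ, nem_lg' hη hr, nem_lg' hη hr', max_eq_left hr, max_eq_left hr']; ring
  have h3 := mul_le_mul_of_nonneg_left h1 hb.le
  have h4 := mul_le_mul_of_nonneg_left h2 hb.le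
  have e1 : (η + r') * ((η + r' - (η + r)) / (η + r')) = r' - r := by field_simp; ring
  have e2 : (η + r') * ((η + r' - (η + r)) / (η + r)) = (r' - r) ^ 2 / (η + r) + (r' - r) := by
    field_simp; ring
  have h5 : (r' - r) ^ 2 / (η + r) ≤ (r' - r) ^ 2 / η :=
    div_le_div_of_nonneg_left (sq_nonneg _) hη (by linarith)
  rw [e, abs_of_nonneg (by linarith)]
  linarith

theorem nem_Φ_le {η : ℝ} (hη : 0 < η) (r : ℝ) : |Φ η r| ≤ r ^ 2 / η := by
  have h := nem_taylor hη le_rfl (le_max_right r 0)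
  have e1 : Φ η (max r 0) = Φ η r := by simp [Φ, lg]
  have e2 : Φ η 0 = 0 := by simp [Φ, lg]
  rw [e1, e2, lg_zero] at h
  simp only [sub_zero, zero_mul] at h
  refine h.trans (div_le_div_of_nonneg_right ?_ hη.le)
  rcases le_total r 0 with hr | hr
  · rw [max_eq_right hr]; simpa using sq_nonneg r
  · rw [max_eq_left hr]

theorem nem_Φ_cont {η : ℝ} (hη : 0 < η) : Continuous (Φ η) := by
  have h := (lg_lip hη).continuous
  unfold Φ
  fun_prop

theorem nem_int_sq (f : Lp ℝ 2 μ) : Integrable (fun y => f y ^ 2) μ :=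
  (Lp.memLp f).integrable_sq

theorem nem_norm_sq (f : Lp ℝ 2 μ) : ‖f‖ ^ 2 = ∫ y, f y ^ 2 ∂μ := by
  rw [← real_inner_self_eq_norm_sq, L2.inner_def]
  simp only [real_inner_self_eq_norm_sq, Real.norm_eq_abs, sq_abs]

theorem integrable_Φ {η : ℝ} (hη : 0 < η) (k : Lp ℝ 2 μ) :
    Integrable (fun y => Φ η (k y)) μ :=
  ((nem_int_sq k).div_const η).mono'
    ((nem_Φ_cont hη).comp_aestronglyMeasurable (Lp.aestronglyMeasurable k))
    (Eventually.of_forall fun y => nem_Φ_le hη (k y))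

theorem Nf_taylor {η : ℝ} (hη : 0 < η) {k k' : Lp ℝ 2 μ} (hk : ∀ᵐ y ∂μ, 0 ≤ k y)
    (hk' : ∀ᵐ y ∂μ, 0 ≤ k' y) :
    |Nf η k' - Nf η k - ⟪k' - k, nem η k⟫| ≤ ‖k' - k‖ ^ 2 / η := by
  have i1 : Integrable (fun y => Φ η (k' y) - Φ η (k y)) μ :=
    (integrable_Φ hη k').sub (integrable_Φ hη k)
  have i2 := L2.integrable_inner (𝕜 := ℝ) (k' - k) (nem η k)
  rw [Nf, Nf, L2.inner_def, ← integral_sub (integrable_Φ hη k') (integrable_Φ hη k),
    ← integral_sub i1 i2, nem_norm_sq, ← integral_div, ← Real.norm_eq_abs]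
  refine norm_integral_le_of_norm_le ((nem_int_sq _).div_const η) ?_
  filter_upwards [hk, hk', Lp.coeFn_sub k' k, nem_ae hη k] with y h1 h2 h3 h4
  rw [h3, h4, Pi.sub_apply, Real.norm_eq_abs]
  simpa using nem_taylor hη h1 h2

/-- Chain rule for the entropy along a weakly differentiable Lipschitz curve. -/
theorem Nf_deriv {η : ℝ} (hη : 0 < η) {k : ℝ → Lp ℝ 2 μ} {τ C D : ℝ}
    (h0 : ∀ᶠ s in 𝓝 τ, ∀ᵐ y ∂μ, 0 ≤ k s y) (hl : ∀ᶠ s in 𝓝 τ, ‖k s - k τ‖ ≤ C * |s - τ|)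
    (hD : HasDerivAt (fun s => ⟪k s, nem η (k τ)⟫) D τ) :
    HasDerivAt (fun s => Nf η (k s)) D τ := by
  have h1 : HasDerivAt (fun s => Nf η (k s) - Nf η (k τ) - ⟪k s - k τ, nem η (k τ)⟫) 0 τ := by
    rw [hasDerivAt_iff_isLittleO]
    simp only [sub_self, inner_zero_left, sub_zero, smul_zero]
    have h2 : (fun s : ℝ => (s - τ) ^ 2) =o[𝓝 τ] fun s => s - τ := by
      have h3 : Tendsto (fun s : ℝ => s - τ) (𝓝 τ) (𝓝 0) := by
        simpa using (tendsto_id (x := 𝓝 τ)).sub_const τ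
      exact (Asymptotics.isLittleO_pow_id (𝕜 := ℝ) (by norm_num : 1 < 2)).comp_tendsto h3
    refine Asymptotics.IsBigO.trans_isLittleO (Asymptotics.IsBigO.of_bound (C ^ 2 / η) ?_) h2
    filter_upwards [h0, hl] with s hs1 hs2
    rw [Real.norm_eq_abs, Real.norm_eq_abs, abs_of_nonneg (sq_nonneg (s - τ))]
    refine (Nf_taylor hη h0.self_of_nhds hs1).trans ?_
    have h4 := pow_le_pow_left₀ (norm_nonneg _) hs2 2
    rw [mul_pow, sq_abs] at h4
    rw [div_mul_eq_mul_div]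
    exact div_le_div_of_nonneg_right h4 hη.le
  have h5 := (h1.add hD).add_const (Nf η (k τ) - ⟪k τ, nem η (k τ)⟫)
  rw [zero_add] at h5
  refine h5.congr_of_eventuallyEq (Eventually.of_forall fun s => ?_)
  simp only [Pi.add_apply, inner_sub_left]
  ring

theorem nem_pt {η r r' h v L : ℝ} (hη : 0 < η) (hr : 0 ≤ r) (hr' : 0 ≤ r') (hL : 0 ≤ L) :
    (lg η r' - lg η r - h * (v / (η + r))) ^ 2 ≤
      16 * η⁻¹ ^ 2 * h ^ 2 * ((v ^ 2 - min (v ^ 2) L) + L * η⁻¹ ^ 2 * (r' - r) ^ 2) +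
        18 * η⁻¹ ^ 2 * (r' - r - h * v) ^ 2 := by
  have ha : η ≤ η + r := by linarith
  have hb : η ≤ η + r' := by linarith
  have ha0 : 0 < η + r := by linarith
  have hb0 : 0 < η + r' := by linarith
  obtain ⟨h1, h2⟩ := nem_log ha0 hb0
  rw [add_sub_add_left_eq_sub] at h1 h2
  set δ := r' - r with hδ
  set ρ := Real.log (η + r') - Real.log (η + r) - δ / (η + r) with hρ
  set e := δ - h * v with he
  set ι := η⁻¹ with hι
  have hι0 : 0 < ι := inv_pos.2 hη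
  have e0 : lg η r' - lg η r - h * (v / (η + r)) = ρ + e / (η + r) := by
    rw [nem_lg' hη hr, nem_lg' hη hr', hρ, he]; ring
  have b1 : |ρ| ≤ 2 * (ι * |δ|) := by
    have h3 := abs_le.1 (nem_abs_div (x := δ) hη ha)
    have h4 := abs_le.1 (nem_abs_div (x := δ) hη hb)
    have h5 : 0 ≤ ι * |δ| := by positivity
    rw [abs_le]; constructor <;> linarith [h3.1, h3.2, h4.1, h4.2]
  have b2 : |ρ| ≤ ι ^ 2 * δ ^ 2 := by
    have e1 : δ / (η + r) - δ / (η + r') = δ ^ 2 / (η + r) / (η + r') := by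
      rw [hδ]; field_simp; ring
    have h3 := nem_abs_div (x := δ ^ 2 / (η + r)) hη hb
    have h4 := mul_le_mul_of_nonneg_left (nem_abs_div (x := δ ^ 2) hη ha) hι0.le
    rw [abs_of_nonneg (sq_nonneg δ)] at h4
    have h5 := le_abs_self (δ ^ 2 / (η + r) / (η + r'))
    rw [abs_of_nonpos (by linarith)]
    linarith
  have b3 : (e / (η + r)) ^ 2 ≤ ι ^ 2 * e ^ 2 := by
    have := pow_le_pow_left₀ (abs_nonneg _) (nem_abs_div (x := e) hη ha) 2
    rwa [mul_pow, sq_abs, sq_abs] at this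
  set m := min 1 (ι ^ 2 * δ ^ 2) with hm
  have m0 : 0 ≤ m := le_min zero_le_one (by positivity)
  have m1 : m ≤ 1 := min_le_left _ _
  have m2 : m ≤ ι ^ 2 * δ ^ 2 := min_le_right _ _
  have b4 : ρ ^ 2 ≤ 4 * ι ^ 2 * (δ ^ 2 * m) := by
    rcases le_total 1 (ι ^ 2 * δ ^ 2) with hc | hc
    · have := pow_le_pow_left₀ (abs_nonneg _) b1 2
      rw [mul_pow, mul_pow, sq_abs, sq_abs] at this
      rw [hm, min_eq_left hc]; linarith
    · have := pow_le_pow_left₀ (abs_nonneg _) b2 2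
      rw [sq_abs] at this
      rw [hm, min_eq_right hc]
      have h6 : 0 ≤ (ι ^ 2 * δ ^ 2) ^ 2 := sq_nonneg _
      linarith
  have b5 : v ^ 2 * m ≤ (v ^ 2 - min (v ^ 2) L) + L * ι ^ 2 * δ ^ 2 := by
    have c1 : min (v ^ 2) L ≤ v ^ 2 := min_le_left _ _
    have c2 : min (v ^ 2) L ≤ L := min_le_right _ _
    have c3 := mul_le_mul_of_nonneg_left m1 (sub_nonneg.2 c1)
    have c4 := mul_le_mul c2 m2 m0 hL
    linarith
  have b6 : δ ^ 2 * m ≤ 2 * h ^ 2 * (v ^ 2 * m) + 2 * e ^ 2 := by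
    have c1 : δ ^ 2 ≤ 2 * h ^ 2 * v ^ 2 + 2 * e ^ 2 := by
      rw [he]; nlinarith [sq_nonneg (δ - 2 * h * v)]
    have c2 := mul_le_mul_of_nonneg_right c1 m0
    have c3 := mul_le_mul_of_nonneg_left m1 (sq_nonneg e)
    linarith
  have b7 := mul_le_mul_of_nonneg_left b5 (by positivity : 0 ≤ 2 * h ^ 2)
  have b8 := mul_le_mul_of_nonneg_left (b6.trans (add_le_add_left b7 _))
    (by positivity : 0 ≤ 4 * ι ^ 2)
  rw [e0]
  nlinarith [sq_nonneg (ρ - e / (η + r))]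

theorem nem_trunc_int (v : Lp ℝ 2 μ) {L : ℝ} (hL : 0 ≤ L) :
    Integrable (fun y => v y ^ 2 - min (v y ^ 2) L) μ := by
  refine (nem_int_sq v).mono' ?_ (Eventually.of_forall fun y => ?_)
  · exact (by fun_prop : Continuous fun t : ℝ => t ^ 2 - min (t ^ 2) L).comp_aestronglyMeasurable
      (Lp.aestronglyMeasurable v)
  · rw [Real.norm_eq_abs, abs_of_nonneg (sub_nonneg.2 (min_le_left _ _))]
    have : 0 ≤ min (v y ^ 2) L := le_min (sq_nonneg _) hL
    linarith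

theorem nem_trunc (v : Lp ℝ 2 μ) {ε : ℝ} (hε : 0 < ε) :
    ∃ L : ℝ, 0 ≤ L ∧ ∫ y, (v y ^ 2 - min (v y ^ 2) L) ∂μ ≤ ε := by
  have h : Tendsto (fun N : ℕ => ∫ y, (v y ^ 2 - min (v y ^ 2) N) ∂μ) atTop
      (𝓝 (∫ _y, (0 : ℝ) ∂μ)) := by
    refine tendsto_integral_of_dominated_convergence (fun y => v y ^ 2)
      (fun N => (nem_trunc_int v (Nat.cast_nonneg N)).1) (nem_int_sq v)
      (fun N => Eventually.of_forall fun y => ?_) (Eventually.of_forall fun y => ?_)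
    · rw [Real.norm_eq_abs, abs_of_nonneg (sub_nonneg.2 (min_le_left _ _))]
      have : 0 ≤ min (v y ^ 2) (N : ℝ) := le_min (sq_nonneg _) (Nat.cast_nonneg N)
      linarith
    · refine tendsto_const_nhds.congr' ?_
      filter_upwards [tendsto_natCast_atTop_atTop.eventually_ge_atTop (v y ^ 2)] with N hN
      rw [min_eq_left hN, sub_self]
  rw [integral_zero] at h
  obtain ⟨N, hN⟩ := (h.eventually_le_const hε).exists
  exact ⟨N, Nat.cast_nonneg N, hN⟩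

theorem nem_deriv {η : ℝ} (hη : 0 < η) {k : ℝ → Lp ℝ 2 μ} {k' : Lp ℝ 2 μ} {τ : ℝ}
    (h0 : ∀ᶠ s in 𝓝 τ, ∀ᵐ y ∂μ, 0 ≤ k s y) (hk : HasDerivAt k k' τ) :
    ∃ w : Lp ℝ 2 μ, (w =ᵐ[μ] fun y => k' y / (η + k τ y)) ∧
      HasDerivAt (fun s => nem η (k s)) w τ := by
  have hτ := h0.self_of_nhds
  have hw : MemLp (fun y => k' y / (η + k τ y)) 2 μ := by
    refine MemLp.of_le_mul (c := η⁻¹) (Lp.memLp k') ?_ ?_
    · exact ((Lp.aestronglyMeasurable k').aemeasurable.div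
        ((Lp.aestronglyMeasurable (k τ)).aemeasurable.const_add η)).aestronglyMeasurable
    · filter_upwards [hτ] with y hy
      exact nem_abs_div hη (by linarith)
  refine ⟨hw.toLp _, hw.coeFn_toLp, ?_⟩
  rw [hasDerivAt_iff_isLittleO, Asymptotics.isLittleO_iff]
  intro c hc
  obtain ⟨L, hL, hL'⟩ := nem_trunc k' (by positivity : 0 < c ^ 2 * η ^ 2 / 64)
  have t1 : Tendsto (fun s => L * η⁻¹ ^ 2 * ‖k s - k τ‖ ^ 2) (𝓝 τ) (𝓝 0) := by
    have := (((hk.continuousAt.tendsto.sub_const (k τ)).norm).pow 2).const_mul (L * η⁻¹ ^ 2)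
    simpa using this
  have t2 := Asymptotics.isLittleO_iff.1 (hasDerivAt_iff_isLittleO.1 hk)
    (by positivity : 0 < c * η / 6)
  filter_upwards [h0, t1.eventually_le_const (by positivity : 0 < c ^ 2 * η ^ 2 / 64), t2]
    with s hs h1 h2
  have i1 := nem_trunc_int k' hL
  have i2 := (nem_int_sq (k s - k τ)).const_mul (L * η⁻¹ ^ 2)
  have i3 := (nem_int_sq (k s - k τ - (s - τ) • k')).const_mul (18 * η⁻¹ ^ 2)
  have i4 : Integrable (fun y => 16 * η⁻¹ ^ 2 * (s - τ) ^ 2 *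
      ((k' y ^ 2 - min (k' y ^ 2) L) + L * η⁻¹ ^ 2 * (k s - k τ) y ^ 2)) μ :=
    (i1.add i2).const_mul _
  have key : ‖nem η (k s) - nem η (k τ) - (s - τ) • hw.toLp _‖ ^ 2 ≤
      16 * η⁻¹ ^ 2 * (s - τ) ^ 2 * (∫ y, (k' y ^ 2 - min (k' y ^ 2) L) ∂μ +
        L * η⁻¹ ^ 2 * ‖k s - k τ‖ ^ 2) + 18 * η⁻¹ ^ 2 * ‖k s - k τ - (s - τ) • k'‖ ^ 2 := by
    rw [nem_norm_sq, nem_norm_sq, nem_norm_sq, ← integral_const_mul, ← integral_const_mul,
      ← integral_add i1 i2, ← integral_const_mul, ← integral_add i4 i3]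
    refine integral_mono_ae (nem_int_sq _) (i4.add i3) ?_
    filter_upwards [hs, hτ, Lp.coeFn_sub (nem η (k s) - nem η (k τ)) ((s - τ) • hw.toLp _),
      Lp.coeFn_sub (nem η (k s)) (nem η (k τ)), Lp.coeFn_smul (s - τ) (hw.toLp _), hw.coeFn_toLp,
      nem_ae hη (k s), nem_ae hη (k τ), Lp.coeFn_sub (k s - k τ) ((s - τ) • k'),
      Lp.coeFn_sub (k s) (k τ), Lp.coeFn_smul (s - τ) k'] with y a1 a2 a3 a4 a5 a6 a7 a8 a9 a10 a11
    rw [a3, a9, Pi.sub_apply, Pi.sub_apply, a4, a5, a10, a11, Pi.sub_apply, Pi.sub_apply,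
      Pi.smul_apply, Pi.smul_apply, a6, a7, a8, smul_eq_mul, smul_eq_mul]
    exact nem_pt hη a2 a1 hL
  have h3 := pow_le_pow_left₀ (norm_nonneg _) h2 2
  rw [mul_pow, Real.norm_eq_abs, sq_abs] at h3
  have h4 := mul_le_mul_of_nonneg_left (add_le_add hL' h1)
    (by positivity : 0 ≤ 16 * η⁻¹ ^ 2 * (s - τ) ^ 2)
  have h5 := mul_le_mul_of_nonneg_left h3 (by positivity : 0 ≤ 18 * η⁻¹ ^ 2)
  have e : 16 * η⁻¹ ^ 2 * (s - τ) ^ 2 * (c ^ 2 * η ^ 2 / 64 + c ^ 2 * η ^ 2 / 64) +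
      18 * η⁻¹ ^ 2 * ((c * η / 6) ^ 2 * (s - τ) ^ 2) = (c * ‖s - τ‖) ^ 2 := by
    rw [mul_pow c, Real.norm_eq_abs, sq_abs]; field_simp; ring
  exact (abs_le_of_sq_le_sq' (by linarith) (by positivity)).2

end Pool.Agent.MP_3fc7f4_gt
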