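import Pool.Agent.MP_3fc7f4_gt.Moment
import Pool.Agent.MP_3fc7f4_gt.Nem
import Pool.Agent.MP_3fc7f4_gt.Cut

/-!
TASK Ent.  The regularised Nash entropy of the heat kernel and the key gradient estimate.

Hints.  Write p = h.p t x ≥ 0 (smooth, p_ae, energy gives Γ p p integrable), a = h.a η t x.
By Γ_comp and Δ_comp with φ r = log (1 + r/η) (smooth near r ≥ 0, φ' = 1/(η + r),
φ'' = -1/(η + r)²): Γ a k = Γ p k/(η + p), Δa + Γ a a = Δp/(η + p).
N_time: Nf_deriv with k s = κ 0 s x (κ_deriv; a differentiable curve is locally O(|s - t|)).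
N_curve: Nf_deriv with k s = κ 0 t (c s) and κ_lip on a compact ball.
I_cont: κ_cont and nem_cont.  N_cont: Nf_taylor, or N_time/κ_cont.
BL_ent: apply h.BL to φ = a + β h₀ (toLp = nem κ + β • b).  Let L = U 1 t b x = ∫ h₀ Δp = -∫ Γ p h₀ and
J = I - β L, so U 1 t (nem κ + β • b) x = -J.  ∫ p Γ a a ≤ ∫ Γ a p = -∫ a Δp = I (green),
∫ p Γ a h₀ = ∫ Γ p h₀ - η ∫ Γ a h₀ = -L + η ∫ a Δh₀ (ibp_symm) and
|η ∫ a Δh₀| ≤ K ∫ over tsupport h₀ of 2 √(η p) ≤ 2 K √(η m) (2 √(η p) ≤ θ p + η/θ, ∫ p = 1),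
∫ p Γ h₀ h₀ ≤ ℓ².  So ∫ p Γ φ φ ≤ I - 2 β L + err + β² ℓ² = 2 J - I + err + β² ℓ², it is ≥ 0, and
2 E J - (2t/n) J² ≤ E² n/(2t).  Integrability of p φ²: a² ≤ 4 p/η (log_one_add_le_sqrt).
-/

open MeasureTheory Filter Topology Set
open scoped RealInnerProductSpace ContDiff

namespace Pool.Agent.MP_3fc7f4_gt.Heat

variable {M : Type} [MetricSpace M] [ProperSpace M] [MeasurableSpace M] [BorelSpace M]
  {μ : Measure M} [IsFiniteMeasureOnCompacts μ] [μ.IsOpenPosMeasure] {n : ℕ} {lam : ℝ}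
  {g : Geo M μ n lam} (h : Heat g)

/-- The regularised logarithm of the heat kernel. -/
noncomputable def a (η t : ℝ) (x y : M) : ℝ := Real.log (1 + h.p t x y / η)

noncomputable def W (η t : ℝ) (x : M) : ℝ := ∫ y, h.p t x y * h.a η t x y ∂μ

noncomputable def ρ (η t : ℝ) (x : M) : ℝ := ∫ y, η * h.a η t x y ∂μ

noncomputable def N (η t : ℝ) (x : M) : ℝ := Nf η (h.κ 0 t x)

noncomputable def I (η t : ℝ) (x : M) : ℝ := -h.U 1 t (nem η (h.κ 0 t x)) x

variable {η t : ℝ}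

theorem ent_contDiffAt (hη : 0 < η) {r : ℝ} (hr : 0 ≤ r) :
    ContDiffAt ℝ ∞ (fun u : ℝ => Real.log (1 + u / η)) r := by
  refine ContDiffAt.log (by fun_prop) ?_
  positivity

theorem ent_hasDerivAt (hη : 0 < η) {r : ℝ} (hr : 0 < η + r) :
    HasDerivAt (fun u : ℝ => Real.log (1 + u / η)) (1 / (η + r)) r := by
  have h1 : HasDerivAt (fun u : ℝ => 1 + u / η) (1 / η) r :=
    ((hasDerivAt_id r).div_const η).const_add 1
  have h2 : 1 + r / η = (η + r) / η := by field_simp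
  have h3 : 1 + r / η ≠ 0 := by rw [h2]; positivity
  convert h1.log h3 using 1
  rw [h2]
  field_simp

theorem ent_deriv (hη : 0 < η) {r : ℝ} (hr : 0 ≤ r) :
    deriv (fun u : ℝ => Real.log (1 + u / η)) r = 1 / (η + r) :=
  (ent_hasDerivAt hη (by positivity)).deriv

theorem ent_deriv2 (hη : 0 < η) {r : ℝ} (hr : 0 ≤ r) :
    deriv (deriv fun u : ℝ => Real.log (1 + u / η)) r = -(1 / (η + r)) ^ 2 := by
  have h0 : 0 < η + r := by positivity
  have h1 : (deriv fun u : ℝ => Real.log (1 + u / η)) =ᶠ[𝓝 r] fun u => (η + u)⁻¹ := by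
    have h2 : ∀ᶠ u in 𝓝 r, 0 < η + u :=
      (continuous_const.add continuous_id).continuousAt.eventually (lt_mem_nhds h0)
    filter_upwards [h2] with u hu
    rw [(ent_hasDerivAt hη hu).deriv, one_div]
  rw [h1.deriv_eq, (((hasDerivAt_id' r).const_add η).fun_inv h0.ne').deriv]
  field_simp

theorem ent_opt {X K c : ℝ} (hK : 0 ≤ K) (hc : 0 ≤ c)
    (H : ∀ θ : ℝ, 0 < θ → X ≤ K * (θ + c / θ)) : X ≤ 2 * K * Real.sqrt c := by
  rcases hc.eq_or_lt with rfl | hc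
  · rw [Real.sqrt_zero, mul_zero]
    refine le_of_forall_pos_le_add fun ε hε => ?_
    have h1 := H (ε / (K + 1)) (by positivity)
    rw [zero_div, add_zero] at h1
    have h2 : K * (ε / (K + 1)) ≤ ε := by
      rw [mul_div_assoc', div_le_iff₀ (by positivity)]
      nlinarith
    linarith
  · have h1 := H (Real.sqrt c) (Real.sqrt_pos.2 hc)
    rw [Real.div_sqrt] at h1
    linarith

theorem sm_a (hη : 0 < η) (ht : 0 < t) (x : M) : g.Sm (h.a η t x) :=
  g.sm_comp (φ := fun u => Real.log (1 + u / η)) (h.sm_p ht x)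
    fun y => ent_contDiffAt hη (h.p_nonneg ht x y)

theorem nem_κ_ae (hη : 0 < η) (ht : 0 < t) (x : M) :
    nem η (h.κ 0 t x) =ᵐ[μ] h.a η t x := by
  filter_upwards [nem_ae hη (h.κ 0 t x), h.p_ae ht x] with y h1 h2
  rw [h1, ← h2, lg_of_nonneg η (h.p_nonneg ht x y), a]

theorem memLp_a (hη : 0 < η) (ht : 0 < t) (x : M) : MemLp (h.a η t x) 2 μ :=
  (memLp_congr_ae (h.nem_κ_ae hη ht x)).1 (Lp.memLp _)

theorem a_nonneg (hη : 0 < η) (ht : 0 < t) (x y : M) : 0 ≤ h.a η t x y := by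
  have := h.p_nonneg ht x y
  exact Real.log_nonneg (le_add_of_nonneg_right (by positivity))

theorem a_le (hη : 0 < η) (ht : 0 < t) (x y : M) : η * h.a η t x y ≤ h.p t x y := by
  have h0 := h.p_nonneg ht x y
  have h1 : h.a η t x y ≤ 1 + h.p t x y / η - 1 := Real.log_le_sub_one_of_pos (by positivity)
  rw [add_sub_cancel_left, le_div_iff₀ hη] at h1
  linarith

theorem a_sq_le (hη : 0 < η) (ht : 0 < t) (x y : M) : h.a η t x y ^ 2 ≤ 4 * h.p t x y / η := by
  have h0 : 0 ≤ h.p t x y / η := div_nonneg (h.p_nonneg ht x y) hη.le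
  have h1 : h.a η t x y ≤ 2 * Real.sqrt (h.p t x y / η) := log_one_add_le_sqrt h0
  have h2 := pow_le_pow_left₀ (h.a_nonneg hη ht x y) h1 2
  rw [mul_pow, Real.sq_sqrt h0] at h2
  rw [mul_div_assoc]
  linarith

theorem integrable_a (hη : 0 < η) (ht : 0 < t) (x : M) : Integrable (h.a η t x) μ := by
  refine ((h.integrable_p ht x).div_const η).mono'
    (g.cont (h.sm_a hη ht x)).aestronglyMeasurable (Eventually.of_forall fun y => ?_)
  rw [Real.norm_of_nonneg (h.a_nonneg hη ht x y), le_div_iff₀ hη, mul_comm]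
  exact h.a_le hη ht x y

theorem Γ_a (hη : 0 < η) (ht : 0 < t) (x : M) {k : M → ℝ} (hk : g.Sm k) (y : M) :
    g.Γ (h.a η t x) k y = g.Γ (h.p t x) k y / (η + h.p t x y) := by
  have := g.Γ_comp (φ := fun u => Real.log (1 + u / η)) (h.sm_p ht x) hk
    (fun y => ent_contDiffAt hη (h.p_nonneg ht x y)) y
  rw [ent_deriv hη (h.p_nonneg ht x y)] at this
  rw [div_eq_mul_one_div, mul_comm]
  exact this

theorem ent_Γ_aa (hη : 0 < η) (ht : 0 < t) (x y : M) :
    g.Γ (h.a η t x) (h.a η t x) y =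
      (1 / (η + h.p t x y)) ^ 2 * g.Γ (h.p t x) (h.p t x) y := by
  have := g.Γ_comp_self (φ := fun u => Real.log (1 + u / η)) (h.sm_p ht x)
    (fun y => ent_contDiffAt hη (h.p_nonneg ht x y)) y
  rw [ent_deriv hη (h.p_nonneg ht x y)] at this
  exact this

theorem Δ_a (hη : 0 < η) (ht : 0 < t) (x y : M) :
    g.Δ (h.a η t x) y + g.Γ (h.a η t x) (h.a η t x) y = g.Δ (h.p t x) y / (η + h.p t x y) := by
  have h1 := g.Δ_comp (φ := fun u => Real.log (1 + u / η)) (h.sm_p ht x)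
    (fun y => ent_contDiffAt hη (h.p_nonneg ht x y)) y
  rw [ent_deriv hη (h.p_nonneg ht x y), ent_deriv2 hη (h.p_nonneg ht x y)] at h1
  have h2 : g.Δ (h.a η t x) y = 1 / (η + h.p t x y) * g.Δ (h.p t x) y +
      -(1 / (η + h.p t x y)) ^ 2 * g.Γ (h.p t x) (h.p t x) y := h1
  rw [h2, h.ent_Γ_aa hη ht]
  ring

theorem ent_integrable_Γ_p (ht : 0 < t) (x : M) : Integrable (g.Γ (h.p t x) (h.p t x)) μ :=
  (g.energy (h.sm_p ht x) (h.memLp_p ht x) (h.memLp_Δ_p ht x)).1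

theorem integrable_Γ_a (hη : 0 < η) (ht : 0 < t) (x : M) :
    Integrable (g.Γ (h.a η t x) (h.a η t x)) μ := by
  have hs := h.sm_a hη ht x
  refine ((h.ent_integrable_Γ_p ht x).const_mul ((1 / η) ^ 2)).mono'
    (g.cont (g.sm_Γ hs hs)).aestronglyMeasurable (Eventually.of_forall fun y => ?_)
  rw [Real.norm_of_nonneg (g.Γ_nonneg hs y), h.ent_Γ_aa hη ht]
  have h0 := h.p_nonneg ht x y
  have h1 := g.Γ_nonneg (h.sm_p ht x) y
  gcongr
  linarith

theorem W_eq (hη : 0 < η) (ht : 0 < t) (x : M) :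
    h.W η t x = h.U 0 t (nem η (h.κ 0 t x)) x :=
  (h.U_eq_integral ht (h.nem_κ_ae hη ht x) x).symm

theorem N_eq (hη : 0 < η) (ht : 0 < t) (x : M) : h.N η t x = h.W η t x + h.ρ η t x - 1 := by
  have i1 : Integrable (fun y => h.p t x y * h.a η t x y) μ :=
    (h.memLp_p ht x).integrable_mul (h.memLp_a hη ht x)
  have i2 : Integrable (fun y => η * h.a η t x y) μ := (h.integrable_a hη ht x).const_mul η
  have e : h.N η t x = ∫ y, (h.p t x y * h.a η t x y + η * h.a η t x y - h.p t x y) ∂μ := by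
    refine integral_congr_ae ?_
    filter_upwards [h.p_ae ht x] with y h2
    rw [← h2, Φ, lg_of_nonneg η (h.p_nonneg ht x y), max_eq_left (h.p_nonneg ht x y), a]
    ring
  rw [e, integral_sub (i1.fun_add i2) (h.integrable_p ht x), integral_add i1 i2, h.integral_p ht x,
    W, ρ]

theorem N_time (hη : 0 < η) (ht : 0 < t) (x : M) :
    HasDerivAt (fun s => h.N η s x) (-h.I η t x) t := by
  obtain ⟨C, hC⟩ := (h.κ_deriv 0 ht x).isBigO_sub.bound
  rw [I, neg_neg]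
  refine Nf_deriv (k := fun s => h.κ 0 s x) (C := C) hη ?_ hC (h.U_deriv 0 ht _ x)
  filter_upwards [lt_mem_nhds ht] with s hs
  exact h.κ_nonneg hs x

theorem N_curve (hη : 0 < η) (ht : 0 < t) {c : ℝ → M} {A τ D : ℝ}
    (hc : ∀ r s, dist (c r) (c s) ≤ A * |r - s|)
    (hD : HasDerivAt (fun s => h.U 0 t (nem η (h.κ 0 t (c τ))) (c s)) D τ) :
    HasDerivAt (fun s => h.N η t (c s)) D τ := by
  obtain ⟨C, hC⟩ := h.κ_lip 0 ht (isCompact_closedBall (c τ) |A|)
  refine Nf_deriv (k := fun s => h.κ 0 t (c s)) (C := |C| * A) hη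
    (Eventually.of_forall fun s => h.κ_nonneg ht _) ?_ hD
  filter_upwards [Metric.closedBall_mem_nhds τ one_pos] with s hs
  have h1 : |s - τ| ≤ 1 := by simpa [Real.dist_eq] using hs
  have h2 : c s ∈ Metric.closedBall (c τ) |A| := by
    refine (hc s τ).trans ?_
    calc A * |s - τ| ≤ |A| * |s - τ| := mul_le_mul_of_nonneg_right (le_abs_self A) (abs_nonneg _)
      _ ≤ |A| * 1 := mul_le_mul_of_nonneg_left h1 (abs_nonneg A)
      _ = |A| := mul_one _
  refine (hC _ h2 _ (Metric.mem_closedBall_self (abs_nonneg A))).trans ?_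
  calc C * dist (c s) (c τ) ≤ |C| * dist (c s) (c τ) :=
        mul_le_mul_of_nonneg_right (le_abs_self C) dist_nonneg
    _ ≤ |C| * (A * |s - τ|) := mul_le_mul_of_nonneg_left (hc s τ) (abs_nonneg C)
    _ = |C| * A * |s - τ| := by ring

theorem I_cont (hη : 0 < η) :
    ContinuousOn (fun q : ℝ × M => h.I η q.1 q.2) (Ioi 0 ×ˢ univ) :=
  ((h.κ_cont 1).inner (𝕜 := ℝ) ((nem_cont hη).comp_continuousOn (h.κ_cont 0))).neg

theorem N_cont (hη : 0 < η) :
    ContinuousOn (fun q : ℝ × M => h.N η q.1 q.2) (Ioi 0 ×ˢ univ) := by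
  intro q hq
  have hk : Tendsto (fun r : ℝ × M => h.κ 0 r.1 r.2 - h.κ 0 q.1 q.2) (𝓝[Ioi 0 ×ˢ univ] q) (𝓝 0) :=
    tendsto_sub_nhds_zero_iff.2 (h.κ_cont 0 q hq)
  have h1 : Tendsto (fun r : ℝ × M =>
      |⟪h.κ 0 r.1 r.2 - h.κ 0 q.1 q.2, nem η (h.κ 0 q.1 q.2)⟫| +
        ‖h.κ 0 r.1 r.2 - h.κ 0 q.1 q.2‖ ^ 2 / η) (𝓝[Ioi 0 ×ˢ univ] q) (𝓝 0) := by
    have h2 := (hk.inner (𝕜 := ℝ) (tendsto_const_nhds (x := nem η (h.κ 0 q.1 q.2)))).abs
    have h3 := (hk.norm.pow 2).div_const η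
    simpa using h2.add h3
  refine tendsto_iff_norm_sub_tendsto_zero.2 (squeeze_zero' (Eventually.of_forall fun _ =>
    norm_nonneg _) ?_ h1)
  filter_upwards [self_mem_nhdsWithin] with r hr
  have h4 := Nf_taylor hη (h.κ_nonneg hq.1 q.2) (h.κ_nonneg hr.1 r.2)
  have h5 := abs_sub_abs_le_abs_sub (Nf η (h.κ 0 r.1 r.2) - Nf η (h.κ 0 q.1 q.2))
    ⟪h.κ 0 r.1 r.2 - h.κ 0 q.1 q.2, nem η (h.κ 0 q.1 q.2)⟫
  rw [Real.norm_eq_abs, N, N]
  linarith

theorem ent_err (hη : 0 < η) (ht : 0 < t) (x : M) {h₀ : M → ℝ} (hc : HasCompactSupport h₀)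
    {K : ℝ} (hK : ∀ y, |g.Δ h₀ y| ≤ K) :
    |η * ∫ y, h.a η t x y * g.Δ h₀ y ∂μ| ≤ 2 * K * Real.sqrt (η * μ.real (tsupport h₀)) := by
  have hK0 : 0 ≤ K := (abs_nonneg _).trans (hK x)
  refine ent_opt hK0 (mul_nonneg hη.le measureReal_nonneg) fun θ hθ => ?_
  have hS : MeasurableSet (tsupport h₀) := (isClosed_tsupport h₀).measurableSet
  have i1 : Integrable (fun y => θ * h.p t x y) μ := (h.integrable_p ht x).const_mul θ
  have i2 : Integrable ((tsupport h₀).indicator fun _ => η / θ) μ :=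
    (integrableOn_const hc.isCompact.measure_lt_top.ne).integrable_indicator hS
  have e : ∫ y, K * (θ * h.p t x y + (tsupport h₀).indicator (fun _ => η / θ) y) ∂μ =
      K * (θ + η * μ.real (tsupport h₀) / θ) := by
    rw [integral_const_mul, integral_add i1 i2, integral_const_mul, h.integral_p ht x,
      integral_indicator_const _ hS, smul_eq_mul]
    ring
  rw [← e, ← integral_const_mul, ← Real.norm_eq_abs]
  refine norm_integral_le_of_norm_le ((i1.add i2).const_mul K) (Eventually.of_forall fun y => ?_)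
  have hp := h.p_nonneg ht x y
  by_cases hy : y ∈ tsupport h₀
  · rw [indicator_of_mem hy, Real.norm_eq_abs, ← mul_assoc, abs_mul, mul_comm]
    have ha := mul_nonneg hη.le (h.a_nonneg hη ht x y)
    rw [abs_of_nonneg ha]
    refine mul_le_mul (hK y) ?_ ha hK0
    refine le_of_sq_le_sq ?_ (by positivity)
    have h1 := h.a_sq_le hη ht x y
    have h2 : (η * h.a η t x y) ^ 2 ≤ 4 * (θ * h.p t x y) * (η / θ) := by
      rw [mul_pow]
      calc η ^ 2 * h.a η t x y ^ 2 ≤ η ^ 2 * (4 * h.p t x y / η) :=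
            mul_le_mul_of_nonneg_left h1 (sq_nonneg η)
        _ = 4 * (θ * h.p t x y) * (η / θ) := by field_simp
    nlinarith [sq_nonneg (θ * h.p t x y - η / θ)]
  · rw [indicator_of_notMem hy, g.Δ_eq_zero hy, mul_zero, mul_zero, norm_zero]
    positivity

/-- The key estimate. -/
theorem BL_ent (hη : 0 < η) (ht : 0 < t) (x : M) {h₀ : M → ℝ} (hs : g.Sm h₀)
    (hc : HasCompactSupport h₀) {b : Lp ℝ 2 μ} (hb : b =ᵐ[μ] h₀) {β E l K : ℝ}
    (hE : Real.exp (2 * lam * t) ≤ E) (hl : ∀ y, g.Γ h₀ h₀ y ≤ l ^ 2)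
    (hK : ∀ y, |g.Δ h₀ y| ≤ K) :
    g.Γ (h.U 0 t (nem η (h.κ 0 t x) + β • b)) (h.U 0 t (nem η (h.κ 0 t x) + β • b)) x ≤
      E * (E * n / (2 * t) - h.I η t x +
        4 * |β| * K * Real.sqrt (η * μ.real (tsupport h₀)) + β ^ 2 * l ^ 2) := by
  have sp := h.sm_p ht x
  have sa := h.sm_a hη ht x
  have p0 := h.p_nonneg ht x
  have sφ : g.Sm fun y => 1 * h.a η t x y + β * h₀ y := g.sm_add (g.sm_smul 1 sa) (g.sm_smul β hs)
  have hA : (nem η (h.κ 0 t x) + β • b : Lp ℝ 2 μ) =ᵐ[μ]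
      fun y => 1 * h.a η t x y + β * h₀ y := by
    filter_upwards [Lp.coeFn_add (nem η (h.κ 0 t x)) (β • b), Lp.coeFn_smul β b, hb,
      h.nem_κ_ae hη ht x] with y h1 h2 h3 h4
    rw [h1, Pi.add_apply, h2, Pi.smul_apply, h3, h4, smul_eq_mul, one_mul]
  obtain ⟨iap, eap⟩ := g.green sp sa (h.memLp_a hη ht x) (h.memLp_Δ_p ht x)
    (h.ent_integrable_Γ_p ht x) (h.integrable_Γ_a hη ht x)
  have le1 : ∀ y, h.p t x y * g.Γ (h.a η t x) (h.a η t x) y ≤ g.Γ (h.a η t x) (h.p t x) y := by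
    intro y
    have h0 : 0 < η + h.p t x y := by have := p0 y; positivity
    have h1 : g.Γ (h.a η t x) (h.p t x) y = (η + h.p t x y) * g.Γ (h.a η t x) (h.a η t x) y := by
      rw [h.Γ_a hη ht x sa, g.Γ_symm sp sa]
      field_simp
    rw [h1]
    exact mul_le_mul_of_nonneg_right (by linarith) (g.Γ_nonneg sa y)
  have i1 : Integrable (fun y => h.p t x y * g.Γ (h.a η t x) (h.a η t x) y) μ := by
    refine iap.mono' (g.cont (g.sm_mul sp (g.sm_Γ sa sa))).aestronglyMeasurable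
      (Eventually.of_forall fun y => ?_)
    rw [Real.norm_of_nonneg (mul_nonneg (p0 y) (g.Γ_nonneg sa y))]
    exact le1 y
  have cs : ∀ {k : M → ℝ}, g.Sm k → HasCompactSupport (g.Γ k h₀) := fun {k} hk => by
    have : g.Γ k h₀ = g.Γ h₀ k := funext (g.Γ_symm hk hs)
    rw [this]
    exact g.cs_Γ hc hk
  have i2 : Integrable (fun y => h.p t x y * g.Γ (h.a η t x) h₀ y) μ :=
    g.integrable_of_cs (g.sm_mul sp (g.sm_Γ sa hs)) (cs sa).mul_left
  have i3 : Integrable (fun y => h.p t x y * g.Γ h₀ h₀ y) μ :=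
    g.integrable_of_cs (g.sm_mul sp (g.sm_Γ hs hs)) (cs hs).mul_left
  have eΓ : (fun y => h.p t x y * g.Γ (fun y => 1 * h.a η t x y + β * h₀ y)
      (fun y => 1 * h.a η t x y + β * h₀ y) y) = fun y =>
      h.p t x y * g.Γ (h.a η t x) (h.a η t x) y + 2 * β * (h.p t x y * g.Γ (h.a η t x) h₀ y) +
        β ^ 2 * (h.p t x y * g.Γ h₀ h₀ y) := by
    funext y
    rw [g.Γ_comb 1 β sa hs]
    ring
  have h1 : Integrable (fun y => h.p t x y * g.Γ (fun y => 1 * h.a η t x y + β * h₀ y)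
      (fun y => 1 * h.a η t x y + β * h₀ y) y) μ := by
    rw [eΓ]
    exact (i1.add (i2.const_mul _)).add (i3.const_mul _)
  have h2 : Integrable (fun y => h.p t x y * (1 * h.a η t x y + β * h₀ y) ^ 2) μ := by
    have j1 : Integrable (fun y => h.p t x y * h.a η t x y ^ 2) μ := by
      refine (((h.memLp_p ht x).integrable_mul (h.memLp_p ht x)).const_mul (4 / η)).mono'
        (g.cont (g.sm_mul sp (g.sm_sq sa))).aestronglyMeasurable
        (Eventually.of_forall fun y => ?_)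
      rw [Real.norm_of_nonneg (mul_nonneg (p0 y) (sq_nonneg _)), Pi.mul_apply]
      calc h.p t x y * h.a η t x y ^ 2 ≤ h.p t x y * (4 * h.p t x y / η) :=
            mul_le_mul_of_nonneg_left (h.a_sq_le hη ht x y) (p0 y)
        _ = 4 / η * (h.p t x y * h.p t x y) := by ring
    have j2 : Integrable (fun y => h.p t x y * (2 * β * h.a η t x y + β ^ 2 * h₀ y) * h₀ y) μ :=
      g.integrable_of_cs (g.sm_mul (g.sm_mul sp (g.sm_add (g.sm_smul _ sa) (g.sm_smul _ hs))) hs)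
        hc.mul_left
    refine (j1.add j2).congr (Eventually.of_forall fun y => ?_)
    simp only [Pi.add_apply]
    ring
  have key := h.BL ht sφ hA x h1 h2
  have Q0 : 0 ≤ ∫ y, h.p t x y * g.Γ (fun y => 1 * h.a η t x y + β * h₀ y)
      (fun y => 1 * h.a η t x y + β * h₀ y) y ∂μ :=
    integral_nonneg fun y => mul_nonneg (p0 y) (g.Γ_nonneg sφ y)
  have key2 := key.trans (mul_le_mul_of_nonneg_right hE Q0)
  have E0 : 0 ≤ E := (Real.exp_pos _).le.trans hE
  have eI : h.I η t x = ∫ y, g.Γ (h.a η t x) (h.p t x) y ∂μ := by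
    rw [I, h.U_one_eq_integral ht (h.nem_κ_ae hη ht x), ← neg_neg (∫ y, g.Γ _ _ y ∂μ), ← eap]
    simp only [mul_comm]
  have eL : h.U 1 t b x = -∫ y, g.Γ (h.p t x) h₀ y ∂μ := by
    rw [h.U_one_eq_integral ht hb]
    have h3 := g.ibp hs hc sp
    simp only [g.Γ_symm hs sp] at h3
    rw [← h3]
    simp only [mul_comm]
  have b1 : ∫ y, h.p t x y * g.Γ (h.a η t x) (h.a η t x) y ∂μ ≤ h.I η t x := by
    rw [eI]
    exact integral_mono i1 iap le1
  have b2 : ∫ y, h.p t x y * g.Γ (h.a η t x) h₀ y ∂μ =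
      -h.U 1 t b x + η * ∫ y, h.a η t x y * g.Δ h₀ y ∂μ := by
    rw [eL, g.ibp_symm hs hc sa, neg_neg, mul_neg, ← sub_eq_add_neg, ← integral_const_mul,
      ← integral_sub (g.integrable_of_cs (g.sm_Γ sp hs) (cs sp))
        ((g.integrable_of_cs (g.sm_Γ sa hs) (cs sa)).const_mul η)]
    refine integral_congr_ae (Eventually.of_forall fun y => ?_)
    have h0 : 0 < η + h.p t x y := by have := p0 y; positivity
    simp only [h.Γ_a hη ht x hs]
    field_simp
    ring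
  have b3 : ∫ y, h.p t x y * g.Γ h₀ h₀ y ∂μ ≤ l ^ 2 := by
    calc ∫ y, h.p t x y * g.Γ h₀ h₀ y ∂μ ≤ ∫ y, h.p t x y * l ^ 2 ∂μ :=
          integral_mono i3 ((h.integrable_p ht x).mul_const _)
            fun y => mul_le_mul_of_nonneg_left (hl y) (p0 y)
      _ = l ^ 2 := by rw [integral_mul_const, h.integral_p ht x, one_mul]
  have b4 := h.ent_err hη ht x hc hK
  have eU : h.U 1 t (nem η (h.κ 0 t x) + β • b) x = -h.I η t x + β * h.U 1 t b x := by
    rw [h.U_add, h.U_smul, I, neg_neg]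
  rw [eΓ, integral_add (i1.fun_add (i2.const_mul _)) (i3.const_mul _),
    integral_add i1 (i2.const_mul _),
    integral_const_mul, integral_const_mul, b2, eU] at key2
  set e := η * ∫ y, h.a η t x y * g.Δ h₀ y ∂μ
  set L := h.U 1 t b x
  set I₀ := h.I η t x
  set R := Real.sqrt (η * μ.real (tsupport h₀))
  have b5 : 2 * β * e ≤ 4 * |β| * K * R := by
    have h3 : β * e ≤ |β| * |e| := by rw [← abs_mul]; exact le_abs_self _
    have h4 := mul_le_mul_of_nonneg_left b4 (abs_nonneg β)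
    linarith
  have b6 := mul_le_mul_of_nonneg_left b3 (sq_nonneg β)
  have hn : (0 : ℝ) < n := by exact_mod_cast g.n_pos
  have b7 : 2 * E * (I₀ - β * L) - 2 * t / n * (-I₀ + β * L) ^ 2 ≤ E * (E * n / (2 * t)) := by
    have h3 : 0 ≤ 2 * t / n * (I₀ - β * L - E * n / (2 * t)) ^ 2 := by positivity
    have h4 : 2 * t / n * (I₀ - β * L - E * n / (2 * t)) ^ 2 =
        2 * t / n * (-I₀ + β * L) ^ 2 - 2 * E * (I₀ - β * L) + E * (E * n / (2 * t)) := by
      field_simp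
      ring
    linarith
  have b8 := mul_le_mul_of_nonneg_left (add_le_add (add_le_add b1 (le_refl (2 * β * (-L + e)))) b6) E0
  have b9 := mul_le_mul_of_nonneg_left b5 E0
  nlinarith

end Pool.Agent.MP_3fc7f4_gt.Heat
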