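import Mathlib

/-!
TASK FC.  Continuous functional calculus on [0,1] for a symmetric operator 0 ≤ R ≤ 1 on a REAL
Hilbert space, and the resolvent of the Friedrichs extension.

Hints for exists_fc.
(a) Call a symmetric S positive if 0 ≤ ⟪S a, a⟫ for all a.  R, 1-R are positive, and so is
R(1-R) = R(1-R)R + (1-R)R(1-R).  If S is positive and Q is symmetric then Q S Q is positive.
Hence R^i (1-R)^j is positive for all i j (split off even powers; all these operators commute).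
(b) For f in C([0,1]) the Bernstein polynomial B_N f = ∑ f(i/N) C(N,i) x^i (1-x)^(N-i), evaluated
at R, satisfies -‖f‖ ≤ B_N f (R) ≤ ‖f‖ in the form sense since ∑ C(N,i) R^i (1-R)^(N-i) = 1, so its
operator norm is ≤ ‖f‖ (symmetric operator: norm = sup of |⟪S a, a⟫|; Mathlib:
ContinuousLinearMap.norm_eq_iSup_rayleighQuotient or IsSymmetric / rayleigh files, or polarisation by hand).
An alternative to (c): a polynomial which is > 0 on [0,1] is a nonnegative combination of the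
x^i (1-x)^j (e.g. by induction on the degree / factorisation into linear and quadratic factors).
(c) For a polynomial p of degree ≤ d the polynomial B_N p has degree ≤ d and B_N p → p uniformly
(bernsteinApproximation_uniform), hence coefficientwise (finite dimension: q ↦ aeval R q is a linear
map on the finite dimensional space degreeLT d+1, normed by the sup norm on [0,1], so it is
continuous), so ‖aeval R p‖ ≤ sup |p|.  (Any other proof of this inequality is fine, e.g.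
complexification plus the C*-algebra cfc of Mathlib.)
(d) Extend p ↦ aeval R p from the dense subalgebra polynomialFunctions (Icc 0 1)
(polynomialFunctions.topologicalClosure / polynomialFunctions_closure_eq_top) with
LinearMap.extendOfNorm / ContinuousLinearMap.extend; multiplicativity and symmetry pass to the
limit by density (DenseRange.induction_on₂).

Hints for exists_resolvent.  On V put the semi inner product q(v,w) = ⟪ι v, ι w⟫ - ⟪A v, ι w⟫
(PreInnerProductSpace.Core on a type synonym of V), let W be its UniformSpace.Completion (a Hilbert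
space), j : W →L H the extension of ι (‖ι v‖² ≤ q(v,v)), and R = j ∘ adjoint j.  For v, w in V:
⟪adjoint j (ι v - A v), w⟫_W = ⟪ι v - A v, ι w⟫ = q(v,w), so adjoint j (ι v - A v) = v by density.
-/

open Set
open scoped RealInnerProductSpace

namespace Pool.Agent.MP_3fc7f4_gt

variable {H : Type} [NormedAddCommGroup H] [InnerProductSpace ℝ H] [CompleteSpace H]

open Polynomial in
omit [CompleteSpace H] in
lemma fc_symm (R : H →L[ℝ] H) (hs : ∀ a b, ⟪R a, b⟫ = ⟪a, R b⟫) (p : ℝ[X]) (a b : H) :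
    ⟪aeval R p a, b⟫ = ⟪a, aeval R p b⟫ := by
  have hpow : ∀ (n : ℕ) (a b : H), ⟪(R ^ n) a, b⟫ = ⟪a, (R ^ n) b⟫ := by
    intro n
    induction n with
    | zero => intro a b; simp
    | succ n ih =>
      intro a b
      calc ⟪(R ^ (n + 1)) a, b⟫ = ⟪(R ^ n) (R a), b⟫ := by rw [pow_succ]; rfl
        _ = ⟪a, R ((R ^ n) b)⟫ := by rw [ih, hs]
        _ = ⟪a, (R ^ (n + 1)) b⟫ := by rw [pow_succ']; rfl
  induction p using Polynomial.induction_on' with
  | add p q hp hq =>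
    simp only [map_add, add_apply, inner_add_left, inner_add_right, hp, hq]
  | monomial n c =>
    rw [aeval_monomial, ← Algebra.smul_def]
    simp only [smul_apply, real_inner_smul_left, real_inner_smul_right, hpow]

omit [CompleteSpace H] in
lemma fc_of_coercive (S : H →L[ℝ] H) {c : ℝ} (h : ∀ a, c * ‖a‖ ^ 2 ≤ |⟪S a, a⟫|) (a : H) :
    c * ‖a‖ ≤ ‖S a‖ := by
  rcases (norm_nonneg a).eq_or_lt with h0 | h0
  · rw [← h0, mul_zero]; exact norm_nonneg _
  · have h1 := (h a).trans (abs_real_inner_le_norm (S a) a)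
    have h2 : c * ‖a‖ * ‖a‖ ≤ ‖S a‖ * ‖a‖ := by nlinarith
    exact le_of_mul_le_mul_right h2 h0

open Polynomial in
omit [CompleteSpace H] in
lemma fc_below_mul (R : H →L[ℝ] H) {p q : ℝ[X]}
    (hp : ∃ c, 0 < c ∧ ∀ a, c * ‖a‖ ≤ ‖aeval R p a‖)
    (hq : ∃ c, 0 < c ∧ ∀ a, c * ‖a‖ ≤ ‖aeval R q a‖) :
    ∃ c, 0 < c ∧ ∀ a, c * ‖a‖ ≤ ‖aeval R (p * q) a‖ := by
  obtain ⟨c, hc, hp⟩ := hp
  obtain ⟨d, hd, hq⟩ := hq
  refine ⟨c * d, mul_pos hc hd, fun a => ?_⟩
  rw [map_mul, mul_apply_eq_comp, mul_assoc]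
  exact (mul_le_mul_of_nonneg_left (hq a) hc.le).trans (hp _)

open Polynomial in
omit [CompleteSpace H] in
lemma fc_below_lin (R : H →L[ℝ] H) (h0 : ∀ a, 0 ≤ ⟪R a, a⟫) (h1 : ∀ a, ⟪R a, a⟫ ≤ ‖a‖ ^ 2)
    {r : ℝ} (hr : r ∉ Icc (0 : ℝ) 1) :
    ∃ c, 0 < c ∧ ∀ a, c * ‖a‖ ≤ ‖aeval R (X - C r) a‖ := by
  have he : ∀ a, ⟪aeval R (X - C r) a, a⟫ = ⟪R a, a⟫ - r * ‖a‖ ^ 2 := by
    intro a
    rw [map_sub, aeval_X, aeval_C, Algebra.algebraMap_eq_smul_one]
    simp only [sub_apply, smul_apply,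
      one_apply_eq_self, inner_sub_left, real_inner_smul_left,
      real_inner_self_eq_norm_sq]
  rcases lt_or_ge r 0 with h | h
  · refine ⟨-r, by linarith, fc_of_coercive _ fun a => ?_⟩
    rw [he]
    exact le_trans (by linarith [h0 a]) (le_abs_self _)
  · have h' : 1 < r := by
      by_contra hcon
      exact hr ⟨h, not_lt.1 hcon⟩
    refine ⟨r - 1, by linarith, fc_of_coercive _ fun a => ?_⟩
    rw [he]
    exact le_trans (by linarith [h1 a]) (neg_le_abs _)

open Polynomial in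
omit [CompleteSpace H] in
lemma fc_below_quad (R : H →L[ℝ] H) (hs : ∀ a b, ⟪R a, b⟫ = ⟪a, R b⟫) {z : ℂ} (hz : z.im ≠ 0) :
    ∃ c, 0 < c ∧ ∀ a, c * ‖a‖ ≤ ‖aeval R (X ^ 2 - C (2 * z.re) * X + C (‖z‖ ^ 2)) a‖ := by
  refine ⟨z.im ^ 2, by positivity, fc_of_coercive _ fun a => ?_⟩
  have he : ⟪aeval R (X ^ 2 - C (2 * z.re) * X + C (‖z‖ ^ 2)) a, a⟫ =
      ‖R a‖ ^ 2 - 2 * z.re * ⟪R a, a⟫ + ‖z‖ ^ 2 * ‖a‖ ^ 2 := by
    rw [map_add, map_sub, map_mul, map_pow, aeval_X, aeval_C, aeval_C,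
      Algebra.algebraMap_eq_smul_one, Algebra.algebraMap_eq_smul_one, smul_mul_assoc, one_mul,
      sq]
    simp only [add_apply, sub_apply,
      smul_apply, mul_apply_eq_comp,
      one_apply_eq_self, inner_add_left, inner_sub_left, real_inner_smul_left,
      real_inner_self_eq_norm_sq]
    rw [hs (R a) a, real_inner_self_eq_norm_sq]
  have h2 : ‖R a - z.re • a‖ ^ 2 = ‖R a‖ ^ 2 - 2 * z.re * ⟪R a, a⟫ + z.re ^ 2 * ‖a‖ ^ 2 := by
    rw [norm_sub_sq_real, real_inner_smul_right, norm_smul, mul_pow, Real.norm_eq_abs, sq_abs]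
    ring
  have h3 : ‖z‖ ^ 2 = z.re ^ 2 + z.im ^ 2 := by
    rw [Complex.sq_norm, Complex.normSq_apply]; ring
  rw [he, h3]
  refine le_trans ?_ (le_abs_self _)
  nlinarith [sq_nonneg ‖R a - z.re • a‖]

open Polynomial in
omit [CompleteSpace H] in
lemma fc_below (R : H →L[ℝ] H) (hs : ∀ a b, ⟪R a, b⟫ = ⟪a, R b⟫) (h0 : ∀ a, 0 ≤ ⟪R a, a⟫)
    (h1 : ∀ a, ⟪R a, a⟫ ≤ ‖a‖ ^ 2) (n : ℕ) :
    ∀ q : ℝ[X], q.natDegree = n → (∀ x ∈ Icc (0 : ℝ) 1, q.eval x ≠ 0) →
      ∃ c, 0 < c ∧ ∀ a, c * ‖a‖ ≤ ‖aeval R q a‖ := by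
  induction n using Nat.strong_induction_on with
  | _ n ih =>
    intro q hn hq
    have hq0 : q ≠ 0 := by
      rintro rfl
      exact hq 0 ⟨le_rfl, zero_le_one⟩ (by simp)
    rcases Nat.eq_zero_or_pos n with h | h
    · obtain ⟨c, rfl⟩ := natDegree_eq_zero.1 (hn.trans h)
      have hc : c ≠ 0 := by simpa using hq 0 ⟨le_rfl, zero_le_one⟩
      refine ⟨|c|, abs_pos.2 hc, fun a => ?_⟩
      rw [aeval_C, Algebra.algebraMap_eq_smul_one]
      simp [norm_smul]
    · have hdeg : q.degree ≠ 0 := by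
        rw [degree_eq_natDegree hq0, hn]
        exact_mod_cast h.ne'
      obtain ⟨z, hz⟩ : ∃ z : ℂ, aeval z q = 0 :=
        IsAlgClosed.exists_aeval_eq_zero ℂ q hdeg
      have key : ∀ p : ℝ[X], 0 < p.natDegree → p ∣ q →
          (∃ c, 0 < c ∧ ∀ a, c * ‖a‖ ≤ ‖aeval R p a‖) →
          ∃ c, 0 < c ∧ ∀ a, c * ‖a‖ ≤ ‖aeval R q a‖ := by
        rintro p hp ⟨r, rfl⟩ hb
        have hp0 : p ≠ 0 := left_ne_zero_of_mul hq0
        have hr0 : r ≠ 0 := right_ne_zero_of_mul hq0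
        refine fc_below_mul R hb (ih r.natDegree ?_ r rfl fun x hx h' => hq x hx ?_)
        · rw [← hn, natDegree_mul hp0 hr0]; omega
        · rw [eval_mul, h', mul_zero]
      by_cases him : z.im = 0
      · have hz' : z = (algebraMap ℝ ℂ) z.re := by
          apply Complex.ext <;> simp [him]
        have hroot : q.eval z.re = 0 := by
          rw [hz', aeval_algebraMap_eq_zero_iff] at hz
          simpa using hz
        refine key (X - C z.re) (by rw [natDegree_X_sub_C]; exact one_pos)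
          (dvd_iff_isRoot.2 hroot) (fc_below_lin R h0 h1 fun hx => hq _ hx hroot)
      · refine key _ ?_ (q.quadratic_dvd_of_aeval_eq_zero_im_ne_zero hz him)
          (fc_below_quad R hs him)
        have : (X ^ 2 - C (2 * z.re) * X + C (‖z‖ ^ 2) : ℝ[X]).natDegree = 2 := by
          compute_degree!
        omega

open Polynomial in
omit [CompleteSpace H] in
lemma fc_norm_le (R : H →L[ℝ] H) (hs : ∀ a b, ⟪R a, b⟫ = ⟪a, R b⟫) (h0 : ∀ a, 0 ≤ ⟪R a, a⟫)
    (h1 : ∀ a, ⟪R a, a⟫ ≤ ‖a‖ ^ 2) (p : ℝ[X]) {M : ℝ} (hM0 : 0 ≤ M)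
    (hM : ∀ x ∈ Icc (0 : ℝ) 1, |p.eval x| ≤ M) : ‖aeval R p‖ ≤ M := by
  by_contra hcon
  have hcon := not_le.1 hcon
  set T := aeval R p with hT
  set N := ‖T‖ with hN
  have hN0 : 0 < N := hM0.trans_lt hcon
  obtain ⟨c, hc, hb⟩ := fc_below R hs h0 h1 _ (C (N ^ 2) - p * p) rfl (by
    intro x hx
    have h2 := hM x hx
    have h3 : (p.eval x) ^ 2 < N ^ 2 := sq_lt_sq' (by linarith [neg_abs_le (p.eval x)])
      (by linarith [le_abs_self (p.eval x)])
    simp only [eval_sub, eval_C, eval_mul]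
    nlinarith)
  have hkey : ∀ a, N ^ 2 * ‖T a‖ ^ 2 ≤ (N ^ 4 - c ^ 2) * ‖a‖ ^ 2 := by
    intro a
    have e1 : aeval R (C (N ^ 2) - p * p) a = (N ^ 2) • a - T (T a) := by
      rw [map_sub, map_mul, aeval_C, Algebra.algebraMap_eq_smul_one]
      rfl
    have e2 : ‖(N ^ 2) • a - T (T a)‖ ^ 2 =
        N ^ 4 * ‖a‖ ^ 2 - 2 * N ^ 2 * ‖T a‖ ^ 2 + ‖T (T a)‖ ^ 2 := by
      rw [norm_sub_sq_real, real_inner_smul_left, norm_smul, mul_pow, Real.norm_eq_abs, sq_abs,
        ← fc_symm R hs p a (T a), real_inner_self_eq_norm_sq]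
      ring
    have e3 : ‖T (T a)‖ ^ 2 ≤ (N * ‖T a‖) ^ 2 :=
      pow_le_pow_left₀ (norm_nonneg _) (T.le_opNorm _) 2
    have e4 : (c * ‖a‖) ^ 2 ≤ ‖(N ^ 2) • a - T (T a)‖ ^ 2 := by
      rw [← e1]
      exact pow_le_pow_left₀ (by positivity) (hb a) 2
    rw [e2] at e4
    nlinarith
  have hlt : √(max ((N ^ 4 - c ^ 2) / N ^ 2) 0) < N := by
    rw [Real.sqrt_lt' hN0]
    refine max_lt ?_ (by positivity)
    rw [div_lt_iff₀ (by positivity)]
    nlinarith [sq_pos_of_pos hc]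
  have hle : ‖T‖ ≤ √(max ((N ^ 4 - c ^ 2) / N ^ 2) 0) := by
    refine T.opNorm_le_bound (Real.sqrt_nonneg _) fun a => ?_
    refine le_of_sq_le_sq ?_ (by positivity)
    rw [mul_pow, Real.sq_sqrt (le_max_right _ _)]
    refine le_trans ?_ (mul_le_mul_of_nonneg_right (le_max_left _ _) (by positivity))
    rw [div_mul_eq_mul_div, le_div_iff₀ (by positivity)]
    linarith [hkey a]
  exact absurd (hle.trans_lt hlt) (lt_irrefl _)

theorem exists_fc (R : H →L[ℝ] H) (hs : ∀ a b, ⟪R a, b⟫ = ⟪a, R b⟫) (h0 : ∀ a, 0 ≤ ⟪R a, a⟫)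
    (h1 : ∀ a, ⟪R a, a⟫ ≤ ‖a‖ ^ 2) :
    ∃ Φ : C(Icc (0 : ℝ) 1, ℝ) →L[ℝ] (H →L[ℝ] H),
      (∀ f, ‖Φ f‖ ≤ ‖f‖) ∧ (∀ f g, Φ (f * g) = (Φ f).comp (Φ g)) ∧
      Φ 1 = ContinuousLinearMap.id ℝ H ∧ Φ ⟨Subtype.val, continuous_subtype_val⟩ = R ∧
      ∀ f a b, ⟪Φ f a, b⟫ = ⟪a, Φ f b⟫ := by
  let e : Polynomial ℝ →ₗ[ℝ] C(Icc (0 : ℝ) 1, ℝ) :=
    (Polynomial.toContinuousMapOnAlgHom (Icc (0 : ℝ) 1)).toLinearMap
  let f : Polynomial ℝ →ₗ[ℝ] (H →L[ℝ] H) := (Polynomial.aeval R).toLinearMap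
  have hd : DenseRange e := by
    intro g
    have h := continuousMap_mem_polynomialFunctions_closure 0 1 g
    rw [← SetLike.mem_coe, Subalgebra.topologicalClosure_coe, polynomialFunctions_coe] at h
    exact h
  have hn : ∀ p, ‖f p‖ ≤ 1 * ‖e p‖ := by
    intro p
    rw [one_mul]
    refine fc_norm_le R hs h0 h1 p (norm_nonneg _) fun x hx => ?_
    exact (e p).norm_coe_le_norm ⟨x, hx⟩
  have heq : ∀ p, f.extendOfNorm e (e p) = Polynomial.aeval R p := fun p =>
    LinearMap.extendOfNorm_eq hd ⟨1, hn⟩ p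
  refine ⟨f.extendOfNorm e, fun g => ?_, fun g g' => ?_, ?_, ?_, fun g a b => ?_⟩
  · simpa using LinearMap.norm_extendOfNorm_apply_le hd 1 hn g
  · refine hd.induction_on₂ (p := fun g g' => f.extendOfNorm e (g * g') =
      (f.extendOfNorm e g).comp (f.extendOfNorm e g')) ?_ ?_ g g'
    · refine isClosed_eq (by fun_prop) ?_
      change Continuous fun x : C(Icc (0 : ℝ) 1, ℝ) × C(Icc (0 : ℝ) 1, ℝ) =>
        f.extendOfNorm e x.1 * f.extendOfNorm e x.2
      fun_prop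
    · intro p q
      have : e p * e q = e (p * q) :=
        (map_mul (Polynomial.toContinuousMapOnAlgHom (Icc (0 : ℝ) 1)) p q).symm
      rw [this, heq, heq, heq, map_mul]
      rfl
  · have : (1 : C(Icc (0 : ℝ) 1, ℝ)) = e 1 :=
      (map_one (Polynomial.toContinuousMapOnAlgHom (Icc (0 : ℝ) 1))).symm
    rw [this, heq, map_one]
    rfl
  · have : (⟨Subtype.val, continuous_subtype_val⟩ : C(Icc (0 : ℝ) 1, ℝ)) = e Polynomial.X := by
      ext x
      simp [e]
    rw [this, heq, Polynomial.aeval_X]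
  · refine hd.induction_on (p := fun g => ⟪f.extendOfNorm e g a, b⟫ = ⟪a, f.extendOfNorm e g b⟫)
      g (isClosed_eq (by fun_prop) (by fun_prop)) fun p => ?_
    rw [heq]
    exact fc_symm R hs p a b

lemma fc_resolvent_aux {V : Type} [SeminormedAddCommGroup V] [InnerProductSpace ℝ V]
    (ι A : V →ₗ[ℝ] H) (hq : ∀ v w : V, ⟪v, w⟫ = ⟪ι v - A v, ι w⟫)
    (hn : ∀ v, ⟪A v, ι v⟫ ≤ 0) :
    ∃ R : H →L[ℝ] H, (∀ a b, ⟪R a, b⟫ = ⟪a, R b⟫) ∧ (∀ a, 0 ≤ ⟪R a, a⟫) ∧
      (∀ a, ⟪R a, a⟫ ≤ ‖a‖ ^ 2) ∧ ∀ v, R (ι v - A v) = ι v := by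
  let e : V →ₗ[ℝ] UniformSpace.Completion V :=
    (UniformSpace.Completion.toComplL : V →L[ℝ] UniformSpace.Completion V).toLinearMap
  have he : ∀ v, e v = (v : UniformSpace.Completion V) := fun v => rfl
  have hd : DenseRange e := UniformSpace.Completion.denseRange_coe
  have hb : ∀ v, ‖ι v‖ ≤ 1 * ‖e v‖ := by
    intro v
    rw [one_mul, he, UniformSpace.Completion.norm_coe]
    refine le_of_sq_le_sq ?_ (norm_nonneg _)
    rw [← real_inner_self_eq_norm_sq v, hq, inner_sub_left, real_inner_self_eq_norm_sq]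
    linarith [hn v]
  let j : UniformSpace.Completion V →L[ℝ] H := ι.extendOfNorm e
  have hj : ∀ v, j (e v) = ι v := fun v => LinearMap.extendOfNorm_eq hd ⟨1, hb⟩ v
  have hj1 : ‖j‖ ≤ 1 := LinearMap.opNorm_extendOfNorm_le hd zero_le_one hb
  have hR : ∀ a b, ⟪j (ContinuousLinearMap.adjoint j a), b⟫ =
      ⟪ContinuousLinearMap.adjoint j a, ContinuousLinearMap.adjoint j b⟫ := fun a b =>
    (ContinuousLinearMap.adjoint_inner_right j _ b).symm
  refine ⟨j.comp (ContinuousLinearMap.adjoint j), fun a b => ?_, fun a => ?_, fun a => ?_,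
    fun v => ?_⟩
  · simp only [ContinuousLinearMap.comp_apply]
    rw [hR, real_inner_comm, ← hR, real_inner_comm]
  · simp only [ContinuousLinearMap.comp_apply]
    rw [hR]
    exact real_inner_self_nonneg
  · simp only [ContinuousLinearMap.comp_apply]
    rw [hR, real_inner_self_eq_norm_sq]
    refine pow_le_pow_left₀ (norm_nonneg _) ?_ 2
    have h1 := (ContinuousLinearMap.adjoint j).le_opNorm a
    rw [LinearIsometryEquiv.norm_map] at h1
    exact h1.trans (mul_le_of_le_one_left (norm_nonneg _) hj1)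
  · simp only [ContinuousLinearMap.comp_apply]
    have h1 : ContinuousLinearMap.adjoint j (ι v - A v) = e v := by
      refine ext_inner_right ℝ fun w => ?_
      refine hd.induction_on
        (p := fun w => ⟪ContinuousLinearMap.adjoint j (ι v - A v), w⟫ = ⟪e v, w⟫) w
        (isClosed_eq (by fun_prop) (by fun_prop)) fun w => ?_
      rw [ContinuousLinearMap.adjoint_inner_left, hj, he, he, UniformSpace.Completion.inner_coe,
        hq]
    rw [h1, hj]

theorem exists_resolvent {V : Type} [AddCommGroup V] [Module ℝ V] (ι A : V →ₗ[ℝ] H)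
    (hs : ∀ v w, ⟪A v, ι w⟫ = ⟪ι v, A w⟫) (hn : ∀ v, ⟪A v, ι v⟫ ≤ 0) :
    ∃ R : H →L[ℝ] H, (∀ a b, ⟪R a, b⟫ = ⟪a, R b⟫) ∧ (∀ a, 0 ≤ ⟪R a, a⟫) ∧
      (∀ a, ⟪R a, a⟫ ≤ ‖a‖ ^ 2) ∧ ∀ v, R (ι v - A v) = ι v := by
  let cd : PreInnerProductSpace.Core ℝ V :=
    { inner := fun v w => ⟪ι v - A v, ι w⟫
      conj_inner_symm := fun v w => by
        simp only [conj_trivial, inner_sub_left]
        rw [hs w v, real_inner_comm (ι v) (ι w), real_inner_comm (A v) (ι w)]
      re_inner_nonneg := fun v => by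
        simp only [RCLike.re_to_real, inner_sub_left]
        linarith [hn v, real_inner_self_nonneg (x := ι v)]
      add_left := fun v w u => by
        simp only [map_add, inner_sub_left, inner_add_left]
        ring
      smul_left := fun v w r => by
        simp only [map_smul, conj_trivial, inner_sub_left, real_inner_smul_left]
        ring }
  let : SeminormedAddCommGroup V := InnerProductSpace.Core.toSeminormedAddCommGroup (𝕜 := ℝ)
    (c := cd)
  let : InnerProductSpace ℝ V := InnerProductSpace.ofCore cd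
  exact fc_resolvent_aux ι A (fun _ _ => rfl) hn

end Pool.Agent.MP_3fc7f4_gt
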