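import Pool.Agent.MP_3fc7f4_gt.FC

/-!
TASK Semi.  The family T j t = A^j exp(tA) of a nonpositive symmetric operator A.

Hints.  Take R from exists_resolvent and Φ from exists_fc.  For t > 0 let
G j t : C([0,1]) be r ↦ (1 - 1/r)^j * exp (t (1 - 1/r)) for r > 0 and 0 for r = 0 (continuity at 0:
with y = 1/r - 1 → ∞, y^j exp(-t y) → 0; sup_y y^j exp(-t y) ≤ j!/t^j from
Real.pow_div_factorial_le_exp).  T j t = Φ (G j t) (and anything for t ≤ 0).
comp: G j s * G k t = G (j+k) (s+t).  norm_le: |G 0 t| ≤ 1.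
deriv: t ↦ G j t is differentiable in the sup norm with derivative G (j+1) t, because
|exp(-h y) - 1 + h y| ≤ h² y² exp(|h| y), so the remainder is ≤ h² sup y^(j+2) exp(-t y/2) for
|h| ≤ t/2; compose with Φ and evaluation at a.
tendsto: for a = R b, T 0 t a - a = Φ ((G 0 t - 1) * id) b and |(G 0 t r - 1) r| ≤ t
(1 - exp(-t y) ≤ t y and y r ≤ 1); the range of R contains the range of ι, which is dense, and
‖T 0 t‖ ≤ 1.
weak: let G' r = G j t r / r (continuous, = G j t - G (j+1) t).  Then T j t a = R (Φ G' a), so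
⟪T j t a, ι v - A v⟫ = ⟪Φ G' a, R (ι v - A v)⟫ = ⟪Φ G' a, ι v⟫ = ⟪T j t a - T (j+1) t a, ι v⟫.
-/

open Set Filter Topology
open scoped RealInnerProductSpace

namespace Pool.Agent.MP_3fc7f4_gt

variable {H : Type} [NormedAddCommGroup H] [InnerProductSpace ℝ H]

/-- T j t behaves like A^j exp (t A). -/
structure IsSemi (T : ℕ → ℝ → H →L[ℝ] H) : Prop where
  symm : ∀ j t, 0 < t → ∀ a b, ⟪T j t a, b⟫ = ⟪a, T j t b⟫
  comp : ∀ j k s t, 0 < s → 0 < t → ∀ a, T j s (T k t a) = T (j + k) (s + t) a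
  norm_le : ∀ t, 0 < t → ∀ a, ‖T 0 t a‖ ≤ ‖a‖
  tendsto : ∀ a, Tendsto (fun t => T 0 t a) (𝓝[>] 0) (𝓝 a)
  deriv : ∀ j t, 0 < t → ∀ a, HasDerivAt (fun s => T j s a) (T (j + 1) t a) t

/-- The symbol of A^j exp (t A) as a function of the resolvent. -/
noncomputable def semi_g (j : ℕ) (t r : ℝ) : ℝ :=
  if r = 0 then 0 else (1 - r⁻¹) ^ j * Real.exp (t * (1 - r⁻¹))

theorem semi_u {r : ℝ} (hr : r ∈ Icc (0 : ℝ) 1) (h0 : r ≠ 0) : 1 - r⁻¹ ≤ 0 := by
  have := (one_le_inv₀ (lt_of_le_of_ne hr.1 h0.symm)).2 hr.2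
  linarith

theorem semi_pow {t u : ℝ} (ht : 0 < t) (hu : u ≤ 0) (j : ℕ) :
    |u| ^ j * Real.exp (t * u) ≤ j.factorial / t ^ j := by
  have h1 := Real.pow_div_factorial_le_exp (t * -u) (mul_nonneg ht.le (by linarith)) j
  have h2 : (0 : ℝ) < j.factorial := by exact_mod_cast j.factorial_pos
  have h3 : Real.exp (t * -u) * Real.exp (t * u) = 1 := by
    rw [← Real.exp_add]; simp
  rw [div_le_iff₀ h2, mul_pow] at h1
  rw [le_div_iff₀ (pow_pos ht j), abs_of_nonpos hu]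
  have h4 := mul_le_mul_of_nonneg_right h1 (Real.exp_pos (t * u)).le
  calc (-u) ^ j * Real.exp (t * u) * t ^ j = t ^ j * (-u) ^ j * Real.exp (t * u) := by ring
    _ ≤ Real.exp (t * -u) * j.factorial * Real.exp (t * u) := h4
    _ = j.factorial := by rw [mul_right_comm, h3, one_mul]

theorem semi_bd {t r : ℝ} (ht : 0 < t) (hr : r ∈ Icc (0 : ℝ) 1) (j : ℕ) :
    |semi_g j t r| ≤ j.factorial / t ^ j := by
  unfold semi_g
  split_ifs with h
  · rw [abs_zero]; positivity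
  · rw [abs_mul, abs_pow, abs_of_pos (Real.exp_pos _)]
    exact semi_pow ht (semi_u hr h) j

theorem semi_id (j : ℕ) (t r : ℝ) : semi_g j t r = r * (semi_g j t r - semi_g (j + 1) t r) := by
  unfold semi_g
  split_ifs with h
  · simp
  · rw [pow_succ]; field_simp; ring

theorem semi_cont {t : ℝ} (ht : 0 < t) (j : ℕ) :
    Continuous fun r : Icc (0 : ℝ) 1 => semi_g j t r := by
  refine continuous_iff_continuousAt.2 fun r => ?_
  by_cases h : (r : ℝ) = 0
  · have h0 : semi_g j t r = 0 := by simp [semi_g, h]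
    rw [ContinuousAt, h0]
    have h1 : Tendsto (fun s : Icc (0 : ℝ) 1 =>
        (s : ℝ) * (j.factorial / t ^ j + (j + 1).factorial / t ^ (j + 1))) (𝓝 r) (𝓝 0) := by
      have := (continuous_subtype_val.tendsto r).mul_const
        ((j.factorial : ℝ) / t ^ j + (j + 1).factorial / t ^ (j + 1))
      rwa [h, zero_mul] at this
    refine squeeze_zero_norm (fun s => ?_) h1
    rw [semi_id, Real.norm_eq_abs, abs_mul, abs_of_nonneg s.2.1]
    exact mul_le_mul_of_nonneg_left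
      ((abs_sub _ _).trans (add_le_add (semi_bd ht s.2 j) (semi_bd ht s.2 (j + 1)))) s.2.1
  · have h1 : ContinuousAt (fun s : Icc (0 : ℝ) 1 => 1 - (s : ℝ)⁻¹) r :=
      continuousAt_const.sub (continuous_subtype_val.continuousAt.inv₀ h)
    refine ((h1.pow j).mul (continuousAt_const.mul h1 (f := fun _ => t)).rexp).congr ?_
    filter_upwards [continuous_subtype_val.continuousAt.eventually_ne h] with s hs
    simp [semi_g, hs]

/-- The symbol as a continuous map. -/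
noncomputable def semi_G (j : ℕ) (t : ℝ) : C(Icc (0 : ℝ) 1, ℝ) :=
  if h : 0 < t then ⟨fun r => semi_g j t r, semi_cont h j⟩ else 0

theorem semi_G_apply {t : ℝ} (ht : 0 < t) (j : ℕ) (r : Icc (0 : ℝ) 1) :
    semi_G j t r = semi_g j t r := by
  rw [semi_G, dif_pos ht]; rfl

theorem semi_mul {s t : ℝ} (hs : 0 < s) (ht : 0 < t) (j k : ℕ) :
    semi_G j s * semi_G k t = semi_G (j + k) (s + t) := by
  ext r
  rw [ContinuousMap.mul_apply, semi_G_apply hs, semi_G_apply ht, semi_G_apply (add_pos hs ht)]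
  unfold semi_g
  split_ifs with h
  · simp
  · rw [add_mul, Real.exp_add, pow_add]; ring

theorem semi_norm {t : ℝ} (ht : 0 < t) : ‖semi_G 0 t‖ ≤ 1 := by
  refine (ContinuousMap.norm_le _ zero_le_one).2 fun r => ?_
  rw [semi_G_apply ht]
  simpa using semi_bd ht r.2 0

theorem semi_exp (x : ℝ) : |Real.exp x - 1 - x| ≤ x ^ 2 * Real.exp |x| := by
  have h1 := Real.add_one_le_exp x
  have h2 : Real.exp x * (1 - x) ≤ 1 := by
    have h3 := mul_le_mul_of_nonneg_left (Real.add_one_le_exp (-x)) (Real.exp_pos x).le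
    rw [← Real.exp_add, add_neg_cancel, Real.exp_zero] at h3
    linarith
  rw [abs_of_nonneg (by linarith)]
  rcases le_total 0 x with h | h
  · rw [abs_of_nonneg h]
    nlinarith
  · have h4 := Real.one_le_exp (abs_nonneg x)
    nlinarith [mul_nonneg (sub_nonneg.2 h1) (neg_nonneg.2 h), mul_nonneg (sq_nonneg x) (sub_nonneg.2 h4)]

theorem semi_deriv {t : ℝ} (ht : 0 < t) (j : ℕ) :
    HasDerivAt (semi_G j) (semi_G (j + 1) t) t := by
  rw [hasDerivAt_iff_isLittleO_nhds_zero]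
  refine Asymptotics.IsBigO.trans_isLittleO (g := fun h : ℝ => h ^ 2) ?_
    (Asymptotics.isLittleO_pow_id one_lt_two)
  refine Asymptotics.IsBigO.of_bound ((j + 2).factorial / (t / 2) ^ (j + 2)) ?_
  filter_upwards [Metric.ball_mem_nhds (0 : ℝ) (half_pos ht)] with h hh
  rw [mem_ball_zero_iff, Real.norm_eq_abs] at hh
  have hth : 0 < t + h := by linarith [neg_abs_le h]
  refine (ContinuousMap.norm_le _ (by positivity)).2 fun r => ?_
  rw [ContinuousMap.sub_apply, ContinuousMap.sub_apply, ContinuousMap.smul_apply,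
    semi_G_apply hth, semi_G_apply ht, semi_G_apply ht, smul_eq_mul]
  unfold semi_g
  split_ifs with h0
  · simp only [mul_zero, sub_zero, norm_zero]; positivity
  · have hu := semi_u r.2 h0
    generalize 1 - (r : ℝ)⁻¹ = u at hu
    have e : u ^ j * Real.exp ((t + h) * u) - u ^ j * Real.exp (t * u) -
        h * (u ^ (j + 1) * Real.exp (t * u)) =
        u ^ j * Real.exp (t * u) * (Real.exp (h * u) - 1 - h * u) := by
      rw [add_mul, Real.exp_add]; ring
    have h1 : Real.exp (t * u) * Real.exp |h * u| ≤ Real.exp (t / 2 * u) := by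
      rw [← Real.exp_add, Real.exp_le_exp, abs_mul, abs_of_nonpos hu]
      nlinarith
    rw [e, Real.norm_eq_abs, Real.norm_eq_abs, abs_mul, abs_mul, abs_pow,
      abs_of_pos (Real.exp_pos _), abs_of_nonneg (sq_nonneg h)]
    calc |u| ^ j * Real.exp (t * u) * |Real.exp (h * u) - 1 - h * u|
        ≤ |u| ^ j * Real.exp (t * u) * ((h * u) ^ 2 * Real.exp |h * u|) :=
          mul_le_mul_of_nonneg_left (semi_exp _) (by positivity)
      _ = |u| ^ (j + 2) * (Real.exp (t * u) * Real.exp |h * u|) * h ^ 2 := by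
          rw [pow_add, sq_abs]; ring
      _ ≤ |u| ^ (j + 2) * Real.exp (t / 2 * u) * h ^ 2 := by gcongr
      _ ≤ _ := mul_le_mul_of_nonneg_right (semi_pow (half_pos ht) hu (j + 2)) (sq_nonneg h)

theorem semi_small {t : ℝ} (ht : 0 < t) :
    ‖(semi_G 0 t - 1) * ⟨Subtype.val, continuous_subtype_val⟩‖ ≤ t := by
  refine (ContinuousMap.norm_le _ ht.le).2 fun r => ?_
  rw [ContinuousMap.mul_apply, ContinuousMap.sub_apply, semi_G_apply ht]
  show ‖(semi_g 0 t r - 1) * (r : ℝ)‖ ≤ t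
  unfold semi_g
  split_ifs with h0
  · simp [h0, ht.le]
  · have hu := semi_u r.2 h0
    have h1 := Real.add_one_le_exp (t * (1 - (r : ℝ)⁻¹))
    have h2 : Real.exp (t * (1 - (r : ℝ)⁻¹)) ≤ 1 :=
      Real.exp_le_one_iff.2 (mul_nonpos_of_nonneg_of_nonpos ht.le hu)
    have h3 : t * (1 - (r : ℝ)⁻¹) * r = t * (r - 1) := by field_simp
    have h4 := r.2.1
    rw [pow_zero, one_mul, Real.norm_eq_abs, abs_mul, abs_of_nonneg h4,
      abs_of_nonpos (by linarith)]
    nlinarith [mul_le_mul_of_nonneg_right h1 h4, mul_nonneg ht.le h4]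

theorem semi_G_id {t : ℝ} (ht : 0 < t) (j : ℕ) : semi_G j t =
    ⟨Subtype.val, continuous_subtype_val⟩ * (semi_G j t - semi_G (j + 1) t) := by
  ext r
  rw [ContinuousMap.mul_apply, ContinuousMap.sub_apply, semi_G_apply ht, semi_G_apply ht]
  exact semi_id j t r

theorem exists_semi [CompleteSpace H] {V : Type} [AddCommGroup V] [Module ℝ V] (ι A : V →ₗ[ℝ] H)
    (hd : DenseRange ι) (hs : ∀ v w, ⟪A v, ι w⟫ = ⟪ι v, A w⟫) (hn : ∀ v, ⟪A v, ι v⟫ ≤ 0) :
    ∃ T : ℕ → ℝ → H →L[ℝ] H, IsSemi T ∧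
      ∀ j t, 0 < t → ∀ a v, ⟪T j t a, A v⟫ = ⟪T (j + 1) t a, ι v⟫ := by
  obtain ⟨R, hR1, hR2, hR3, hR4⟩ := exists_resolvent ι A hs hn
  obtain ⟨Φ, h1, h2, h3, h4, h5⟩ := exists_fc R hR1 hR2 hR3
  have hb : ∀ f a, ‖Φ f a‖ ≤ ‖f‖ * ‖a‖ := fun f a =>
    ((Φ f).le_opNorm a).trans (mul_le_mul_of_nonneg_right (h1 f) (norm_nonneg a))
  have hn1 : ∀ t, 0 < t → ∀ a, ‖Φ (semi_G 0 t) a‖ ≤ ‖a‖ := fun t ht a =>
    (hb _ a).trans (mul_le_of_le_one_left (norm_nonneg a) (semi_norm ht))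
  refine ⟨fun j t => Φ (semi_G j t), ⟨fun j t _ => h5 _, fun j k s t hs ht a => ?_, hn1,
    fun a => ?_, fun j t ht a => ?_⟩, fun j t ht a v => ?_⟩
  · rw [← semi_mul hs ht, h2]; rfl
  · rw [Metric.tendsto_nhdsWithin_nhds]
    intro ε hε
    obtain ⟨v, hv⟩ := hd.exists_dist_lt a (show 0 < ε / 3 by linarith)
    rw [dist_eq_norm] at hv
    have hp : 0 < ‖ι v - A v‖ + 1 := by positivity
    refine ⟨ε / 3 / (‖ι v - A v‖ + 1), by positivity, fun t ht htε => ?_⟩
    have ht' : 0 < t := ht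
    rw [Real.dist_eq, sub_zero, abs_of_pos ht', lt_div_iff₀ hp] at htε
    have e1 : Φ (semi_G 0 t) (ι v) - ι v =
        Φ ((semi_G 0 t - 1) * ⟨Subtype.val, continuous_subtype_val⟩) (ι v - A v) := by
      rw [h2, h4, ContinuousLinearMap.comp_apply, hR4, map_sub, h3]; rfl
    have e2 : ‖Φ (semi_G 0 t) (ι v) - ι v‖ ≤ t * ‖ι v - A v‖ := by
      rw [e1]
      exact (hb _ _).trans (mul_le_mul_of_nonneg_right (semi_small ht') (norm_nonneg _))
    have e3 : Φ (semi_G 0 t) a - a =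
        Φ (semi_G 0 t) (a - ι v) + (Φ (semi_G 0 t) (ι v) - ι v) - (a - ι v) := by
      rw [map_sub]; abel
    have e4 := hn1 t ht' (a - ι v)
    have e5 := norm_sub_le (Φ (semi_G 0 t) (a - ι v) + (Φ (semi_G 0 t) (ι v) - ι v)) (a - ι v)
    have e6 := norm_add_le (Φ (semi_G 0 t) (a - ι v)) (Φ (semi_G 0 t) (ι v) - ι v)
    rw [dist_eq_norm, e3]
    nlinarith
  · exact (((ContinuousLinearMap.apply ℝ H a).comp Φ).hasFDerivAt.comp_hasDerivAt t
      (semi_deriv ht j) :)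
  · have e1 : Φ (semi_G j t) a = R (Φ (semi_G j t) a - Φ (semi_G (j + 1) t) a) := by
      conv_lhs => rw [semi_G_id ht j, h2, h4, map_sub]
      rfl
    have e2 : ⟪Φ (semi_G j t) a, ι v - A v⟫ =
        ⟪Φ (semi_G j t) a - Φ (semi_G (j + 1) t) a, ι v⟫ := by
      conv_lhs => rw [e1, hR1, hR4]
    rw [inner_sub_right, inner_sub_left] at e2
    linarith

end Pool.Agent.MP_3fc7f4_gt
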