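import Pool.Agent.MP_3fc7f4_gt.Abs
import Pool.Agent.MP_3fc7f4_gt.Semi

/-! The heat semigroup and its kernel: the interface (no task in this file). -/

open MeasureTheory Filter Topology Set
open scoped RealInnerProductSpace

namespace Pool.Agent.MP_3fc7f4_gt

variable {M : Type} [MetricSpace M] [MeasurableSpace M] {μ : Measure M} {n : ℕ} {lam : ℝ}

/-- T j t is Δ^j P_t on L², and κ j t x in L² represents evaluation at x of the smooth version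
of T j t a. -/
structure Heat (g : Geo M μ n lam) where
  T : ℕ → ℝ → Lp ℝ 2 μ →L[ℝ] Lp ℝ 2 μ
  κ : ℕ → ℝ → M → Lp ℝ 2 μ
  semi : IsSemi T
  sm : ∀ j t, 0 < t → ∀ a, g.Sm fun x => ⟪κ j t x, a⟫
  ae : ∀ j t, 0 < t → ∀ a, (fun x => ⟪κ j t x, a⟫) =ᵐ[μ] T j t a
  lap : ∀ j t, 0 < t → ∀ a x, g.Δ (fun y => ⟪κ j t y, a⟫) x = ⟪κ (j + 1) t x, a⟫
  test : ∀ t, 0 < t → ∀ φ, g.Sm φ → HasCompactSupport φ → ∀ a b : Lp ℝ 2 μ,
    a =ᵐ[μ] φ → b =ᵐ[μ] g.Δ φ → T 1 t a = T 0 t b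

namespace Heat

variable {g : Geo M μ n lam} (h : Heat g)

/-- The smooth version of Δ^j P_t a. -/
noncomputable def U (j : ℕ) (t : ℝ) (a : Lp ℝ 2 μ) (x : M) : ℝ := ⟪h.κ j t x, a⟫

/-- The heat kernel p_t(x, y), a smooth function of y. -/
noncomputable def p (t : ℝ) (x : M) : M → ℝ := h.U 0 (t / 2) (h.κ 0 (t / 2) x)

theorem sm_U (j : ℕ) {t : ℝ} (ht : 0 < t) (a : Lp ℝ 2 μ) : g.Sm (h.U j t a) := h.sm j t ht a

theorem U_ae (j : ℕ) {t : ℝ} (ht : 0 < t) (a : Lp ℝ 2 μ) : h.U j t a =ᵐ[μ] h.T j t a :=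
  h.ae j t ht a

theorem Δ_U (j : ℕ) {t : ℝ} (ht : 0 < t) (a : Lp ℝ 2 μ) : g.Δ (h.U j t a) = h.U (j + 1) t a :=
  funext fun x => h.lap j t ht a x

theorem memLp_U (j : ℕ) {t : ℝ} (ht : 0 < t) (a : Lp ℝ 2 μ) : MemLp (h.U j t a) 2 μ :=
  (memLp_congr_ae (h.U_ae j ht a)).2 (Lp.memLp _)

theorem U_add (j : ℕ) (t : ℝ) (a b : Lp ℝ 2 μ) :
    h.U j t (a + b) = fun x => h.U j t a x + h.U j t b x :=
  funext fun _ => inner_add_right _ _ _

theorem U_sub (j : ℕ) (t : ℝ) (a b : Lp ℝ 2 μ) :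
    h.U j t (a - b) = fun x => h.U j t a x - h.U j t b x :=
  funext fun _ => inner_sub_right _ _ _

theorem U_smul (j : ℕ) (t c : ℝ) (a : Lp ℝ 2 μ) :
    h.U j t (c • a) = fun x => c * h.U j t a x :=
  funext fun _ => real_inner_smul_right _ _ _

theorem sm_p {t : ℝ} (ht : 0 < t) (x : M) : g.Sm (h.p t x) := h.sm_U 0 (half_pos ht) _

theorem memLp_p {t : ℝ} (ht : 0 < t) (x : M) : MemLp (h.p t x) 2 μ := h.memLp_U 0 (half_pos ht) _

end Heat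

omit [MetricSpace M] in
/-- The inner product of L² as an integral of representatives. -/
theorem inner_eq_integral {a b : Lp ℝ 2 μ} {f k : M → ℝ} (ha : a =ᵐ[μ] f) (hb : b =ᵐ[μ] k) :
    ⟪a, b⟫ = ∫ x, f x * k x ∂μ := by
  rw [L2.inner_def]
  refine integral_congr_ae ?_
  filter_upwards [ha, hb] with x h1 h2
  simp [h1, h2, mul_comm]

omit [MetricSpace M] in
theorem norm_sq_eq_integral {a : Lp ℝ 2 μ} {f : M → ℝ} (ha : a =ᵐ[μ] f) :
    ‖a‖ ^ 2 = ∫ x, f x ^ 2 ∂μ := by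
  rw [← real_inner_self_eq_norm_sq, inner_eq_integral ha ha]
  simp only [sq]

end Pool.Agent.MP_3fc7f4_gt
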