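import Pool.Agent.MP_3fc7f4_gt.Heat

/-!
TASK Joint.  Regularity of the heat kernel jointly in time and space.

Hints.  κ_comp: both a ↦ ⟪κ (j+k) (s+t) x, a⟫ and ⟪T j s (κ k t x), a⟫ = ⟪κ k t x, T j s a⟫ are
continuous in x and a.e. equal to T (j+k) (s+t) a (semi.comp, semi.symm; commutativity of +), so they
agree everywhere (Continuous.ae_eq_iff_eq); finish with ext_inner_right.
So for 0 < t₀ < t, U j t a = U 0 t₀ (T j (t - t₀) a) and everything reduces to a fixed t₀.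
exists_form: B x a b = Γ (U 0 t a) (U 0 t b) x is bilinear and symmetric in (a, b).  It is bounded:
by g.frame, B x a a ≤ C ∑ (ℓ i a)² where ℓ i a = deriv (s ↦ ⟪κ 0 t (c i s), a⟫) 0 is a pointwise
limit of bounded functionals (difference quotients along s = 1/(m+1)), hence bounded
(Banach-Steinhaus: continuousLinearMapOfTendsto); then Cauchy-Schwarz Γ_sq_le and
LinearMap.mkContinuous₂.  Uniformity on a compact set S: for fixed a b the function x ↦ B x a b is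
continuous (sm_Γ), so bounded on S; apply banach_steinhaus twice.
κ_lip: for x y in S ⊆ closedBall x₀ r, the curve of g.curve x y ε (ε ≤ 1) stays in
closedBall x₀ (3 r + 1); abs_sub_le_of_curve gives |U a y - U a x| ≤ (dist x y + ε) √C ‖a‖.
κ_cont: κ j t x = T j (t - t₀) (κ 0 t₀ x); s ↦ T j s a is continuous on (0,∞) (semi.deriv) and
‖T j s‖ is locally bounded (T j s = T 0 (s - s₀) ∘ T j s₀).
Γ_cont, Γ_deriv: write both sides with B x (T j (s - t₀) a) (T k (s - t₀) b);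
|B x a b - B x₀ a₀ b₀| ≤ |B x (a - a₀) b| + |B x a₀ (b - b₀)| + |B x a₀ b₀ - B x₀ a₀ b₀|.
path_deriv: U 0 (α s) (b s) (c s) = ⟪k s, m s⟫ with k s = κ 0 t₀ (c s), m s = T 0 (α s - t₀) (b s),
t₀ = α τ / 2.  m is differentiable at τ with derivative α' • T 1 (α τ - t₀) (b τ) + T 0 (α τ - t₀) b'
(m s - m τ = T (b s - b τ) + (T_s - T_τ) (b τ), ‖T 0 ·‖ ≤ 1, strong continuity), k is continuous, and
⟪k s, m s⟫ - ⟪k τ, m τ⟫ = ⟪k s, m s - m τ⟫ + (U 0 (α τ) (b τ) (c s) - U 0 (α τ) (b τ) (c τ)).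
-/

open MeasureTheory Filter Topology Set
open scoped RealInnerProductSpace

namespace Pool.Agent.MP_3fc7f4_gt.Heat

variable {M : Type} [MetricSpace M] [ProperSpace M] [MeasurableSpace M] [BorelSpace M]
  {μ : Measure M} [IsFiniteMeasureOnCompacts μ] [μ.IsOpenPosMeasure] {n : ℕ} {lam : ℝ}
  {g : Geo M μ n lam} (h : Heat g)

theorem κ_comp (j k : ℕ) {s t : ℝ} (hs : 0 < s) (ht : 0 < t) (x : M) :
    h.κ (j + k) (s + t) x = h.T j s (h.κ k t x) := by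
  refine ext_inner_right ℝ fun a => ?_
  have h1 : h.U (j + k) (s + t) a =ᵐ[μ] h.U k t (h.T j s a) := by
    refine (h.U_ae (j + k) (add_pos hs ht) a).trans ?_
    have h2 := h.U_ae k ht (h.T j s a)
    rw [h.semi.comp k j t s ht hs, add_comm k j, add_comm t s] at h2
    exact h2.symm
  have h3 := (Continuous.ae_eq_iff_eq μ (g.cont (h.sm_U (j + k) (add_pos hs ht) a))
    (g.cont (h.sm_U k ht (h.T j s a)))).1 h1
  rw [h.semi.symm j s hs]
  exact congrFun h3 x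

theorem U_comp (j k : ℕ) {s t : ℝ} (hs : 0 < s) (ht : 0 < t) (a : Lp ℝ 2 μ) :
    h.U k t (h.T j s a) = h.U (j + k) (s + t) a := by
  funext x
  rw [U, U, h.κ_comp j k hs ht, h.semi.symm j s hs]

theorem p_ae {t : ℝ} (ht : 0 < t) (x : M) : h.p t x =ᵐ[μ] h.κ 0 t x := by
  have := h.κ_comp 0 0 (half_pos ht) (half_pos ht) x
  rw [add_halves] at this
  rw [this]
  exact h.U_ae 0 (half_pos ht) _

theorem Δ_p_ae {t : ℝ} (ht : 0 < t) (x : M) : g.Δ (h.p t x) =ᵐ[μ] h.κ 1 t x := by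
  have := h.κ_comp 1 0 (half_pos ht) (half_pos ht) x
  rw [add_halves] at this
  rw [this, p, h.Δ_U 0 (half_pos ht)]
  exact h.U_ae 1 (half_pos ht) _

theorem memLp_Δ_p {t : ℝ} (ht : 0 < t) (x : M) : MemLp (g.Δ (h.p t x)) 2 μ :=
  (memLp_congr_ae (h.Δ_p_ae ht x)).2 (Lp.memLp _)

theorem U_eq_integral {t : ℝ} (ht : 0 < t) {a : Lp ℝ 2 μ} {f : M → ℝ} (ha : a =ᵐ[μ] f) (x : M) :
    h.U 0 t a x = ∫ y, h.p t x y * f y ∂μ :=
  inner_eq_integral (h.p_ae ht x).symm ha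

theorem U_one_eq_integral {t : ℝ} (ht : 0 < t) {a : Lp ℝ 2 μ} {f : M → ℝ} (ha : a =ᵐ[μ] f)
    (x : M) : h.U 1 t a x = ∫ y, g.Δ (h.p t x) y * f y ∂μ :=
  inner_eq_integral (h.Δ_p_ae ht x).symm ha

/-- The semigroup acting on the kernel. -/
theorem U_κ {s t : ℝ} (hs : 0 < s) (ht : 0 < t) (x : M) :
    h.U 0 s (h.κ 0 t x) = h.p (s + t) x := by
  refine (Continuous.ae_eq_iff_eq μ (g.cont (h.sm_U 0 hs _))
    (g.cont (h.sm_p (add_pos hs ht) x))).1 ?_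
  refine (h.U_ae 0 hs _).trans ?_
  rw [← h.κ_comp 0 0 hs ht x]
  exact (h.p_ae (add_pos hs ht) x).symm

omit [ProperSpace M] [BorelSpace M] [IsFiniteMeasureOnCompacts μ] [μ.IsOpenPosMeasure]
  [MetricSpace M] in
/-- A derivative along a curve is a bounded functional. -/
theorem joint_deriv_bound {k : ℝ → Lp ℝ 2 μ}
    (hk : ∀ a, DifferentiableAt ℝ (fun s => ⟪k s, a⟫) 0) :
    ∃ K, ∀ a, |deriv (fun s => ⟪k s, a⟫) 0| ≤ K * ‖a‖ := by
  let u : ℕ → ℝ := fun m => 1 / ((m : ℝ) + 1)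
  have hu : Tendsto u atTop (𝓝[≠] 0) := by
    refine tendsto_nhdsWithin_iff.2 ⟨tendsto_one_div_add_atTop_nhds_zero_nat, ?_⟩
    refine Eventually.of_forall fun m => ?_
    have : 0 < u m := Nat.one_div_pos_of_nat
    exact this.ne'
  let L : ℕ → Lp ℝ 2 μ →L[ℝ] ℝ := fun m => (u m)⁻¹ • innerSL ℝ (k (u m) - k 0)
  have hL : ∀ a, Tendsto (fun m => L m a) atTop (𝓝 (deriv (fun s => ⟪k s, a⟫) 0)) := by
    intro a
    have := ((hk a).hasDerivAt.tendsto_slope_zero).comp hu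
    refine this.congr fun m => ?_
    simp [L]
  obtain ⟨K, hK⟩ := banach_steinhaus (g := L) fun a => by
    obtain ⟨C, hC⟩ := (hL a).norm.bddAbove_range
    exact ⟨C, fun m => hC ⟨m, rfl⟩⟩
  refine ⟨K, fun a => ?_⟩
  refine le_of_tendsto' (hL a).norm fun m => ?_
  exact (L m).le_of_opNorm_le (hK m) a

omit [ProperSpace M] [BorelSpace M] [IsFiniteMeasureOnCompacts μ] [μ.IsOpenPosMeasure] in
theorem joint_Γ_bound {t : ℝ} (ht : 0 < t) (x : M) :
    ∃ K, 0 ≤ K ∧ ∀ a, g.Γ (h.U 0 t a) (h.U 0 t a) x ≤ K * ‖a‖ ^ 2 := by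
  obtain ⟨c, C, -, hc⟩ := g.frame x
  have h1 : ∀ i, ∃ K, ∀ a, |deriv (fun s => ⟪h.κ 0 t (c i s), a⟫) 0| ≤ K * ‖a‖ := fun i =>
    joint_deriv_bound (k := fun s => h.κ 0 t (c i s)) fun a => (hc _ (h.sm_U 0 ht a)).1 i
  choose K hK using h1
  refine ⟨|C| * ∑ i, K i ^ 2, by positivity, fun a => ?_⟩
  refine (hc _ (h.sm_U 0 ht a)).2.trans ?_
  have h2 : ∑ i, deriv (fun s => h.U 0 t a (c i s)) 0 ^ 2 ≤ (∑ i, K i ^ 2) * ‖a‖ ^ 2 := by
    rw [Finset.sum_mul]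
    refine Finset.sum_le_sum fun i _ => ?_
    rw [← mul_pow, ← sq_abs]
    exact pow_le_pow_left₀ (abs_nonneg _) (hK i a) 2
  have h3 : 0 ≤ ∑ i, deriv (fun s => h.U 0 t a (c i s)) 0 ^ 2 := by positivity
  rw [mul_assoc]
  exact (mul_le_mul_of_nonneg_right (le_abs_self C) h3).trans
    (mul_le_mul_of_nonneg_left h2 (abs_nonneg C))

theorem exists_form {t : ℝ} (ht : 0 < t) :
    ∃ B : M → Lp ℝ 2 μ →L[ℝ] Lp ℝ 2 μ →L[ℝ] ℝ,
      (∀ x a b, B x a b = g.Γ (h.U 0 t a) (h.U 0 t b) x) ∧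
      ∀ S : Set M, IsCompact S → ∃ C, ∀ x ∈ S, ‖B x‖ ≤ C := by
  choose K hK0 hK using h.joint_Γ_bound ht
  let B₀ : M → Lp ℝ 2 μ →ₗ[ℝ] Lp ℝ 2 μ →ₗ[ℝ] ℝ := fun x =>
    LinearMap.mk₂ ℝ (fun a b => g.Γ (h.U 0 t a) (h.U 0 t b) x)
      (fun a a' b => by
        rw [h.U_add, g.Γ_add (h.sm_U 0 ht a) (h.sm_U 0 ht a') (h.sm_U 0 ht b)])
      (fun c a b => by
        rw [h.U_smul, g.Γ_smul c (h.sm_U 0 ht a) (h.sm_U 0 ht b), smul_eq_mul])
      (fun a b b' => by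
        rw [h.U_add, g.Γ_add_right (h.sm_U 0 ht b) (h.sm_U 0 ht b') (h.sm_U 0 ht a)])
      (fun c a b => by
        rw [h.U_smul, g.Γ_smul_right c (h.sm_U 0 ht b) (h.sm_U 0 ht a), smul_eq_mul])
  have hB₀ : ∀ x a b, ‖B₀ x a b‖ ≤ K x * ‖a‖ * ‖b‖ := by
    intro x a b
    change |g.Γ (h.U 0 t a) (h.U 0 t b) x| ≤ _
    refine abs_le_of_sq_le_sq' ?_ (mul_nonneg (mul_nonneg (hK0 x) (norm_nonneg _))
      (norm_nonneg _)) |> abs_le.2
    refine (g.Γ_sq_le (h.sm_U 0 ht a) (h.sm_U 0 ht b) x).trans ?_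
    refine (mul_le_mul (hK x a) (hK x b) (g.Γ_nonneg (h.sm_U 0 ht b) x)
      (mul_nonneg (hK0 x) (sq_nonneg _))).trans (le_of_eq ?_)
    ring
  let B : M → Lp ℝ 2 μ →L[ℝ] Lp ℝ 2 μ →L[ℝ] ℝ := fun x =>
    LinearMap.mkContinuous₂ (B₀ x) (K x) (hB₀ x)
  have hB : ∀ x a b, B x a b = g.Γ (h.U 0 t a) (h.U 0 t b) x := fun x a b => rfl
  refine ⟨B, hB, fun S hS => ?_⟩
  obtain ⟨C, hC⟩ := banach_steinhaus (g := fun x : S => B x) fun a =>
    banach_steinhaus (g := fun x : S => B x a) fun b => by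
      obtain ⟨C, hC⟩ := hS.exists_bound_of_continuousOn
        (g.cont (g.sm_Γ (h.sm_U 0 ht a) (h.sm_U 0 ht b))).continuousOn
      exact ⟨C, fun x => by rw [hB]; exact hC x x.2⟩
  exact ⟨C, fun x hx => hC ⟨x, hx⟩⟩

theorem joint_κ_lip {t : ℝ} (ht : 0 < t) {S : Set M} (hS : IsCompact S) :
    ∃ C, ∀ x ∈ S, ∀ y ∈ S, ‖h.κ 0 t x - h.κ 0 t y‖ ≤ C * dist x y := by
  rcases S.eq_empty_or_nonempty with rfl | ⟨x₀, -⟩
  · exact ⟨0, by simp⟩
  obtain ⟨r, hr⟩ := hS.isBounded.subset_closedBall x₀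
  obtain ⟨B, hB, hBC⟩ := h.exists_form ht
  obtain ⟨C, hC⟩ := hBC _ (isCompact_closedBall x₀ (3 * r + 1))
  refine ⟨Real.sqrt C, fun x hx y hy => ?_⟩
  have hxr : dist x x₀ ≤ r := hr hx
  have hyr : dist y x₀ ≤ r := hr hy
  have key : ∀ ε, 0 < ε → ε ≤ 1 → ‖h.κ 0 t x - h.κ 0 t y‖ ≤ Real.sqrt C * (dist x y + ε) := by
    intro ε hε hε1
    obtain ⟨c, hc0, hc1, hc⟩ := g.curve y x ε hε
    set a := h.κ 0 t x - h.κ 0 t y with ha
    have h1 := g.abs_sub_le_of_curve hc (h.sm_U 0 ht a) (L := Real.sqrt C * ‖a‖)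
      (by positivity) fun τ hτ => by
        have hm : c τ ∈ Metric.closedBall x₀ (3 * r + 1) := by
          have h2 := hc.lip τ 0
          rw [hc0, sub_zero, abs_of_nonneg hτ.1] at h2
          have h3 : (dist y x + ε) * τ ≤ dist y x + ε := mul_le_of_le_one_right hc.nonneg hτ.2
          have h4 := dist_triangle (c τ) y x₀
          have h5 := dist_triangle_right y x x₀
          rw [Metric.mem_closedBall]
          linarith
        have hC0 : 0 ≤ C := (B (c τ)).opNorm_nonneg.trans (hC _ hm)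
        rw [← hB, mul_pow, Real.sq_sqrt hC0, sq, ← mul_assoc]
        exact (le_abs_self _).trans ((B (c τ)).le_of_opNorm₂_le_of_le (hC _ hm) le_rfl le_rfl)
    rw [hc0, hc1, U, U, ← inner_sub_left, ← ha, real_inner_self_eq_norm_sq,
      abs_of_nonneg (sq_nonneg _), dist_comm y x] at h1
    rcases (norm_nonneg a).eq_or_lt with h0 | h0
    · rw [← h0]; positivity
    · refine le_of_mul_le_mul_right ?_ h0
      calc ‖a‖ * ‖a‖ = ‖a‖ ^ 2 := (sq _).symm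
        _ ≤ _ := h1
        _ = _ := by ring
  have h2 : Tendsto (fun ε : ℝ => Real.sqrt C * (dist x y + ε)) (𝓝[>] 0)
      (𝓝 (Real.sqrt C * (dist x y + 0))) :=
    ((by fun_prop : Continuous fun ε : ℝ => Real.sqrt C * (dist x y + ε)).tendsto 0).mono_left
      nhdsWithin_le_nhds
  rw [add_zero] at h2
  refine ge_of_tendsto h2 ?_
  filter_upwards [Ioc_mem_nhdsGT one_pos] with ε hε using key ε hε.1 hε.2

theorem κ_lip (j : ℕ) {t : ℝ} (ht : 0 < t) {S : Set M} (hS : IsCompact S) :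
    ∃ C, ∀ x ∈ S, ∀ y ∈ S, ‖h.κ j t x - h.κ j t y‖ ≤ C * dist x y := by
  obtain ⟨C, hC⟩ := h.joint_κ_lip (half_pos ht) hS
  refine ⟨‖h.T j (t / 2)‖ * C, fun x hx y hy => ?_⟩
  have h1 := fun z => h.κ_comp j 0 (half_pos ht) (half_pos ht) z
  simp only [add_halves, add_zero] at h1
  rw [h1, h1, ← map_sub, mul_assoc]
  exact (h.T j (t / 2)).le_opNorm_of_le (hC x hx y hy)

theorem joint_κ_continuous (j : ℕ) {t : ℝ} (ht : 0 < t) : Continuous (h.κ j t) := by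
  refine continuous_iff_continuousAt.2 fun x => ?_
  obtain ⟨C, hC⟩ := h.κ_lip j ht (isCompact_closedBall x 1)
  refine tendsto_iff_norm_sub_tendsto_zero.2 ?_
  have h1 : Tendsto (fun y => C * dist y x) (𝓝 x) (𝓝 (C * dist x x)) :=
    (by fun_prop : Continuous fun y => C * dist y x).tendsto x
  rw [dist_self, mul_zero] at h1
  refine squeeze_zero' (Eventually.of_forall fun _ => norm_nonneg _) ?_ h1
  filter_upwards [Metric.closedBall_mem_nhds x one_pos] with y hy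
  exact hC y hy x (Metric.mem_closedBall_self zero_le_one)

omit [ProperSpace M] [BorelSpace M] [IsFiniteMeasureOnCompacts μ] [μ.IsOpenPosMeasure] in
theorem joint_T_tendsto_zero {X : Type} {l : Filter X} {u : X → ℝ} {u₀ : ℝ}
    {a : X → Lp ℝ 2 μ} {a₀ : Lp ℝ 2 μ} (hu : Tendsto u l (𝓝 u₀)) (h0 : 0 < u₀)
    (ha : Tendsto a l (𝓝 a₀)) : Tendsto (fun q => h.T 0 (u q) (a q)) l (𝓝 (h.T 0 u₀ a₀)) := by
  have h1 : Tendsto (fun q => h.T 0 (u q) a₀) l (𝓝 (h.T 0 u₀ a₀)) :=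
    (h.semi.deriv 0 u₀ h0 a₀).continuousAt.tendsto.comp hu
  have h2 : Tendsto (fun q => h.T 0 (u q) (a q - a₀)) l (𝓝 0) := by
    refine squeeze_zero_norm' ?_ (tendsto_iff_norm_sub_tendsto_zero.1 ha)
    filter_upwards [hu.eventually (lt_mem_nhds h0)] with q hq using h.semi.norm_le _ hq _
  have h3 := h2.add h1
  rw [zero_add] at h3
  refine h3.congr fun q => ?_
  rw [map_sub, sub_add_cancel]

omit [ProperSpace M] [BorelSpace M] [IsFiniteMeasureOnCompacts μ] [μ.IsOpenPosMeasure] in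
theorem joint_T_shift (j : ℕ) {t t₀ : ℝ} (ht : t₀ < t) (a : Lp ℝ 2 μ) :
    HasDerivAt (fun s => h.T j (s - t₀) a) (h.T (j + 1) (t - t₀) a) t :=
  HasDerivAt.comp_sub_const t t₀ (h.semi.deriv j (t - t₀) (sub_pos.2 ht) a)

theorem joint_κ_eq (j : ℕ) {s t₀ : ℝ} (h0 : 0 < t₀) (hs : t₀ < s) (x : M) :
    h.κ j s x = h.T j (s - t₀) (h.κ 0 t₀ x) := by
  rw [← h.κ_comp j 0 (sub_pos.2 hs) h0, sub_add_cancel, add_zero]

theorem joint_κ_eq' (j : ℕ) {s t₀ : ℝ} (h0 : 0 < t₀) (hs : t₀ < s) (x : M) :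
    h.κ j s x = h.T 0 (s - t₀) (h.κ j t₀ x) := by
  rw [← h.κ_comp 0 j (sub_pos.2 hs) h0, sub_add_cancel, zero_add]

theorem joint_U_eq (j : ℕ) {s t₀ : ℝ} (h0 : 0 < t₀) (hs : t₀ < s) (a : Lp ℝ 2 μ) :
    h.U j s a = h.U 0 t₀ (h.T j (s - t₀) a) := by
  rw [h.U_comp j 0 (sub_pos.2 hs) h0, sub_add_cancel, add_zero]

theorem κ_cont (j : ℕ) :
    ContinuousOn (fun q : ℝ × M => h.κ j q.1 q.2) (Ioi 0 ×ˢ univ) := by
  rintro ⟨t, x⟩ ⟨ht, -⟩
  have ht : 0 < t := ht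
  have hlt : t / 2 < t := half_lt_self ht
  refine ContinuousAt.continuousWithinAt ?_
  have h1 : Tendsto (fun q : ℝ × M => h.T 0 (q.1 - t / 2) (h.κ j (t / 2) q.2)) (𝓝 (t, x))
      (𝓝 (h.T 0 (t - t / 2) (h.κ j (t / 2) x))) :=
    h.joint_T_tendsto_zero ((continuous_fst.sub continuous_const).tendsto (t, x)) (sub_pos.2 hlt)
      (((h.joint_κ_continuous j (half_pos ht)).comp continuous_snd).tendsto (t, x))
  rw [← h.joint_κ_eq' j (half_pos ht) hlt] at h1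
  refine h1.congr' ?_
  filter_upwards [(continuous_fst.tendsto (t, x)).eventually (lt_mem_nhds hlt)] with q hq
  exact (h.joint_κ_eq' j (half_pos ht) hq _).symm

theorem κ_deriv (j : ℕ) {t : ℝ} (ht : 0 < t) (x : M) :
    HasDerivAt (fun s => h.κ j s x) (h.κ (j + 1) t x) t := by
  have hlt : t / 2 < t := half_lt_self ht
  rw [h.joint_κ_eq (j + 1) (half_pos ht) hlt]
  refine (h.joint_T_shift j hlt _).congr_of_eventuallyEq ?_
  filter_upwards [lt_mem_nhds hlt] with s hs using h.joint_κ_eq j (half_pos ht) hs x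

theorem U_cont (j : ℕ) (a : Lp ℝ 2 μ) :
    ContinuousOn (fun q : ℝ × M => h.U j q.1 a q.2) (Ioi 0 ×ˢ univ) :=
  (h.κ_cont j).inner continuousOn_const

theorem U_deriv (j : ℕ) {t : ℝ} (ht : 0 < t) (a : Lp ℝ 2 μ) (x : M) :
    HasDerivAt (fun s => h.U j s a x) (h.U (j + 1) t a x) t := by
  simpa [U] using (h.κ_deriv j ht x).inner ℝ (hasDerivAt_const t a)

theorem Γ_cont (j k : ℕ) (a b : Lp ℝ 2 μ) :
    ContinuousOn (fun q : ℝ × M => g.Γ (h.U j q.1 a) (h.U k q.1 b) q.2) (Ioi 0 ×ˢ univ) := by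
  rintro ⟨t, x⟩ ⟨ht, -⟩
  have ht : 0 < t := ht
  have hlt : t / 2 < t := half_lt_self ht
  refine ContinuousAt.continuousWithinAt ?_
  obtain ⟨B, hB, hBC⟩ := h.exists_form (half_pos ht)
  obtain ⟨C, hC⟩ := hBC _ (isCompact_closedBall x 1)
  let A : ℝ → Lp ℝ 2 μ := fun s => h.T j (s - t / 2) a
  let E : ℝ → Lp ℝ 2 μ := fun s => h.T k (s - t / 2) b
  have hA : Tendsto (fun q : ℝ × M => A q.1) (𝓝 (t, x)) (𝓝 (A t)) :=
    (h.joint_T_shift j hlt a).continuousAt.tendsto.comp (continuous_fst.tendsto (t, x))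
  have hE : Tendsto (fun q : ℝ × M => E q.1) (𝓝 (t, x)) (𝓝 (E t)) :=
    (h.joint_T_shift k hlt b).continuousAt.tendsto.comp (continuous_fst.tendsto (t, x))
  have hA0 := tendsto_iff_norm_sub_tendsto_zero.1 hA
  have hE0 := tendsto_iff_norm_sub_tendsto_zero.1 hE
  have hball : ∀ᶠ q : ℝ × M in 𝓝 (t, x), q.2 ∈ Metric.closedBall x 1 :=
    (continuous_snd.tendsto (t, x)).eventually (Metric.closedBall_mem_nhds x one_pos)
  have h1 : Tendsto (fun q : ℝ × M => B q.2 (A q.1 - A t) (E q.1)) (𝓝 (t, x)) (𝓝 0) := by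
    have := (hA0.const_mul C).mul hE.norm
    rw [mul_zero, zero_mul] at this
    refine squeeze_zero_norm' ?_ this
    filter_upwards [hball] with q hq
    exact (B q.2).le_of_opNorm₂_le_of_le (hC _ hq) le_rfl le_rfl
  have h2 : Tendsto (fun q : ℝ × M => B q.2 (A t) (E q.1 - E t)) (𝓝 (t, x)) (𝓝 0) := by
    have := hE0.const_mul (C * ‖A t‖)
    rw [mul_zero] at this
    refine squeeze_zero_norm' ?_ this
    filter_upwards [hball] with q hq
    exact (B q.2).le_of_opNorm₂_le_of_le (hC _ hq) le_rfl le_rfl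
  have h3 : Tendsto (fun q : ℝ × M => B q.2 (A t) (E t)) (𝓝 (t, x)) (𝓝 (B x (A t) (E t))) := by
    simp only [hB]
    exact ((g.cont (g.sm_Γ (h.sm_U 0 (half_pos ht) _) (h.sm_U 0 (half_pos ht) _))).comp
      continuous_snd).tendsto (t, x)
  have h4 := (h1.add h2).add h3
  have h5 : ∀ s, t / 2 < s → ∀ y, g.Γ (h.U j s a) (h.U k s b) y = B y (A s) (E s) := by
    intro s hs y
    rw [hB, h.joint_U_eq j (half_pos ht) hs, h.joint_U_eq k (half_pos ht) hs]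
  rw [zero_add, zero_add, ← h5 t hlt] at h4
  refine h4.congr' ?_
  filter_upwards [(continuous_fst.tendsto (t, x)).eventually (lt_mem_nhds hlt)] with q hq
  rw [h5 _ hq]
  simp only [map_sub, sub_apply]
  ring

theorem Γ_deriv (j k : ℕ) {t : ℝ} (ht : 0 < t) (a b : Lp ℝ 2 μ) (x : M) :
    HasDerivAt (fun s => g.Γ (h.U j s a) (h.U k s b) x)
      (g.Γ (h.U (j + 1) t a) (h.U k t b) x + g.Γ (h.U j t a) (h.U (k + 1) t b) x) t := by
  have hlt : t / 2 < t := half_lt_self ht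
  obtain ⟨B, hB, -⟩ := h.exists_form (half_pos ht)
  have h5 : ∀ j k s, t / 2 < s → g.Γ (h.U j s a) (h.U k s b) x =
      B x (h.T j (s - t / 2) a) (h.T k (s - t / 2) b) := by
    intro j k s hs
    rw [hB, h.joint_U_eq j (half_pos ht) hs, h.joint_U_eq k (half_pos ht) hs]
  rw [h5 _ _ _ hlt, h5 _ _ _ hlt, add_comm]
  refine ((B x).hasDerivAt_of_bilinear (fun _ => h.joint_T_shift j hlt a)
    (fun _ => h.joint_T_shift k hlt b)).congr_of_eventuallyEq ?_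
  filter_upwards [lt_mem_nhds hlt] with s hs using h5 j k s hs

theorem Γ_cont_arg {t : ℝ} (ht : 0 < t) (x : M) :
    Continuous fun a => g.Γ (h.U 0 t a) (h.U 0 t a) x := by
  obtain ⟨B, hB, -⟩ := h.exists_form ht
  simp only [← hB]
  fun_prop

/-- The chain rule along a path in space-time. -/
theorem path_deriv {c : ℝ → M} (hc : Continuous c) {α : ℝ → ℝ} {b : ℝ → Lp ℝ 2 μ} {τ α' D : ℝ}
    {b' : Lp ℝ 2 μ} (hα : HasDerivAt α α' τ) (h0 : 0 < α τ) (hb : HasDerivAt b b' τ)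
    (hD : HasDerivAt (fun s => h.U 0 (α τ) (b τ) (c s)) D τ) :
    HasDerivAt (fun s => h.U 0 (α s) (b s) (c s))
      (α' * h.U 1 (α τ) (b τ) (c τ) + h.U 0 (α τ) b' (c τ) + D) τ := by
  set t₀ := α τ / 2 with ht₀
  have hp : 0 < t₀ := half_pos h0
  have hlt : t₀ < α τ := half_lt_self h0
  let k : ℝ → Lp ℝ 2 μ := fun s => h.κ 0 t₀ (c s)
  let m : ℝ → Lp ℝ 2 μ := fun s => h.T 0 (α s - t₀) (b s)
  have hk : Tendsto k (𝓝[≠] τ) (𝓝 (k τ)) :=
    (((h.joint_κ_continuous 0 hp).comp hc).tendsto τ).mono_left nhdsWithin_le_nhds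
  have hm1 : HasDerivAt (fun s => h.T 0 (α s - t₀) (b τ)) (α' • h.T 1 (α τ - t₀) (b τ)) τ :=
    (h.joint_T_shift 0 hlt (b τ)).scomp τ hα
  have hm2 : Tendsto (fun s => h.T 0 (α s - t₀) (slope b τ s)) (𝓝[≠] τ)
      (𝓝 (h.T 0 (α τ - t₀) b')) :=
    h.joint_T_tendsto_zero
      ((hα.continuousAt.tendsto.sub_const t₀).mono_left nhdsWithin_le_nhds) (sub_pos.2 hlt)
      (hasDerivAt_iff_tendsto_slope.1 hb)
  have hm : Tendsto (slope m τ) (𝓝[≠] τ)
      (𝓝 (α' • h.T 1 (α τ - t₀) (b τ) + h.T 0 (α τ - t₀) b')) := by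
    refine ((hasDerivAt_iff_tendsto_slope.1 hm1).add hm2).congr fun s => ?_
    simp only [slope, vsub_eq_sub, map_smul, map_sub, m, ← smul_add]
    congr 1
    abel
  have hD' : HasDerivAt (fun s => ⟪k s, m τ⟫) D τ := by
    rw [h.joint_U_eq 0 hp hlt] at hD
    exact hD
  have hF : HasDerivAt (fun s => ⟪k s, m s⟫)
      (⟪k τ, α' • h.T 1 (α τ - t₀) (b τ) + h.T 0 (α τ - t₀) b'⟫ + D) τ := by
    rw [hasDerivAt_iff_tendsto_slope]
    refine ((hk.inner hm).add (hasDerivAt_iff_tendsto_slope.1 hD')).congr fun s => ?_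
    simp only [slope, vsub_eq_sub, real_inner_smul_right, inner_sub_right, smul_eq_mul]
    ring
  rw [inner_add_right, real_inner_smul_right] at hF
  rw [h.joint_U_eq 1 hp hlt, h.joint_U_eq 0 hp hlt b']
  refine hF.congr_of_eventuallyEq ?_
  filter_upwards [hα.continuousAt.tendsto.eventually (lt_mem_nhds hlt)] with s hs
  rw [h.joint_U_eq 0 hp hs]
  rfl

end Pool.Agent.MP_3fc7f4_gt.Heat
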