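import Pool.Agent.MP_3fc7f4_gt.Abs

/-!
TASK Karamata.  A Tauberian theorem: equal limits of the Gaussian volume ratios at two points give
asymptotically equal volumes of small balls.

Hints.  For z ∈ {x, y} and a continuous F : ℝ → ℝ put
A z F t = (∫ w, gw t z w * F (gw t z w) ∂ν)/√t^n (gw takes values in (0,1]).
Since gw t z w ^ (k+1) = gw (t/(k+1)) z w, for F = X^k we get A z F t → θ/√(k+1)^n as t → 0, so for a
polynomial F the limit exists and is the same for x and y.  By Weierstrass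
(exists_polynomial_near_of_continuousOn on [0,1]) and |A z F t - A z F' t| ≤ ‖F - F'‖ Zf t z, for
continuous F: for each e > 0, eventually (in t, t' → 0) |A z F t - A z' F t'| ≤ e for z, z' ∈ {x, y}.
With t = r²/4, ball z r = {gw t z > exp (-1)}.  For κ > 1 take F continuous with
indicator (u > exp (-1)) ≤ u F u ≤ indicator (u > exp (-κ²)) on (0,1]; with m z r = ν.real (ball z r)/(r/2)^n
this gives m z r ≤ A z F (r²/4) ≤ κ^n m z (κ r).  Hence limsup m x ≤ κ^n liminf m y etc.: both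
m x r and m y r converge to the same limit L as r → 0 (they are bounded by e Zf), and L > 0 because
Zf t z ≤ K^n m z (2 K √t) + exp (-K²/2) √2^n Zf (2t) z gives θ ≤ K^n L + exp (-K²/2) √2^n θ.
-/

open MeasureTheory Filter Topology Set Metric

namespace Pool.Agent.MP_3fc7f4_gt

section

variable {X : Type} [MetricSpace X] [MeasurableSpace X] [BorelSpace X] {ν : Measure X} {n : ℕ}
  {z : X} {θ t₀ : ℝ}

omit [MeasurableSpace X] [BorelSpace X] in
theorem karamata_mem {t : ℝ} (ht : 0 ≤ t) (z w : X) : gw t z w ∈ Icc (0 : ℝ) 1 :=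
  ⟨(Real.exp_pos _).le, Real.exp_le_one_iff.2 (neg_nonpos.2 (by positivity))⟩

omit [MeasurableSpace X] [BorelSpace X] in
theorem karamata_cont (t : ℝ) (z : X) : Continuous (gw t z) := by
  unfold gw
  fun_prop

theorem karamata_int (iz : Integrable (gw t₀ z) ν) {t : ℝ} (h0 : 0 < t) (h1 : t ≤ t₀)
    {F : ℝ → ℝ} (hF : Continuous F) : Integrable (fun w => gw t z w * F (gw t z w)) ν := by
  obtain ⟨C, hC⟩ := (isCompact_Icc (a := (0 : ℝ)) (b := 1)).exists_bound_of_continuousOn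
    hF.continuousOn
  refine (iz.mul_const C).mono' ((karamata_cont t z).mul
    (hF.comp (karamata_cont t z))).aestronglyMeasurable (ae_of_all _ fun w => ?_)
  rw [norm_mul, Real.norm_of_nonneg (karamata_mem h0.le z w).1]
  refine mul_le_mul (Real.exp_le_exp.2 (neg_le_neg ?_)) (hC _ (karamata_mem h0.le z w))
    (norm_nonneg _) (Real.exp_pos _).le
  gcongr

theorem karamata_int' (iz : Integrable (gw t₀ z) ν) {t : ℝ} (h0 : 0 < t) (h1 : t ≤ t₀) :
    Integrable (gw t z) ν := by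
  simpa using karamata_int iz h0 h1 (F := fun _ => 1) continuous_const

theorem karamata_small (ht₀ : 0 < t₀) (c : ℝ) :
    ∀ᶠ s in 𝓝[>] (0 : ℝ), 0 < s ∧ (c * s) ^ 2 ≤ t₀ := by
  refine eventually_mem_nhdsWithin.and (nhdsWithin_le_nhds ?_)
  exact (ContinuousAt.tendsto (f := fun s : ℝ => (c * s) ^ 2) (by fun_prop)).eventually_le_const
    (by simpa using ht₀)

theorem karamata_scale {c : ℝ} (hc : 0 < c) : Tendsto (fun s : ℝ => c * s) (𝓝[>] 0) (𝓝[>] 0) := by
  refine tendsto_nhdsWithin_iff.2 ⟨?_, eventually_mem_nhdsWithin.mono fun s hs => mul_pos hc hs⟩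
  simpa using ((continuous_const_mul c).tendsto 0).mono_left nhdsWithin_le_nhds

omit [BorelSpace X] in
theorem karamata_Z (hz : Tendsto (fun t => Zf ν n t z) (𝓝[>] 0) (𝓝 θ)) {c : ℝ} (hc : 0 < c) :
    Tendsto (fun s => (∫ w, gw ((c * s) ^ 2) z w ∂ν) / s ^ n) (𝓝[>] 0) (𝓝 (θ * c ^ n)) := by
  have h1 : Tendsto (fun s : ℝ => s ^ 2) (𝓝[>] 0) (𝓝[>] 0) := by
    refine tendsto_nhdsWithin_iff.2 ⟨?_, eventually_mem_nhdsWithin.mono fun s (hs : 0 < s) => mem_Ioi.2 (pow_pos hs 2)⟩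
    simpa using ((continuous_pow 2).tendsto (0 : ℝ)).mono_left nhdsWithin_le_nhds
  refine (((hz.comp h1).comp (karamata_scale hc)).mul_const (c ^ n)).congr'
    (eventually_mem_nhdsWithin.mono fun s (hs : 0 < s) => ?_)
  simp only [Function.comp, Zf]
  rw [Real.sqrt_sq (by positivity), mul_pow c s n]
  field_simp

theorem karamata_poly (ht₀ : 0 < t₀) (iz : Integrable (gw t₀ z) ν)
    (hz : Tendsto (fun t => Zf ν n t z) (𝓝[>] 0) (𝓝 θ)) (p : Polynomial ℝ) :
    Tendsto (fun s => (∫ w, gw (s ^ 2) z w * p.eval (gw (s ^ 2) z w) ∂ν) / s ^ n) (𝓝[>] 0)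
      (𝓝 (∑ k ∈ Finset.range (p.natDegree + 1),
        p.coeff k * (θ * (Real.sqrt (k + 1))⁻¹ ^ n))) := by
  refine (tendsto_finsetSum _ fun (k : ℕ) _ => (karamata_Z hz (c := (Real.sqrt ((k : ℝ) + 1))⁻¹)
    (by positivity)).const_mul (p.coeff k)).congr' ((karamata_small ht₀ 1).mono fun s hs => ?_)
  rw [one_mul] at hs
  simp only [Polynomial.eval_eq_sum_range, Finset.mul_sum]
  rw [integral_finsetSum _ fun k _ => karamata_int iz (pow_pos hs.1 2) hs.2
    (F := fun u => p.coeff k * u ^ k) (by fun_prop), Finset.sum_div]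
  refine Finset.sum_congr rfl fun k _ => ?_
  rw [← mul_div_assoc, ← integral_const_mul]
  congr 2
  funext w
  rw [mul_left_comm, ← pow_succ', gw, gw, ← Real.exp_nat_mul, mul_pow, inv_pow,
    Real.sq_sqrt (by positivity)]
  have := hs.1
  congr 2
  push_cast
  field_simp

theorem karamata_approx (hθ : 0 < θ) (ht₀ : 0 < t₀) {F : ℝ → ℝ} (hF : Continuous F) {e : ℝ}
    (he : 0 < e) : ∃ a : ℝ, ∀ z : X, Integrable (gw t₀ z) ν →
      Tendsto (fun t => Zf ν n t z) (𝓝[>] 0) (𝓝 θ) → ∀ᶠ s in 𝓝[>] (0 : ℝ),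
        |(∫ w, gw (s ^ 2) z w * F (gw (s ^ 2) z w) ∂ν) / s ^ n - a| ≤ e := by
  obtain ⟨p, hp⟩ := exists_polynomial_near_of_continuousOn 0 1 F hF.continuousOn (e / (4 * θ))
    (by positivity)
  refine ⟨∑ k ∈ Finset.range (p.natDegree + 1), p.coeff k * (θ * (Real.sqrt (k + 1))⁻¹ ^ n),
    fun z iz hz => ?_⟩
  have h1 := (karamata_Z hz one_pos).eventually_le_const (show θ * 1 ^ n < 2 * θ by simp; linarith)
  filter_upwards [h1, karamata_small ht₀ 1,
    Metric.tendsto_nhds.1 (karamata_poly ht₀ iz hz p) (e / 2) (half_pos he)] with s h1 hs h2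
  rw [one_mul] at hs h1
  have hs0 := hs.1
  have i1 := karamata_int iz (pow_pos hs.1 2) hs.2 hF
  have i2 := karamata_int iz (pow_pos hs.1 2) hs.2 p.continuous
  have h3 := norm_integral_le_of_norm_le (f := fun w => gw (s ^ 2) z w * F (gw (s ^ 2) z w) -
    gw (s ^ 2) z w * p.eval (gw (s ^ 2) z w))
    ((karamata_int' iz (pow_pos hs.1 2) hs.2).mul_const (e / (4 * θ))) (ae_of_all _ fun w => by
      have hw := karamata_mem (sq_nonneg s) z w
      rw [← mul_sub, norm_mul, Real.norm_of_nonneg hw.1, Real.norm_eq_abs, abs_sub_comm]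
      exact mul_le_mul_of_nonneg_left (hp _ hw).le hw.1)
  rw [integral_sub i1 i2, integral_mul_const, Real.norm_eq_abs] at h3
  refine (abs_sub_le _ _ _).trans ((add_le_add ?_ h2.le).trans (add_halves e).le)
  rw [← sub_div, abs_div, abs_of_pos (pow_pos hs0 n), div_le_iff₀ (by positivity)]
  rw [div_le_iff₀ (by positivity)] at h1
  refine h3.trans ((mul_le_mul_of_nonneg_right h1 (by positivity)).trans (le_of_eq ?_))
  field_simp
  ring

omit [MeasurableSpace X] [BorelSpace X] in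
theorem karamata_ball {s c : ℝ} (hs : 0 < s) (hc : 0 < c) (z w : X) :
    w ∈ ball z (2 * c * s) ↔ Real.exp (-c ^ 2) < gw (s ^ 2) z w := by
  rw [gw, Real.exp_lt_exp, neg_lt_neg_iff, div_lt_iff₀ (by positivity), mem_ball',
    show c ^ 2 * (4 * s ^ 2) = (2 * c * s) ^ 2 by ring,
    sq_lt_sq₀ dist_nonneg (by positivity)]

theorem karamata_ind (iz : Integrable (gw t₀ z) ν) {s c : ℝ} (hs : 0 < s) (h1 : s ^ 2 ≤ t₀)
    (hc : 0 < c) : Integrable ((ball z (2 * c * s)).indicator (1 : X → ℝ)) ν := by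
  refine ((karamata_int' iz (pow_pos hs 2) h1).const_mul (Real.exp (c ^ 2))).mono'
    (aestronglyMeasurable_one.indicator measurableSet_ball) (ae_of_all _ fun w => ?_)
  by_cases hw : w ∈ ball z (2 * c * s)
  · rw [indicator_of_mem hw, Pi.one_apply, norm_one, ← inv_mul_le_iff₀ (Real.exp_pos _), mul_one,
      ← Real.exp_neg]
    exact ((karamata_ball hs hc z w).1 hw).le
  · rw [indicator_of_notMem hw, norm_zero]
    exact mul_nonneg (Real.exp_pos _).le (Real.exp_pos _).le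

theorem karamata_lower (hθ : 0 < θ) (ht₀ : 0 < t₀) (iz : Integrable (gw t₀ z) ν)
    (hz : Tendsto (fun t => Zf ν n t z) (𝓝[>] 0) (𝓝 θ)) :
    ∃ c > 0, ∀ᶠ r in 𝓝[>] (0 : ℝ), c ≤ ν.real (ball z r) / r ^ n := by
  obtain ⟨K, hK, h1⟩ : ∃ K > 0, Real.exp (-K ^ 2) * (Real.sqrt 2 ^ n) ^ 2 < 1 := by
    refine ⟨Real.sqrt 2 ^ n, by positivity, ?_⟩
    rw [Real.exp_neg, inv_mul_lt_one₀ (Real.exp_pos _)]
    linarith [Real.add_one_le_exp ((Real.sqrt 2 ^ n) ^ 2)]
  obtain ⟨η, hη⟩ : ∃ η, η = Real.sqrt (Real.exp (-K ^ 2)) := ⟨_, rfl⟩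
  have h2 : η ^ 2 = Real.exp (-K ^ 2) := hη ▸ Real.sq_sqrt (Real.exp_pos _).le
  have h3 : 0 ≤ η := hη ▸ Real.sqrt_nonneg _
  have h4 : η * Real.sqrt 2 ^ n < 1 := by
    rw [← h2, ← mul_pow] at h1
    exact lt_of_pow_lt_pow_left₀ 2 zero_le_one (by rwa [one_pow])
  have h5 := ((karamata_Z hz one_pos).sub
    ((karamata_Z hz (c := Real.sqrt 2) (by positivity)).const_mul η)).eventually_const_le
    (show θ * (1 - η * Real.sqrt 2 ^ n) / 2 < θ * 1 ^ n - η * (θ * Real.sqrt 2 ^ n) by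
      rw [one_pow]
      nlinarith [mul_pos hθ (sub_pos.2 h4)])
  have h6 : ∀ᶠ s in 𝓝[>] (0 : ℝ),
      θ * (1 - η * Real.sqrt 2 ^ n) / 2 ≤ ν.real (ball z (2 * K * s)) / s ^ n := by
    filter_upwards [h5, karamata_small ht₀ 1, karamata_small ht₀ (Real.sqrt 2)] with s h5 hs hs'
    rw [one_mul] at hs h5
    have hs0 := hs.1
    have i1 := karamata_int' iz (pow_pos hs.1 2) hs.2
    have i2 := (karamata_int' iz (by positivity) hs'.2).const_mul η
    refine h5.trans ?_
    rw [← mul_div_assoc, ← sub_div, ← integral_const_mul, ← integral_sub i1 i2,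
      ← integral_indicator_one measurableSet_ball]
    refine div_le_div_of_nonneg_right (integral_mono (i1.sub i2) (karamata_ind iz hs.1 hs.2 hK)
      fun w => ?_) (by positivity)
    have a1 := karamata_mem (sq_nonneg s) z w
    have a2 := karamata_mem (sq_nonneg (Real.sqrt 2 * s)) z w
    by_cases hw : w ∈ ball z (2 * K * s)
    · rw [indicator_of_mem hw, Pi.one_apply]
      nlinarith [a1.2, mul_nonneg h3 a2.1]
    · rw [indicator_of_notMem hw, sub_nonpos]
      have e : gw (s ^ 2) z w = gw ((Real.sqrt 2 * s) ^ 2) z w ^ 2 := by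
        rw [gw, gw, ← Real.exp_nat_mul, mul_pow, Real.sq_sqrt zero_le_two]
        congr 1
        push_cast
        field_simp
      rw [karamata_ball hs.1 hK, not_lt, ← h2, e] at hw
      rw [e, sq]
      exact mul_le_mul_of_nonneg_right ((sq_le_sq₀ a2.1 h3).1 hw) a2.1
  refine ⟨θ * (1 - η * Real.sqrt 2 ^ n) / 2 * (2 * K)⁻¹ ^ n, by
    have := sub_pos.2 h4
    positivity, ?_⟩
  filter_upwards [(karamata_scale (c := (2 * K)⁻¹) (by positivity)).eventually h6,
    eventually_mem_nhdsWithin] with r h (hr : 0 < r)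
  rw [mul_inv_cancel_left₀ (by positivity), mul_pow, le_div_iff₀ (by positivity)] at h
  rwa [le_div_iff₀ (by positivity), mul_assoc]

theorem karamata_two (hθ : 0 < θ) (ht₀ : 0 < t₀) {κ e : ℝ} (hκ : 1 < κ) (he : 0 < e) :
    ∃ a : ℝ, ∀ z : X, Integrable (gw t₀ z) ν → Tendsto (fun t => Zf ν n t z) (𝓝[>] 0) (𝓝 θ) →
      ∀ᶠ r in 𝓝[>] (0 : ℝ), 2 ^ n * (ν.real (ball z r) / r ^ n) ≤ a + e ∧
        a - e ≤ κ ^ n * (2 ^ n * (ν.real (ball z r) / r ^ n)) := by
  obtain ⟨α, hα⟩ : ∃ α, α = Real.exp (-κ ^ 2) := ⟨_, rfl⟩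
  obtain ⟨β, hβ⟩ : ∃ β, β = Real.exp (-1 ^ 2) := ⟨_, rfl⟩
  have h0 : 0 < α := hα ▸ Real.exp_pos _
  have h1 : α < β := by
    rw [hα, hβ, Real.exp_lt_exp]
    nlinarith
  have hF : Continuous fun u : ℝ => max 0 (min 1 ((u - α) / (β - α))) / max u α :=
    Continuous.div (by fun_prop) (by fun_prop) fun u => (h0.trans_le (le_max_right _ _)).ne'
  obtain ⟨a, ha⟩ := karamata_approx (ν := ν) (n := n) hθ ht₀ hF he
  refine ⟨a, fun z iz hz => ?_⟩
  have key : ∀ᶠ s in 𝓝[>] (0 : ℝ), ν.real (ball z (2 * 1 * s)) / s ^ n ≤ a + e ∧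
      a - e ≤ ν.real (ball z (2 * κ * s)) / s ^ n := by
    filter_upwards [ha z iz hz, karamata_small ht₀ 1] with s h2 hs
    rw [one_mul] at hs
    have hs0 := hs.1
    have i1 := karamata_int iz (pow_pos hs.1 2) hs.2 hF
    rw [abs_sub_le_iff, sub_le_iff_le_add', sub_le_comm] at h2
    simp only [← integral_indicator_one measurableSet_ball]
    refine ⟨le_trans (div_le_div_of_nonneg_right (integral_mono
      (karamata_ind iz hs.1 hs.2 one_pos) i1 fun w => ?_) (by positivity)) h2.1,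
      h2.2.trans (div_le_div_of_nonneg_right (integral_mono i1
      (karamata_ind iz hs.1 hs.2 (by linarith)) fun w => ?_) (by positivity))⟩
    · have a1 := (karamata_mem (sq_nonneg s) z w).1
      by_cases hw : w ∈ ball z (2 * 1 * s)
      · rw [indicator_of_mem hw]
        rw [karamata_ball hs.1 one_pos, ← hβ] at hw
        dsimp only
        rw [max_eq_left (h1.trans hw).le, mul_div_cancel₀ _ (h0.trans (h1.trans hw)).ne',
          min_eq_left ((one_le_div (sub_pos.2 h1)).2 (by linarith))]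
        exact le_max_right _ _
      · rw [indicator_of_notMem hw]
        positivity
    · by_cases hw : w ∈ ball z (2 * κ * s)
      · rw [indicator_of_mem hw]
        rw [karamata_ball hs.1 (by linarith), ← hα] at hw
        dsimp only
        rw [max_eq_left hw.le, mul_div_cancel₀ _ (h0.trans hw).ne']
        exact max_le zero_le_one (min_le_left _ _)
      · rw [indicator_of_notMem hw]
        rw [karamata_ball hs.1 (by linarith), ← hα, not_lt] at hw
        dsimp only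
        rw [max_eq_left ((min_le_right _ _).trans
          (div_nonpos_of_nonpos_of_nonneg (by linarith) (by linarith))), zero_div, mul_zero]
  filter_upwards [(karamata_scale (c := (2 * 1)⁻¹) (by positivity)).eventually key,
    (karamata_scale (c := (2 * κ)⁻¹) (by positivity)).eventually key,
    eventually_mem_nhdsWithin] with r h2 h3 (hr : 0 < r)
  rw [mul_inv_cancel_left₀ (by positivity)] at h2 h3
  refine ⟨le_of_eq_of_le ?_ h2.1, h3.2.trans (le_of_eq ?_)⟩
  · simp only [mul_one, mul_pow, inv_pow]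
    field_simp
  · simp only [mul_pow, inv_pow, mul_inv]
    field_simp

end

theorem karamata {X : Type} [MetricSpace X] [MeasurableSpace X] [BorelSpace X] (ν : Measure X)
    (n : ℕ) {x y : X} {θ t₀ : ℝ} (hθ : 0 < θ) (ht₀ : 0 < t₀)
    (ix : Integrable (gw t₀ x) ν) (iy : Integrable (gw t₀ y) ν)
    (hx : Tendsto (fun t => Zf ν n t x) (𝓝[>] 0) (𝓝 θ))
    (hy : Tendsto (fun t => Zf ν n t y) (𝓝[>] 0) (𝓝 θ)) :
    Tendsto (fun r => ν.real (ball x r) / ν.real (ball y r)) (𝓝[>] 0) (𝓝 1) := by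
  obtain ⟨c, hc, h1⟩ := karamata_lower hθ ht₀ iy hy
  have h2 : Tendsto (fun κ : ℝ => (κ ^ n + 2 * (κ - 1), (1 - 2 * (κ - 1)) / κ ^ n)) (𝓝[>] 1)
      (𝓝 (1 ^ n + 2 * (1 - 1), (1 - 2 * (1 - 1)) / 1 ^ n)) :=
    (ContinuousAt.tendsto (by fun_prop (disch := simp))).mono_left nhdsWithin_le_nhds
  simp only [one_pow, sub_self, mul_zero, add_zero, sub_zero, div_one] at h2
  have key : ∀ κ > 1, ∀ᶠ r in 𝓝[>] (0 : ℝ),
      ν.real (ball x r) / ν.real (ball y r) ≤ κ ^ n + 2 * (κ - 1) ∧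
        (1 - 2 * (κ - 1)) / κ ^ n ≤ ν.real (ball x r) / ν.real (ball y r) := fun κ hκ => by
    have hκ' := sub_pos.2 hκ
    obtain ⟨a, ha⟩ := karamata_two (ν := ν) (n := n) hθ ht₀ hκ (e := (κ - 1) * (2 ^ n * c))
      (by positivity)
    filter_upwards [h1, ha x ix hx, ha y iy hy, eventually_mem_nhdsWithin] with r h1 h2 h3
      (hr : 0 < r)
    have e : ν.real (ball x r) / ν.real (ball y r) =
        2 ^ n * (ν.real (ball x r) / r ^ n) / (2 ^ n * (ν.real (ball y r) / r ^ n)) := by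
      rw [mul_div_mul_left _ _ (by positivity), div_div_div_cancel_right₀ (by positivity)]
    have h4 : (2 : ℝ) ^ n * c ≤ 2 ^ n * (ν.real (ball y r) / r ^ n) := by gcongr
    have h5 : (0 : ℝ) < 2 ^ n * c := by positivity
    rw [e]
    generalize (2 : ℝ) ^ n * (ν.real (ball x r) / r ^ n) = u, (2 : ℝ) ^ n * c = c',
      (2 : ℝ) ^ n * (ν.real (ball y r) / r ^ n) = v at *
    have h6 := mul_le_mul_of_nonneg_left h4 hκ'.le
    rw [div_le_iff₀ (h5.trans_le h4), div_le_div_iff₀ (by positivity) (h5.trans_le h4)]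
    constructor <;> nlinarith [h2.1, h2.2, h3.1, h3.2]
  refine tendsto_order.2 ⟨fun b hb => ?_, fun b hb => ?_⟩
  · obtain ⟨κ, h3, h4⟩ := (((continuous_snd.tendsto _).comp h2).eventually_const_lt hb).and
      eventually_mem_nhdsWithin |>.exists
    exact (key κ h4).mono fun r h => lt_of_lt_of_le h3 h.2
  · obtain ⟨κ, h3, h4⟩ := (((continuous_fst.tendsto _).comp h2).eventually_lt_const hb).and
      eventually_mem_nhdsWithin |>.exists
    exact (key κ h4).mono fun r h => lt_of_le_of_lt h.1 h3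

end Pool.Agent.MP_3fc7f4_gt
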