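import Pool.Agent.MP_3fc7f4_gt.Heat
import Pool.Agent.MP_3fc7f4_gt.Cut

/-!
TASK Kernel.  Existence of the heat semigroup and of its kernel.

Hints.  V = the submodule of (M → ℝ) of the φ with g.Sm φ and HasCompactSupport φ;
ι φ = (g.memLp_of_cs ..).toLp φ, A φ = toLp (g.Δ φ) (g.sm_Δ, g.cs_Δ; linear by Δ_add, Δ_smul).
Symmetry and sign from g.ibp, g.Γ_symm, g.Γ_nonneg and inner_eq_integral.
Dense range: continuous compactly supported functions are dense in L²
(MemLp.exists_hasCompactSupport_eLpNorm_sub_le or Lp.boundedContinuousFunction..., the measure is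
regular on the proper space M), and g.approx approximates them uniformly with smaller support.
Take T from exists_semi.  For fixed j, t, a apply g.reg to u k = T (j+k) t a: there is a smooth
version S j t a of T j t a; it is unique (continuous functions that agree a.e. agree:
Continuous.ae_eq_iff_eq), hence linear in a.  For fixed x the functional a ↦ S j t a x is the
pointwise limit of the bounded functionals a ↦ (μ B_k)⁻¹ ⟪indicator B_k, T j t a⟫,
B_k = ball x (1/(k+1)) (indicatorConstLp; averages of a continuous function converge to its value),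
so it is bounded by Banach-Steinhaus (continuousLinearMapOfTendsto), and κ j t x is its Riesz
representative (InnerProductSpace.toDual).
lap: for φ in V, ∫ φ Δ(S j) = -∫ Γ φ (S j) = ∫ (S j) Δφ = ∫ (S (j+1)) φ by g.ibp and g.ibp_symm.
So w = Δ(S j) - S (j+1) is smooth with
∫ φ w = 0 for all test φ; take φ = χ² w (χ from g.exists_cutoff) to get w = 0.
test: ⟪T 1 t a, c⟫ = ⟪T 1 t c, ι φ⟫ = ⟪T 0 t c, A φ⟫ = ⟪T 0 t b, c⟫.
-/

open MeasureTheory Filter Topology Set
open scoped RealInnerProductSpace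

namespace Pool.Agent.MP_3fc7f4_gt

variable {M : Type} [MetricSpace M] [ProperSpace M] [MeasurableSpace M] [BorelSpace M]
  {μ : Measure M} [IsFiniteMeasureOnCompacts μ] [μ.IsOpenPosMeasure] {n : ℕ} {lam : ℝ}

/-- Smooth compactly supported functions. -/
def kernel_V (g : Geo M μ n lam) : Submodule ℝ (M → ℝ) where
  carrier := {φ | g.Sm φ ∧ HasCompactSupport φ}
  add_mem' := fun ha hb => ⟨g.sm_add ha.1 hb.1, ha.2.add hb.2⟩
  zero_mem' := ⟨g.sm_const 0, HasCompactSupport.zero⟩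
  smul_mem' := fun c _ ha => ⟨g.sm_smul c ha.1, ha.2.smul_left (f := fun _ => c)⟩

/-- The inclusion of test functions in L². -/
noncomputable def kernel_ι (g : Geo M μ n lam) : kernel_V g →ₗ[ℝ] Lp ℝ 2 μ where
  toFun φ := (g.memLp_of_cs φ.2.1 φ.2.2).toLp φ.1
  map_add' φ ψ := MemLp.toLp_add (g.memLp_of_cs φ.2.1 φ.2.2) (g.memLp_of_cs ψ.2.1 ψ.2.2)
  map_smul' c φ := MemLp.toLp_const_smul c (g.memLp_of_cs φ.2.1 φ.2.2)

/-- The Laplacian of test functions. -/
noncomputable def kernel_A (g : Geo M μ n lam) : kernel_V g →ₗ[ℝ] Lp ℝ 2 μ where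
  toFun φ := (g.memLp_of_cs (g.sm_Δ φ.2.1) (g.cs_Δ φ.2.2)).toLp (g.Δ φ.1)
  map_add' φ ψ := by
    rw [← MemLp.toLp_add]
    refine MemLp.toLp_congr _ _ (Eventually.of_forall fun x => ?_)
    exact g.Δ_add φ.2.1 ψ.2.1 x
  map_smul' c φ := by
    rw [RingHom.id_apply, ← MemLp.toLp_const_smul]
    refine MemLp.toLp_congr _ _ (Eventually.of_forall fun x => ?_)
    exact g.Δ_smul c φ.2.1 x

omit [ProperSpace M] [μ.IsOpenPosMeasure] in
theorem kernel_ι_ae (g : Geo M μ n lam) (φ : kernel_V g) : kernel_ι g φ =ᵐ[μ] φ.1 :=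
  MemLp.coeFn_toLp (g.memLp_of_cs φ.2.1 φ.2.2)

omit [ProperSpace M] [μ.IsOpenPosMeasure] in
theorem kernel_A_ae (g : Geo M μ n lam) (φ : kernel_V g) : kernel_A g φ =ᵐ[μ] g.Δ φ.1 :=
  MemLp.coeFn_toLp (g.memLp_of_cs (g.sm_Δ φ.2.1) (g.cs_Δ φ.2.2))

omit [ProperSpace M] [μ.IsOpenPosMeasure] in
theorem kernel_form (g : Geo M μ n lam) (v w : kernel_V g) :
    ⟪kernel_A g v, kernel_ι g w⟫ = -∫ x, g.Γ w.1 v.1 x ∂μ := by
  rw [inner_eq_integral (kernel_A_ae g v) (kernel_ι_ae g w), ← g.ibp w.2.1 w.2.2 v.2.1]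
  simp only [mul_comm]

omit [ProperSpace M] [μ.IsOpenPosMeasure] in
theorem kernel_symm (g : Geo M μ n lam) (v w : kernel_V g) :
    ⟪kernel_A g v, kernel_ι g w⟫ = ⟪kernel_ι g v, kernel_A g w⟫ := by
  rw [real_inner_comm (kernel_A g w), kernel_form, kernel_form]
  simp only [g.Γ_symm w.2.1 v.2.1]

omit [ProperSpace M] [μ.IsOpenPosMeasure] in
theorem kernel_neg (g : Geo M μ n lam) (v : kernel_V g) :
    ⟪kernel_A g v, kernel_ι g v⟫ ≤ 0 := by
  rw [kernel_form, neg_nonpos]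
  exact integral_nonneg fun x => g.Γ_nonneg v.2.1 x

omit [μ.IsOpenPosMeasure] in
theorem kernel_dense (g : Geo M μ n lam) : DenseRange (kernel_ι g) := by
  refine Metric.denseRange_iff.2 fun a ε hε => ?_
  have hε3 : 0 < ε / 3 := by positivity
  obtain ⟨k, kc, hk, kcont, kmem⟩ := (Lp.memLp a).exists_hasCompactSupport_eLpNorm_sub_le
    (p := 2) (by norm_num) (ε := ENNReal.ofReal (ε / 3)) (by simpa using hε3)
  have hK : MeasurableSet (tsupport k) := (isClosed_tsupport k).measurableSet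
  have hμK : μ (tsupport k) ≠ ⊤ := kc.isCompact.measure_lt_top.ne
  set C : ℝ := μ.real (tsupport k) ^ (1 / (2 : ENNReal).toReal) with hC
  have hC0 : 0 ≤ C := by positivity
  have hδ : 0 < ε / 3 / (C + 1) := by positivity
  obtain ⟨h, hsm, hh, hsupp⟩ := g.approx k kcont _ hδ
  have hcs : HasCompactSupport h := kc.mono hsupp
  refine ⟨⟨h, hsm, hcs⟩, ?_⟩
  have h1 : dist a (kmem.toLp k) ≤ ε / 3 := by
    rw [dist_eq_norm, Lp.norm_def]
    refine ENNReal.toReal_le_of_le_ofReal hε3.le (le_trans (le_of_eq ?_) hk)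
    refine eLpNorm_congr_ae ?_
    filter_upwards [Lp.coeFn_sub a (kmem.toLp k), kmem.coeFn_toLp] with x h1 h2
    rw [h1, Pi.sub_apply, Pi.sub_apply, h2]
  have h2 : dist (kmem.toLp k) (kernel_ι g ⟨h, hsm, hcs⟩) ≤ ε / 3 := by
    rw [dist_eq_norm]
    have : ‖kmem.toLp k - kernel_ι g ⟨h, hsm, hcs⟩‖ ≤
        ‖indicatorConstLp 2 hK hμK (ε / 3 / (C + 1))‖ := by
      refine Lp.norm_le_norm_of_ae_le ?_
      filter_upwards [Lp.coeFn_sub (kmem.toLp k) (kernel_ι g ⟨h, hsm, hcs⟩), kmem.coeFn_toLp,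
        kernel_ι_ae g ⟨h, hsm, hcs⟩,
        indicatorConstLp_coeFn (p := 2) (hs := hK) (hμs := hμK) (c := ε / 3 / (C + 1))]
        with x h1 h2 h3 h4
      rw [h1, Pi.sub_apply, h2, h3, h4]
      by_cases hx : x ∈ tsupport k
      · rw [indicator_of_mem hx, Real.norm_eq_abs, Real.norm_eq_abs, abs_of_pos hδ, abs_sub_comm]
        exact hh x
      · have e1 : k x = 0 := image_eq_zero_of_notMem_tsupport hx
        have e2 : h x = 0 := by
          by_contra hne
          exact hx (subset_tsupport k (hsupp hne))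
        simp [e1, e2]
    refine this.trans ?_
    rw [norm_indicatorConstLp (by norm_num) (by norm_num), ← hC, Real.norm_eq_abs, abs_of_pos hδ,
      div_mul_eq_mul_div, div_le_iff₀ (by positivity)]
    nlinarith
  linarith [dist_triangle a (kmem.toLp k) (kernel_ι g ⟨h, hsm, hcs⟩)]

/-- Averages of a continuous function over small balls converge to its value. -/
theorem kernel_avg {f : M → ℝ} (hf : Continuous f) (x : M) :
    Tendsto (fun k : ℕ => (μ.real (Metric.ball x (1 / ((k : ℝ) + 1))))⁻¹ *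
      ∫ y in Metric.ball x (1 / ((k : ℝ) + 1)), f y ∂μ) atTop (𝓝 (f x)) := by
  rw [Metric.tendsto_atTop]
  intro ε hε
  obtain ⟨δ, hδ, hd⟩ := Metric.continuous_iff.1 hf x (ε / 2) (half_pos hε)
  obtain ⟨N, hN⟩ := exists_nat_one_div_lt hδ
  refine ⟨N, fun k hk => ?_⟩
  have hr : (0 : ℝ) < 1 / ((k : ℝ) + 1) := Nat.one_div_pos_of_nat
  have hrδ : 1 / ((k : ℝ) + 1) < δ := (Nat.one_div_le_one_div hk).trans_lt hN
  set B := Metric.ball x (1 / ((k : ℝ) + 1)) with hB
  have hfin : μ B < ⊤ := measure_ball_lt_top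
  have hpos : 0 < μ.real B :=
    ENNReal.toReal_pos (Metric.measure_ball_pos μ x hr).ne' hfin.ne
  have hint : IntegrableOn f B μ :=
    (hf.continuousOn.integrableOn_compact (isCompact_closedBall x (1 / ((k : ℝ) + 1)))).mono_set
      Metric.ball_subset_closedBall
  have hc : IntegrableOn (fun _ => f x) B μ := integrableOn_const hfin.ne
  have key : ‖∫ y in B, (f y - f x) ∂μ‖ ≤ ε / 2 * μ.real B :=
    norm_setIntegral_le_of_norm_le_const hfin fun y hy => by
      rw [← dist_eq_norm]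
      exact (hd y ((Metric.mem_ball.1 hy).trans hrδ)).le
  rw [integral_sub hint hc, setIntegral_const, smul_eq_mul, Real.norm_eq_abs] at key
  have e : (μ.real B)⁻¹ * ∫ y in B, f y ∂μ - f x =
      (μ.real B)⁻¹ * (∫ y in B, f y ∂μ - μ.real B * f x) := by
    field_simp
  rw [Real.dist_eq, e, abs_mul, abs_of_pos (inv_pos.2 hpos), inv_mul_lt_iff₀ hpos]
  nlinarith

/-- Evaluation of the continuous version at a point is represented by an L² function. -/
theorem kernel_riesz (T : Lp ℝ 2 μ →L[ℝ] Lp ℝ 2 μ) (S : Lp ℝ 2 μ → M → ℝ)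
    (hc : ∀ a, Continuous (S a)) (hae : ∀ a, S a =ᵐ[μ] T a) (x : M) :
    ∃ κ : Lp ℝ 2 μ, ∀ a, ⟪κ, a⟫ = S a x := by
  let L : ℕ → Lp ℝ 2 μ →L[ℝ] ℝ := fun k =>
    (μ.real (Metric.ball x (1 / ((k : ℝ) + 1))))⁻¹ •
      (innerSL ℝ (indicatorConstLp 2 (s := Metric.ball x (1 / ((k : ℝ) + 1)))
        measurableSet_ball measure_ball_lt_top.ne (1 : ℝ))).comp T
  have hL : Tendsto (fun k a => L k a) atTop (𝓝 fun a => S a x) := by
    refine tendsto_pi_nhds.2 fun a => (kernel_avg (μ := μ) (hc a) x).congr fun k => ?_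
    simp only [L, smul_apply, ContinuousLinearMap.comp_apply, innerSL_apply_apply,
      smul_eq_mul, L2.inner_indicatorConstLp_one]
    rw [setIntegral_congr_ae measurableSet_ball ((hae a).mono fun y hy _ => hy)]
  refine ⟨(InnerProductSpace.toDual ℝ _).symm (continuousLinearMapOfTendsto L hL), fun a => ?_⟩
  rw [InnerProductSpace.toDual_symm_apply]
  rfl

/-- A smooth function orthogonal to all test functions vanishes. -/
theorem kernel_zero (g : Geo M μ n lam) {w : M → ℝ} (hw : g.Sm w)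
    (h0 : ∀ φ, g.Sm φ → HasCompactSupport φ → ∫ x, φ x * w x ∂μ = 0) (x : M) : w x = 0 := by
  obtain ⟨χ, hχ⟩ := g.exists_cutoff x
  obtain ⟨hs, hc, -, h1, -⟩ := hχ 1
  have hφ : g.Sm fun y => χ 1 y * (χ 1 y * w y) := g.sm_mul hs (g.sm_mul hs hw)
  have hφc : HasCompactSupport fun y => χ 1 y * (χ 1 y * w y) := hc.mul_right
  have hq : g.Sm fun y => (χ 1 y * w y) ^ 2 := g.sm_sq (g.sm_mul hs hw)
  have e : (fun y => (χ 1 y * w y) ^ 2) = fun y => χ 1 y * (χ 1 y * w y * w y) := by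
    funext y; ring
  have hqc : HasCompactSupport fun y => (χ 1 y * w y) ^ 2 := by
    rw [e]; exact hc.mul_right
  have hi : ∫ y, (χ 1 y * w y) ^ 2 ∂μ = 0 := by
    rw [← h0 _ hφ hφc]
    refine integral_congr_ae (Eventually.of_forall fun y => ?_)
    ring
  have hz := (integral_eq_zero_iff_of_nonneg (fun y => sq_nonneg (χ 1 y * w y))
    (g.integrable_of_cs hq hqc)).1 hi
  have hz' := congrFun (((g.cont hq).ae_eq_iff_eq μ continuous_zero).1 hz) x
  have hx : χ 1 x = 1 := h1 x (Metric.mem_ball_self (by norm_num))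
  simpa [hx] using hz'

theorem exists_heat (g : Geo M μ n lam) : Nonempty (Heat g) := by
  obtain ⟨T, hT, hw⟩ := exists_semi (kernel_ι g) (kernel_A g) (kernel_dense g) (kernel_symm g)
    (kernel_neg g)
  have hweak : ∀ j t, 0 < t → ∀ a φ, g.Sm φ → HasCompactSupport φ →
      ∫ x, T j t a x * g.Δ φ x ∂μ = ∫ x, T (j + 1) t a x * φ x ∂μ := fun j t ht a φ h1 h2 => by
    rw [← inner_eq_integral (ae_eq_refl _) (kernel_A_ae g ⟨φ, h1, h2⟩),
      ← inner_eq_integral (ae_eq_refl _) (kernel_ι_ae g ⟨φ, h1, h2⟩)]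
    exact hw j t ht a _
  have hS : ∀ j t a, ∃ f : M → ℝ, 0 < t → g.Sm f ∧ f =ᵐ[μ] T j t a := fun j t a => by
    by_cases ht : 0 < t
    · obtain ⟨f, hf⟩ := g.reg (fun k => T (j + k) t a) (fun k => Lp.memLp _)
        fun k φ h1 h2 => hweak (j + k) t ht a φ h1 h2
      exact ⟨f, fun _ => hf⟩
    · exact ⟨0, fun h => absurd h ht⟩
  choose S hS using hS
  have hκ : ∀ j t x, ∃ κ : Lp ℝ 2 μ, 0 < t → ∀ a, ⟪κ, a⟫ = S j t a x := fun j t x => by
    by_cases ht : 0 < t
    · obtain ⟨κ, hκ⟩ := kernel_riesz (T j t) (S j t) (fun a => g.cont (hS j t a ht).1)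
        (fun a => (hS j t a ht).2) x
      exact ⟨κ, fun _ => hκ⟩
    · exact ⟨0, fun h => absurd h ht⟩
  choose κ hκ using hκ
  have hκ' : ∀ j t, 0 < t → ∀ a, (fun x => ⟪κ j t x, a⟫) = S j t a := fun j t ht a =>
    funext fun x => hκ j t x ht a
  refine ⟨⟨T, κ, hT, fun j t ht a => ?_, fun j t ht a => ?_, fun j t ht a x => ?_,
    fun t ht φ h1 h2 a b ha hb => ?_⟩⟩
  · rw [hκ' j t ht]; exact (hS j t a ht).1
  · rw [hκ' j t ht]; exact (hS j t a ht).2
  · rw [hκ' j t ht, hκ (j + 1) t x ht, ← sub_eq_zero]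
    obtain ⟨s0, a0⟩ := hS j t a ht
    obtain ⟨s1, a1⟩ := hS (j + 1) t a ht
    refine kernel_zero g (g.sm_sub (g.sm_Δ s0) s1) (fun φ h1 h2 => ?_) x
    have i1 : Integrable (fun y => φ y * g.Δ (S j t a) y) μ :=
      g.integrable_of_cs (g.sm_mul h1 (g.sm_Δ s0)) h2.mul_right
    have i2 : Integrable (fun y => φ y * S (j + 1) t a y) μ :=
      g.integrable_of_cs (g.sm_mul h1 s1) h2.mul_right
    simp only [mul_sub]
    rw [integral_sub i1 i2, g.ibp h1 h2 s0, sub_eq_zero]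
    have e1 : ∫ y, S j t a y * g.Δ φ y ∂μ = ∫ y, T j t a y * g.Δ φ y ∂μ :=
      integral_congr_ae (a0.mono fun y hy => by simp only [hy])
    have e2 : ∫ y, φ y * S (j + 1) t a y ∂μ = ∫ y, T (j + 1) t a y * φ y ∂μ :=
      integral_congr_ae (a1.mono fun y hy => by simp only [hy, mul_comm])
    rw [e2, ← hweak j t ht a φ h1 h2, ← e1, g.ibp_symm h1 h2 s0]
    simp only [g.Γ_symm h1 s0]
  · have ea : a = kernel_ι g ⟨φ, h1, h2⟩ := Lp.ext (ha.trans (kernel_ι_ae g ⟨φ, h1, h2⟩).symm)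
    have eb : b = kernel_A g ⟨φ, h1, h2⟩ := Lp.ext (hb.trans (kernel_A_ae g ⟨φ, h1, h2⟩).symm)
    refine ext_inner_right ℝ fun c => ?_
    rw [hT.symm 1 t ht, hT.symm 0 t ht, real_inner_comm, real_inner_comm (T 0 t c), ea, eb]
    exact (hw 0 t ht c _).symm

end Pool.Agent.MP_3fc7f4_gt
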