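import Pool.Agent.MP_3fc7f4_gt.Ent

/-!
TASK Key.  The entropy along an almost minimising curve.

step_t: F τ = N η t (c τ) + β U 0 t b (c τ).  At τ let D₁, D₂ be the derivatives (hc.der) of
s ↦ U 0 t (nem η (κ 0 t (c τ))) (c s) and of s ↦ U 0 t b (c s); by N_curve F' = D₁ + β D₂, and by
uniqueness of derivatives (U_add, U_smul) this is the derivative D of
s ↦ U 0 t (nem η (κ 0 t (c τ)) + β • b) (c s), so D² ≤ A² Γ with Γ bounded by BL_ent.  Then
D ≥ -(A β/2 + A Γ/(2 β)) (from D² ≤ A² Γ: |D| ≤ A √Γ ≤ A (β + Γ/β)/2).  Integrate over [0,1]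
(intervalIntegral.integral_le_sub_of_hasDeriv_right_of_le or the version for -F; the lower bound
is continuous in τ by I_cont).
exists_good_time: take β = b₀/t and E' = exp (2 lam t) ≤ E in step_t.  By BL_ent with β = 0,
0 ≤ E' n/(2t) - I η t z, so E' (E' n/(2t) - I) ≤ E (E n/(2t) - I).  Divide by t and integrate over
[t₁, t₂].  The double
integral of the continuous function (t, τ) ↦ E n/(2t) - I η t (c τ) is swapped
(MeasureTheory.integral_integral_swap or intervalIntegral_swap-type lemmas), and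
∫ (E n/(2t) - I η t z) dt = E (n/2) log (t₂/t₁) + N η t₂ z - N η t₁ z by N_time.
If the conclusion failed for every t in [t₁, t₂], integrating the strict inequality between
continuous functions against dt/t gives a contradiction (∫ dt/t = log (t₂/t₁) > 0).
Note (b₀/t²)(-θ₀ - θ₁ t) ≥ (1/t)(-b₀ θ₀/t₁ - b₀ θ₁).
-/

open MeasureTheory Filter Topology Set
open scoped RealInnerProductSpace

namespace Pool.Agent.MP_3fc7f4_gt.Heat

variable {M : Type} [MetricSpace M] [ProperSpace M] [MeasurableSpace M] [BorelSpace M]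
  {μ : Measure M} [IsFiniteMeasureOnCompacts μ] [μ.IsOpenPosMeasure] {n : ℕ} {lam : ℝ}
  {g : Geo M μ n lam} (h : Heat g)

omit [ProperSpace M] [MeasurableSpace M] [BorelSpace M] in
theorem key_cont {Sm : (M → ℝ) → Prop} {Γ : (M → ℝ) → (M → ℝ) → M → ℝ} {c : ℝ → M} {A : ℝ}
    (hc : IsCurve Sm Γ c A) : Continuous c := by
  have : LipschitzWith (Real.toNNReal A) c := LipschitzWith.of_dist_le_mul fun a b => by
    rw [Real.coe_toNNReal _ hc.nonneg, Real.dist_eq]; exact hc.lip a b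
  exact this.continuous

theorem key_lower {A β D G : ℝ} (hA : 0 ≤ A) (hβ : 0 < β) (hD : D ^ 2 ≤ A ^ 2 * G) (hG : 0 ≤ G) :
    -(A * β / 2 + A * G / (2 * β)) ≤ D := by
  have h1 : 0 ≤ A * β / 2 + A * G / (2 * β) := by positivity
  have h2 : D ^ 2 ≤ (A * β / 2 + A * G / (2 * β)) ^ 2 := by
    have h3 : (A * β / 2 + A * G / (2 * β)) ^ 2 =
        A ^ 2 * G + (A * β / 2 - A * G / (2 * β)) ^ 2 := by
      field_simp
      ring
    rw [h3]
    nlinarith [sq_nonneg (A * β / 2 - A * G / (2 * β))]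
  exact (abs_le_of_sq_le_sq' h2 h1).1

theorem key_I_cont {η : ℝ} (hη : 0 < η) {α : Type} [TopologicalSpace α] {u : α → ℝ} {c : α → M}
    (hu : Continuous u) (hp : ∀ x, 0 < u x) (hc : Continuous c) :
    Continuous fun x => h.I η (u x) (c x) :=
  (h.I_cont hη).comp_continuous (f := fun x => (u x, c x)) (hu.prodMk hc)
    fun x => ⟨hp x, mem_univ _⟩

theorem step_t {η t : ℝ} (hη : 0 < η) (ht : 0 < t) {c : ℝ → M} {A : ℝ}
    (hc : IsCurve g.Sm g.Γ c A) {h₀ : M → ℝ} (hs : g.Sm h₀) (hcs : HasCompactSupport h₀)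
    {b : Lp ℝ 2 μ} (hb : b =ᵐ[μ] h₀) {β E l K : ℝ} (hβ : 0 < β)
    (hE : Real.exp (2 * lam * t) ≤ E) (hl : ∀ y, g.Γ h₀ h₀ y ≤ l ^ 2)
    (hK : ∀ y, |g.Δ h₀ y| ≤ K) :
    β * (h.U 0 t b (c 0) - h.U 0 t b (c 1) - A / 2 - A * E * l ^ 2 / 2) -
        A * E / (2 * β) * (∫ τ in (0 : ℝ)..1, (E * n / (2 * t) - h.I η t (c τ))) -
        2 * A * E * K * Real.sqrt (η * μ.real (tsupport h₀)) ≤
      h.N η t (c 1) - h.N η t (c 0) := by
  have hcc := key_cont hc
  have hA := hc.nonneg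
  have hIc : Continuous fun τ => h.I η t (c τ) :=
    h.key_I_cont hη continuous_const (fun _ => ht) hcc
  set S := Real.sqrt (η * μ.real (tsupport h₀)) with hS
  have hder : ∀ τ, ∃ D, HasDerivAt (fun s => h.N η t (c s) + β * h.U 0 t b (c s)) D τ ∧
      -(A * β / 2 + 2 * A * E * K * S + A * E * β * l ^ 2 / 2) -
        A * E / (2 * β) * (E * n / (2 * t) - h.I η t (c τ)) ≤ D := fun τ => by
    obtain ⟨D₁, hD₁, -⟩ := hc.der _ (h.sm_U 0 ht (nem η (h.κ 0 t (c τ)))) τ
    obtain ⟨D₂, hD₂, -⟩ := hc.der _ (h.sm_U 0 ht b) τ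
    obtain ⟨D, hD, hD2⟩ := hc.der _ (h.sm_U 0 ht (nem η (h.κ 0 t (c τ)) + β • b)) τ
    have hN := h.N_curve hη ht hc.lip hD₁
    have hD' : HasDerivAt (fun s => h.U 0 t (nem η (h.κ 0 t (c τ)) + β • b) (c s))
        (D₁ + β * D₂) τ := by
      rw [h.U_add, h.U_smul]
      exact hD₁.add (hD₂.const_mul β)
    have he : D = D₁ + β * D₂ := hD.unique hD'
    refine ⟨D₁ + β * D₂, hN.add (hD₂.const_mul β), ?_⟩
    rw [← he]
    have hG := h.BL_ent hη ht (c τ) hs hcs hb (β := β) hE hl hK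
    have hG0 := g.Γ_nonneg (h.sm_U 0 ht (nem η (h.κ 0 t (c τ)) + β • b)) (c τ)
    have h1 := key_lower hA hβ (hD2.trans (mul_le_mul_of_nonneg_left hG (sq_nonneg _)))
      (hG0.trans hG)
    refine le_trans (le_of_eq ?_) h1
    rw [abs_of_pos hβ]
    field_simp
    ring
  choose D hD using hder
  have hφc : Continuous fun τ => -(A * β / 2 + 2 * A * E * K * S + A * E * β * l ^ 2 / 2) -
      A * E / (2 * β) * (E * n / (2 * t) - h.I η t (c τ)) :=
    continuous_const.sub (continuous_const.mul (continuous_const.sub hIc))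
  have key := intervalIntegral.integral_le_sub_of_hasDeriv_right_of_le (a := 0) (b := 1)
    (g := fun s => h.N η t (c s) + β * h.U 0 t b (c s)) (g' := D) zero_le_one
    (fun τ _ => (hD τ).1.continuousAt.continuousWithinAt)
    (fun τ _ => (hD τ).1.hasDerivWithinAt) hφc.integrableOn_Icc (fun τ _ => (hD τ).2)
  have hψc : Continuous fun τ => A * E / (2 * β) * (E * n / (2 * t) - h.I η t (c τ)) :=
    continuous_const.mul (continuous_const.sub hIc)
  rw [intervalIntegral.integral_sub intervalIntegrable_const (hψc.intervalIntegrable _ _),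
    intervalIntegral.integral_const_mul, intervalIntegral.integral_const] at key
  simp only [sub_zero, smul_eq_mul, one_mul] at key
  linarith

theorem key_nonneg {η t : ℝ} (hη : 0 < η) (ht : 0 < t) (z : M) :
    0 ≤ Real.exp (2 * lam * t) * n / (2 * t) - h.I η t z := by
  have hG := h.BL_ent hη ht z (h₀ := fun _ => 0) (g.sm_const 0) HasCompactSupport.zero
    (b := 0) (Lp.coeFn_zero _ _ _) (β := 0) (E := Real.exp (2 * lam * t)) (l := 0) (K := 0)
    le_rfl (fun y => by rw [g.Γ_const 0 (g.sm_const 0)]; simp)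
    (fun y => by rw [g.Δ_const]; simp)
  have hG0 := g.Γ_nonneg (h.sm_U 0 ht (nem η (h.κ 0 t z) + (0 : ℝ) • (0 : Lp ℝ 2 μ))) z
  have h1 := hG0.trans hG
  simp only [abs_zero, mul_zero, zero_mul, add_zero, sq] at h1
  exact nonneg_of_mul_nonneg_right h1 (Real.exp_pos _)

theorem key_swap {f : ℝ → ℝ → ℝ} (hf : Continuous (Function.uncurry f)) {a b : ℝ} (hab : a ≤ b) :
    ∫ x in a..b, ∫ y in (0 : ℝ)..1, f x y = ∫ y in (0 : ℝ)..1, ∫ x in a..b, f x y := by
  simp only [intervalIntegral.integral_of_le hab, intervalIntegral.integral_of_le zero_le_one]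
  refine integral_integral_swap ?_
  rw [Measure.prod_restrict]
  exact (hf.continuousOn.integrableOn_compact (isCompact_Icc.prod isCompact_Icc)).mono_set
    (prod_mono Ioc_subset_Icc_self Ioc_subset_Icc_self)

theorem key_time {η t₁ t₂ E : ℝ} (hη : 0 < η) (ht₁ : 0 < t₁) (ht : t₁ ≤ t₂) (z : M) :
    ∫ t in t₁..t₂, (E * n / (2 * max t t₁) - h.I η (max t t₁) z) =
      E * (n / 2) * Real.log (t₂ / t₁) + h.N η t₂ z - h.N η t₁ z := by
  have hp : ∀ t : ℝ, 0 < max t t₁ := fun t => lt_max_of_lt_right ht₁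
  have hm : Continuous fun t : ℝ => max t t₁ := continuous_id.max continuous_const
  have hcont : Continuous fun t : ℝ => E * n / (2 * max t t₁) - h.I η (max t t₁) z :=
    (continuous_const.div (continuous_const.mul hm) fun t => (mul_pos two_pos (hp t)).ne').sub
      (h.key_I_cont hη hm hp continuous_const)
  rw [intervalIntegral.integral_eq_sub_of_hasDerivAt
    (f := fun t => E * (n / 2) * Real.log t + h.N η t z) ?_ (hcont.intervalIntegrable _ _)]
  · rw [Real.log_div (ht₁.trans_le ht).ne' ht₁.ne']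
    ring
  · intro t ht'
    rw [uIcc_of_le ht] at ht'
    have htp : 0 < t := ht₁.trans_le ht'.1
    rw [max_eq_left ht'.1]
    have := ((Real.hasDerivAt_log htp.ne').const_mul (E * (n / 2))).add (h.N_time hη htp z)
    have he : E * n / (2 * t) - h.I η t z = E * (n / 2) * t⁻¹ + -h.I η t z := by
      field_simp
      ring
    rw [he]
    exact this

theorem key_avg {η t₁ t₂ E B : ℝ} (hη : 0 < η) (ht₁ : 0 < t₁) (ht : t₁ < t₂) {c : ℝ → M}
    (hcc : Continuous c) (hB : ∀ τ ∈ Icc (0 : ℝ) 1,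
      E * (n / 2) * Real.log (t₂ / t₁) + h.N η t₂ (c τ) - h.N η t₁ (c τ) ≤ B) :
    ∃ t ∈ Icc t₁ t₂, t * (∫ τ in (0 : ℝ)..1, (E * n / (2 * t) - h.I η t (c τ))) ≤
      B / Real.log (t₂ / t₁) := by
  have hp : ∀ t : ℝ, 0 < max t t₁ := fun t => lt_max_of_lt_right ht₁
  have hm : Continuous fun t : ℝ => max t t₁ := continuous_id.max continuous_const
  set f : ℝ → ℝ → ℝ := fun t τ => E * n / (2 * max t t₁) - h.I η (max t t₁) (c τ) with hf
  have hfc : Continuous (Function.uncurry f) :=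
    (continuous_const.div (continuous_const.mul (hm.comp continuous_fst))
      fun q => (mul_pos two_pos (hp q.1)).ne').sub
      (h.key_I_cont hη (hm.comp continuous_fst) (fun q => hp q.1) (hcc.comp continuous_snd))
  have hj : Continuous fun t => ∫ τ in (0 : ℝ)..1, f t τ :=
    intervalIntegral.continuous_parametric_intervalIntegral_of_continuous' hfc 0 1
  have hL : 0 < Real.log (t₂ / t₁) := Real.log_pos ((one_lt_div ht₁).2 ht)
  obtain ⟨s, hs, hmin⟩ := isCompact_Icc.exists_isMinOn (nonempty_Icc.2 ht.le)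
    (continuous_id.mul hj).continuousOn
  refine ⟨s, hs, ?_⟩
  have hs' : (∫ τ in (0 : ℝ)..1, (E * n / (2 * s) - h.I η s (c τ))) =
      ∫ τ in (0 : ℝ)..1, f s τ := by
    simp only [hf, max_eq_left hs.1]
  rw [hs', le_div_iff₀ hL]
  set m := s * ∫ τ in (0 : ℝ)..1, f s τ with hmdef
  have h1 : m * Real.log (t₂ / t₁) = ∫ t in t₁..t₂, m * t⁻¹ := by
    rw [intervalIntegral.integral_const_mul, integral_inv_of_pos ht₁ (ht₁.trans ht)]
  have h2 : ∫ t in t₁..t₂, m * t⁻¹ ≤ ∫ t in t₁..t₂, ∫ τ in (0 : ℝ)..1, f t τ := by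
    refine intervalIntegral.integral_mono_on ht.le ?_ (hj.intervalIntegrable _ _) ?_
    · refine ContinuousOn.intervalIntegrable ?_
      rw [uIcc_of_le ht.le]
      exact continuousOn_const.mul
        (continuousOn_id.inv₀ fun t ht' => (ht₁.trans_le ht'.1).ne')
    · intro t ht'
      have htp : 0 < t := ht₁.trans_le ht'.1
      have h3 : m ≤ t * ∫ τ in (0 : ℝ)..1, f t τ := hmin ht'
      rw [← div_eq_mul_inv, div_le_iff₀ htp, mul_comm]
      exact h3
  have h3 : ∫ τ in (0 : ℝ)..1, ∫ t in t₁..t₂, f t τ ≤ ∫ _ in (0 : ℝ)..1, B := by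
    refine intervalIntegral.integral_mono_on zero_le_one ?_ intervalIntegrable_const ?_
    · refine Continuous.intervalIntegrable ?_ _ _
      exact intervalIntegral.continuous_parametric_intervalIntegral_of_continuous'
        (f := fun τ t => f t τ) (hfc.comp continuous_swap) t₁ t₂
    · intro τ hτ
      rw [hf]
      simp only []
      rw [h.key_time hη ht₁ ht.le]
      exact hB τ hτ
  rw [key_swap hfc ht.le] at h2
  simp only [intervalIntegral.integral_const, sub_zero, smul_eq_mul, one_mul] at h3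
  linarith

theorem exists_good_time {η t₁ t₂ : ℝ} (hη : 0 < η) (ht₁ : 0 < t₁) (ht : t₁ < t₂) {c : ℝ → M}
    {A : ℝ} (hc : IsCurve g.Sm g.Γ c A) {h₀ : M → ℝ} (hs : g.Sm h₀)
    (hcs : HasCompactSupport h₀) {b : Lp ℝ 2 μ} (hb : b =ᵐ[μ] h₀) {b₀ E l K θ₀ θ₁ B : ℝ}
    (hb₀ : 0 < b₀) (hE : Real.exp (2 * lam * t₂) ≤ E) (hl : ∀ y, g.Γ h₀ h₀ y ≤ l ^ 2)
    (hK : ∀ y, |g.Δ h₀ y| ≤ K) (hθ₀ : 0 ≤ θ₀)
    (hθ : ∀ t ∈ Icc t₁ t₂,
      -θ₀ - θ₁ * t ≤
        h.U 0 t b (c 0) - h.U 0 t b (c 1) - A / 2 - A * Real.exp (2 * lam * t) * l ^ 2 / 2)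
    (hB : ∀ τ ∈ Icc (0 : ℝ) 1,
      E * (n / 2) * Real.log (t₂ / t₁) + h.N η t₂ (c τ) - h.N η t₁ (c τ) ≤ B) :
    ∃ t ∈ Icc t₁ t₂, -(b₀ * θ₀ / t₁) - b₀ * θ₁ - A * E * B / (2 * b₀ * Real.log (t₂ / t₁)) -
        2 * A * E * K * Real.sqrt (η * μ.real (tsupport h₀)) ≤
      h.N η t (c 1) - h.N η t (c 0) := by
  have hcc := key_cont hc
  have hA := hc.nonneg
  obtain ⟨t, htI, hav⟩ := h.key_avg hη ht₁ ht hcc hB
  refine ⟨t, htI, ?_⟩
  have htp : 0 < t := ht₁.trans_le htI.1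
  have hE' : Real.exp (2 * lam * t) ≤ E :=
    (Real.exp_le_exp.2 (mul_le_mul_of_nonneg_left htI.2
      (mul_nonneg zero_le_two g.lam_nonneg))).trans hE
  have hstep := h.step_t hη htp hc hs hcs hb (β := b₀ / t) (div_pos hb₀ htp) le_rfl hl hK
  refine le_trans ?_ hstep
  set E' := Real.exp (2 * lam * t) with hE'def
  have hE'p : 0 < E' := Real.exp_pos _
  have hK0 : 0 ≤ K := (abs_nonneg _).trans (hK (c 0))
  have hIc : Continuous fun τ => h.I η t (c τ) :=
    h.key_I_cont hη continuous_const (fun _ => htp) hcc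
  set S := Real.sqrt (η * μ.real (tsupport h₀)) with hS
  have hS0 : 0 ≤ S := Real.sqrt_nonneg _
  have hL : 0 < Real.log (t₂ / t₁) := Real.log_pos ((one_lt_div ht₁).2 ht)
  have h1 : -(b₀ * θ₀ / t₁) - b₀ * θ₁ ≤
      b₀ / t * (h.U 0 t b (c 0) - h.U 0 t b (c 1) - A / 2 - A * E' * l ^ 2 / 2) := by
    refine le_trans ?_ (mul_le_mul_of_nonneg_left (hθ t htI) (div_pos hb₀ htp).le)
    have h2 : b₀ * θ₀ / t ≤ b₀ * θ₀ / t₁ :=
      div_le_div_of_nonneg_left (mul_nonneg hb₀.le hθ₀) ht₁ htI.1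
    have h3 : b₀ / t * (-θ₀ - θ₁ * t) = -(b₀ * θ₀ / t) - b₀ * θ₁ := by
      field_simp
    rw [h3]
    linarith
  have h2 : 2 * A * E' * K * S ≤ 2 * A * E * K * S := by gcongr
  have h3 : E' * (∫ τ in (0 : ℝ)..1, (E' * n / (2 * t) - h.I η t (c τ))) ≤
      E * ∫ τ in (0 : ℝ)..1, (E * n / (2 * t) - h.I η t (c τ)) := by
    rw [← intervalIntegral.integral_const_mul, ← intervalIntegral.integral_const_mul]
    refine intervalIntegral.integral_mono_on zero_le_one
      ((continuous_const.mul (continuous_const.sub hIc)).intervalIntegrable _ _)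
      ((continuous_const.mul (continuous_const.sub hIc)).intervalIntegrable _ _) fun τ _ => ?_
    have h4 := h.key_nonneg hη htp (c τ)
    have h5 : E' * n / (2 * t) ≤ E * n / (2 * t) := by gcongr
    exact mul_le_mul hE' (by linarith) h4 (hE'p.le.trans hE')
  set J' := ∫ τ in (0 : ℝ)..1, (E' * n / (2 * t) - h.I η t (c τ)) with hJ'
  set J := ∫ τ in (0 : ℝ)..1, (E * n / (2 * t) - h.I η t (c τ)) with hJ
  have h4 : A * E' / (2 * (b₀ / t)) * J' ≤ A * E * B / (2 * b₀ * Real.log (t₂ / t₁)) := by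
    have h5 : A * E' / (2 * (b₀ / t)) * J' = A * t / (2 * b₀) * (E' * J') := by
      field_simp
    have h6 : A * E * B / (2 * b₀ * Real.log (t₂ / t₁)) =
        A * E / (2 * b₀) * (B / Real.log (t₂ / t₁)) := by
      field_simp
    have h7 : A * t / (2 * b₀) * (E * J) = A * E / (2 * b₀) * (t * J) := by ring
    have hE0 : 0 ≤ E := hE'p.le.trans hE'
    rw [h5, h6]
    refine (mul_le_mul_of_nonneg_left h3 (by positivity)).trans ?_
    rw [h7]
    exact mul_le_mul_of_nonneg_left hav (by positivity)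
  linarith

end Pool.Agent.MP_3fc7f4_gt.Heat
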