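import Pool.Agent.MP_3fc7f4_gt.BL

/-!
TASK Moment.  Total mass one and the sharp second moment bound.

abs_U_sub_le: ∂ₜ U 0 t a x = U 1 t a x = U 0 t b x (U_one_test, b = toLp Δφ) is bounded by K
(abs_U_le), so |U 0 t a - U 0 s a| ≤ K (t - s) everywhere; T 0 s a → a in L² as s → 0, so along a
subsequence a.e. (or test against indicators), giving |U 0 t a - φ| ≤ K t a.e., hence everywhere
by continuity (IsOpenPosMeasure).
integrable_p: ∫ p χ k ≤ 1 (U_le) for the cutoffs, Fatou.  So ∫ p ≤ 1.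
integral_p: BL_test for χ k gives (2 s/n) (U 1 s)² ≤ exp(2 lam s)/(k+1)², so
|U 0 t χ x - U 0 s χ x| ≤ C (√t - √s)/(k+1) (compare derivatives: monotonicity of
± U 0 s χ x + c √s), and U 0 s χ x → χ x = 1 as s → 0 by abs_U_sub_le.
moment: fix R, ε > 0; f₀ = max (R - dist x ·) 0, h₀ from g.lipApprox f₀ ε, f = R - h₀,
φ = h₀² - 2 R h₀ = f² - R² is a test function with Γ φ φ = 4 f² Γ h₀ h₀ ≤ 4 (1+ε)² f².
V s z = R² + U 0 s (toLp φ) z = ∫ p s z * f² ≥ 0.  Along the path τ ↦ (t τ², c τ), c from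
g.curve x y ε with speed A = dist x y + ε, path_deriv gives V' = 2 t τ U1 + D with D² ≤ A² Γ, and
Cauchy-Schwarz with BL_test at time α = t τ² ≤ t gives
|V'| ≤ √(A² + 2 n t) √(Γ + (2α/n) U1²) ≤ √(A² + 2 n t) exp(lam t) 2 (1+ε) √V.
So √(V + δ) has derivative ≤ √(A² + 2 n t) exp(lam t) (1+ε) on (0,1], and V → f(x)² ≤ ε² as τ → 0
(abs_U_sub_le and continuity).  Since min (dist x z) R ≤ |f z| + ε,
∫ p min(d,R)² ≤ (1+θ) V + (1+1/θ) ε².  Let δ, ε, θ → 0 and then R → ∞ (Fatou / monotone convergence).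
first_moment: 2 d ≤ d²/K + K pointwise with K = the square root on the right.
-/

open MeasureTheory Filter Topology Set
open scoped RealInnerProductSpace

namespace Pool.Agent.MP_3fc7f4_gt.Heat

variable {M : Type} [MetricSpace M] [ProperSpace M] [MeasurableSpace M] [BorelSpace M]
  {μ : Measure M} [IsFiniteMeasureOnCompacts μ] [μ.IsOpenPosMeasure] {n : ℕ} {lam : ℝ}
  {g : Geo M μ n lam} (h : Heat g)

omit [MetricSpace M] [ProperSpace M] [BorelSpace M] [IsFiniteMeasureOnCompacts μ]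
  [μ.IsOpenPosMeasure] in
theorem moment_fatou {F : ℕ → M → ℝ} {f : M → ℝ} {C : ℝ} (hF : ∀ k, Integrable (F k) μ)
    (h0 : ∀ k y, 0 ≤ F k y) (hl : ∀ y, Tendsto (fun k => F k y) atTop (𝓝 (f y)))
    (hC : ∀ k, ∫ y, F k y ∂μ ≤ C) : Integrable f μ ∧ ∫ y, f y ∂μ ≤ C := by
  have hC0 : 0 ≤ C := (integral_nonneg (h0 0)).trans (hC 0)
  have hf0 : ∀ y, 0 ≤ f y := fun y => ge_of_tendsto' (hl y) fun k => h0 k y
  have hm : AEStronglyMeasurable f μ :=
    aestronglyMeasurable_of_tendsto_ae atTop (fun k => (hF k).1) (Eventually.of_forall hl)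
  have h1 : ∫⁻ y, ENNReal.ofReal (f y) ∂μ ≤ ENNReal.ofReal C := by
    have e : ∀ y, ENNReal.ofReal (f y) = liminf (fun k => ENNReal.ofReal (F k y)) atTop :=
      fun y => ((ENNReal.continuous_ofReal.tendsto _).comp (hl y)).liminf_eq.symm
    simp_rw [e]
    refine (lintegral_liminf_le' fun k => (hF k).1.aemeasurable.ennreal_ofReal).trans ?_
    refine liminf_le_of_frequently_le' (Frequently.of_forall fun k => ?_)
    rw [← ofReal_integral_eq_lintegral_ofReal (hF k) (Eventually.of_forall (h0 k))]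
    exact ENNReal.ofReal_le_ofReal (hC k)
  have hi : Integrable f μ := ⟨hm, (hasFiniteIntegral_iff_ofReal (Eventually.of_forall hf0)).2
    (h1.trans_lt ENNReal.ofReal_lt_top)⟩
  refine ⟨hi, ?_⟩
  rw [← ofReal_integral_eq_lintegral_ofReal hi (Eventually.of_forall hf0)] at h1
  exact (ENNReal.ofReal_le_ofReal_iff hC0).1 h1

theorem moment_mvt {G G' : ℝ → ℝ} {a b B : ℝ} (hab : a ≤ b)
    (hd : ∀ τ ∈ Icc a b, HasDerivAt G (G' τ) τ) (hB : ∀ τ ∈ Icc a b, |G' τ| ≤ B) :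
    |G b - G a| ≤ B * (b - a) :=
  norm_image_sub_le_of_norm_deriv_le_segment' (f := G) (f' := G')
    (fun τ hτ => (hd τ hτ).hasDerivWithinAt) (fun τ hτ => hB τ (Ico_subset_Icc_self hτ)) b
    (right_mem_Icc.2 hab)

theorem moment_cs {X D P Q Y G : ℝ} (hP : 0 ≤ P) (hQ : 0 ≤ Q) (hY : 0 ≤ Y) (hG : 0 ≤ G)
    (h1 : X ^ 2 ≤ P * Y) (h2 : D ^ 2 ≤ Q * G) : (X + D) ^ 2 ≤ (Q + P) * (G + Y) := by
  have h3 : (2 * X * D) ^ 2 ≤ (P * G + Q * Y) ^ 2 := by
    have := mul_le_mul h1 h2 (sq_nonneg _) (mul_nonneg hP hY)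
    nlinarith [sq_nonneg (P * G - Q * Y)]
  have h4 := (abs_le_of_sq_le_sq' h3 (by positivity)).2
  nlinarith

theorem abs_U_sub_le {t : ℝ} (ht : 0 < t) {φ : M → ℝ} (hφ : g.Sm φ) (hc : HasCompactSupport φ)
    {a : Lp ℝ 2 μ} (ha : a =ᵐ[μ] φ) {K : ℝ} (hK : ∀ y, |g.Δ φ y| ≤ K) (x : M) :
    |h.U 0 t a x - φ x| ≤ K * t := by
  have hK0 : 0 ≤ K := (abs_nonneg _).trans (hK x)
  have hb := (g.memLp_of_cs (μ := μ) (g.sm_Δ hφ) (g.cs_Δ hc)).coeFn_toLp
  have h1 : ∀ s, 0 < s → s ≤ t → ∀ y, |h.U 0 t a y - h.U 0 s a y| ≤ K * t := by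
    intro s hs hst y
    refine (moment_mvt (G := fun r => h.U 0 r a y) (G' := fun r => h.U 1 r a y) (B := K) hst
      (fun τ hτ => h.U_deriv 0 (hs.trans_le hτ.1) a y) fun τ hτ => ?_).trans (by nlinarith)
    rw [h.U_one_test (hs.trans_le hτ.1) hφ hc ha hb]
    refine h.abs_U_le (hs.trans_le hτ.1) hK0 ?_ y
    filter_upwards [hb] with z hz
    rw [hz]; exact hK z
  have hpos : ∀ k : ℕ, 0 < t * (1 / ((k : ℝ) + 1)) := fun k => by positivity
  have hle : ∀ k : ℕ, t * (1 / ((k : ℝ) + 1)) ≤ t := fun k =>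
    mul_le_of_le_one_right ht.le (by
      rw [div_le_one (by positivity)]; linarith [(Nat.cast_nonneg k : (0 : ℝ) ≤ k)])
  have h2 : Tendsto (fun k : ℕ => t * (1 / ((k : ℝ) + 1))) atTop (𝓝[>] 0) := by
    refine tendsto_nhdsWithin_iff.2 ⟨?_, Eventually.of_forall hpos⟩
    simpa using (tendsto_one_div_add_atTop_nhds_zero_nat (𝕜 := ℝ)).const_mul t
  obtain ⟨ns, -, h3⟩ := (tendstoInMeasure_of_tendsto_Lp
    ((h.semi.tendsto a).comp h2)).exists_seq_tendsto_ae
  have h4 : ∀ᵐ y ∂μ, |h.U 0 t a y - φ y| ≤ K * t := by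
    filter_upwards [h3, ha, ae_all_iff.2 fun k => h.U_ae 0 (hpos k) a] with y h5 h6 h7
    rw [← h6]
    refine le_of_tendsto' (h5.const_sub (h.U 0 t a y)).abs fun k => ?_
    rw [Function.comp_apply, ← h7]
    exact h1 _ (hpos _) (hle _) y
  have h5 : IsClosed {y | |h.U 0 t a y - φ y| ≤ K * t} :=
    isClosed_le ((g.cont (h.sm_U 0 ht a)).sub (g.cont hφ)).abs continuous_const
  have h6 := (Measure.dense_of_ae h4).closure_eq
  rw [h5.closure_eq] at h6
  exact (h6.ge (mem_univ x) :)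

theorem moment_mass {t : ℝ} (ht : 0 < t) (x : M) :
    Integrable (h.p t x) μ ∧ ∫ y, h.p t x y ∂μ ≤ 1 := by
  obtain ⟨χ, hχ⟩ := g.exists_cutoff x
  refine moment_fatou (F := fun k y => h.p t x y * χ k y) (fun k => ?_)
    (fun k y => mul_nonneg (h.p_nonneg ht x y) ((hχ k).2.2.1 y).1) (fun y => ?_) fun k => ?_
  · exact g.integrable_of_cs (g.sm_mul (h.sm_p ht x) (hχ k).1) (hχ k).2.1.mul_left
  · refine tendsto_const_nhds.congr' ?_
    filter_upwards [tendsto_natCast_atTop_atTop.eventually_gt_atTop (dist y x)] with k hk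
    rw [(hχ k).2.2.2.1 y hk, mul_one]
  · have hb := (g.memLp_of_cs (μ := μ) (hχ k).1 (hχ k).2.1).coeFn_toLp
    rw [← h.U_eq_integral ht hb]
    refine h.U_le ht zero_le_one ?_ x
    filter_upwards [hb] with z hz
    rw [hz]; exact ((hχ k).2.2.1 z).2

theorem integrable_p {t : ℝ} (ht : 0 < t) (x : M) : Integrable (h.p t x) μ := by
  exact (h.moment_mass ht x).1

omit [ProperSpace M] [BorelSpace M] [IsFiniteMeasureOnCompacts μ] [μ.IsOpenPosMeasure] in
theorem moment_bdd {φ : M → ℝ} (hφ : g.Sm φ) (hc : HasCompactSupport φ) :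
    ∃ K, ∀ y, |g.Δ φ y| ≤ K :=
  (g.cont (g.sm_Δ hφ)).bounded_above_of_compact_support (g.cs_Δ hc)

theorem moment_hasDeriv (t τ : ℝ) : HasDerivAt (fun s : ℝ => t * s ^ 2) (t * (2 * τ)) τ := by
  simpa using (hasDerivAt_pow 2 τ).const_mul t

theorem moment_exp {t τ : ℝ} (ht : 0 < t) (h0 : 0 < τ) (h1 : τ ≤ 1) :
    Real.exp (2 * lam * (t * τ ^ 2)) ≤ Real.exp (2 * lam * t) ∨ lam < 0 := by
  rcases lt_or_ge lam 0 with hl | hl
  · exact Or.inr hl
  · refine Or.inl (Real.exp_le_exp.2 (mul_le_mul_of_nonneg_left ?_ (by positivity)))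
    exact mul_le_of_le_one_right ht.le (by nlinarith)

theorem integral_p {t : ℝ} (ht : 0 < t) (x : M) : ∫ y, h.p t x y ∂μ = 1 := by
  refine le_antisymm (h.moment_mass ht x).2 ?_
  obtain ⟨χ, hχ⟩ := g.exists_cutoff x
  have hn : (0 : ℝ) < n := by exact_mod_cast g.n_pos
  set B := Real.sqrt (2 * n * t * Real.exp (2 * lam * t)) with hB
  have hB0 : 0 ≤ B := Real.sqrt_nonneg _
  have key : ∀ k : ℕ, 1 ≤ k → 1 - B * (1 / ((k : ℝ) + 1)) ≤ ∫ y, h.p t x y ∂μ := by
    intro k hk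
    obtain ⟨h1, h2, h3, h4, h5⟩ := hχ k
    have hb := (g.memLp_of_cs (μ := μ) h1 h2).coeFn_toLp
    set a := (g.memLp_of_cs (μ := μ) h1 h2).toLp
    obtain ⟨K, hK⟩ := moment_bdd h1 h2
    have hx : χ k x = 1 := h4 x (Metric.mem_ball_self (by exact_mod_cast hk))
    have h6 : ∀ τ₀ : ℝ, 0 < τ₀ → τ₀ ≤ 1 →
        1 - K * (t * τ₀ ^ 2) - B * (1 / ((k : ℝ) + 1)) ≤ h.U 0 t a x := by
      intro τ₀ h7 h8
      have h9 := moment_mvt (G := fun τ => h.U 0 (t * τ ^ 2) a x)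
        (G' := fun τ => h.U 1 (t * τ ^ 2) a x * (t * (2 * τ))) (B := B * (1 / ((k : ℝ) + 1))) h8
        (fun τ hτ => by
          have hτ0 := h7.trans_le hτ.1
          exact (h.U_deriv 0 (by positivity : 0 < t * τ ^ 2) a x).comp τ (moment_hasDeriv t τ))
        (fun τ hτ => by
          have hτ0 := h7.trans_le hτ.1
          have hα : 0 < t * τ ^ 2 := by positivity
          have e1 := h.BL_test hα h1 h2 hb x
          have e2 := g.Γ_nonneg (h.sm_U 0 hα a) x
          have e3 : ∫ y, h.p (t * τ ^ 2) x y * g.Γ (χ k) (χ k) y ∂μ ≤ (1 / ((k : ℝ) + 1)) ^ 2 := by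
            refine (integral_mono_of_nonneg (Eventually.of_forall fun y =>
              mul_nonneg (h.p_nonneg hα x y) (g.Γ_nonneg h1 y))
              ((h.integrable_p hα x).mul_const ((1 / ((k : ℝ) + 1)) ^ 2))
              (Eventually.of_forall fun y =>
                mul_le_mul_of_nonneg_left (h5 y) (h.p_nonneg hα x y))).trans ?_
            rw [integral_mul_const]
            exact mul_le_of_le_one_left (sq_nonneg _) (h.moment_mass hα x).2
          have e4 := (moment_exp (lam := lam) ht hτ0 hτ.2).resolve_right (not_lt.2 g.lam_nonneg)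
          have e5 : 2 * (t * τ ^ 2) / n * h.U 1 (t * τ ^ 2) a x ^ 2 ≤
              Real.exp (2 * lam * t) * (1 / ((k : ℝ) + 1)) ^ 2 := by
            have := mul_le_mul_of_nonneg_left e3 (Real.exp_pos (2 * lam * (t * τ ^ 2))).le
            have := mul_le_mul_of_nonneg_right e4 (sq_nonneg (1 / ((k : ℝ) + 1)))
            linarith
          refine abs_le.2 (abs_le_of_sq_le_sq' ?_ (by positivity))
          rw [mul_pow B, hB, Real.sq_sqrt (by positivity)]
          calc _ = 2 * n * t * (2 * (t * τ ^ 2) / n * h.U 1 (t * τ ^ 2) a x ^ 2) := by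
                field_simp
            _ ≤ 2 * n * t * (Real.exp (2 * lam * t) * (1 / ((k : ℝ) + 1)) ^ 2) := by gcongr
            _ = _ := by ring)
      have h10 := h.abs_U_sub_le (by positivity : 0 < t * τ₀ ^ 2) h1 h2 hb hK x
      rw [hx] at h10
      simp only [one_pow, mul_one] at h9
      have h11 : B * (1 / ((k : ℝ) + 1)) * (1 - τ₀) ≤ B * (1 / ((k : ℝ) + 1)) :=
        mul_le_of_le_one_right (by positivity) (by linarith)
      linarith [(abs_le.1 h9).1, (abs_le.1 h10).1]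
    have h7 : 1 - B * (1 / ((k : ℝ) + 1)) ≤ h.U 0 t a x := by
      have e : Tendsto (fun τ₀ : ℝ => 1 - K * (t * τ₀ ^ 2) - B * (1 / ((k : ℝ) + 1))) (𝓝[>] 0)
          (𝓝 (1 - K * (t * 0 ^ 2) - B * (1 / ((k : ℝ) + 1)))) :=
        (Continuous.tendsto (by fun_prop) _).mono_left nhdsWithin_le_nhds
      rw [zero_pow two_ne_zero, mul_zero, mul_zero, sub_zero] at e
      refine le_of_tendsto e ?_
      filter_upwards [Ioc_mem_nhdsGT zero_lt_one] with τ hτ using h6 τ hτ.1 hτ.2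
    refine h7.trans ?_
    rw [h.U_eq_integral ht hb]
    refine integral_mono_of_nonneg (Eventually.of_forall fun y =>
      mul_nonneg (h.p_nonneg ht x y) (h3 y).1) (h.integrable_p ht x)
      (Eventually.of_forall fun y => mul_le_of_le_one_right (h.p_nonneg ht x y) (h3 y).2)
  have e : Tendsto (fun k : ℕ => 1 - B * (1 / ((k : ℝ) + 1))) atTop (𝓝 (1 - B * 0)) :=
    ((tendsto_one_div_add_atTop_nhds_zero_nat (𝕜 := ℝ)).const_mul B).const_sub 1
  rw [mul_zero, sub_zero] at e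
  exact le_of_tendsto e (eventually_atTop.2 ⟨1, key⟩)

/-- the estimate along a curve for the square of `R - h₀` -/
theorem moment_path {t : ℝ} (ht : 0 < t) {h₀ : M → ℝ} (h1 : g.Sm h₀) (h2 : HasCompactSupport h₀)
    {L R A ε : ℝ} (hL0 : 0 ≤ L) (hL : ∀ z, g.Γ h₀ h₀ z ≤ L ^ 2) {c : ℝ → M}
    (hc : IsCurve g.Sm g.Γ c A) (hε : 0 < ε) (hx : |h₀ (c 0) - R| ≤ ε) :
    Integrable (fun z => h.p t (c 1) z * (h₀ z - R) ^ 2) μ ∧
      ∫ z, h.p t (c 1) z * (h₀ z - R) ^ 2 ∂μ ≤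
        (2 * ε + Real.sqrt ((A ^ 2 + 2 * n * t) * Real.exp (2 * lam * t)) * L) ^ 2 := by
  have hn : (0 : ℝ) < n := by exact_mod_cast g.n_pos
  have hψ : ∀ u : ℝ, ContDiffAt ℝ ⊤ (fun u : ℝ => u * (u - 2 * R)) u := fun u => by fun_prop
  have hψ' : ∀ u : ℝ, deriv (fun u : ℝ => u * (u - 2 * R)) u = 2 * (u - R) := by
    intro u
    have := ((hasDerivAt_id u).mul ((hasDerivAt_id u).sub_const (2 * R))).deriv
    simp only [id] at this
    rw [show 2 * (u - R) = 1 * (u - 2 * R) + u * 1 by ring]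
    exact this
  have hφ : g.Sm fun z => h₀ z * (h₀ z - 2 * R) := g.sm_comp h1 fun z => (hψ _).of_le le_top
  have hφc : HasCompactSupport fun z => h₀ z * (h₀ z - 2 * R) := h2.mul_right
  have hΓ : ∀ z, g.Γ (fun z => h₀ z * (h₀ z - 2 * R)) (fun z => h₀ z * (h₀ z - 2 * R)) z ≤
      4 * L ^ 2 * (h₀ z - R) ^ 2 := by
    intro z
    rw [g.Γ_comp_self (φ := fun u : ℝ => u * (u - 2 * R)) h1 (fun z => (hψ _).of_le le_top), hψ']
    nlinarith [mul_le_mul_of_nonneg_left (hL z) (sq_nonneg (h₀ z - R))]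
  have hb := (g.memLp_of_cs (μ := μ) hφ hφc).coeFn_toLp
  set a := (g.memLp_of_cs (μ := μ) hφ hφc).toLp
  have hV : ∀ s, 0 < s → ∀ y, Integrable (fun z => h.p s y z * (h₀ z - R) ^ 2) μ ∧
      ∫ z, h.p s y z * (h₀ z - R) ^ 2 ∂μ = R ^ 2 + h.U 0 s a y := by
    intro s hs y
    have e : (fun z => h.p s y z * (h₀ z - R) ^ 2) =
        fun z => h.p s y z * R ^ 2 + h.p s y z * (h₀ z * (h₀ z - 2 * R)) := by
      funext z; ring
    have i1 := (h.integrable_p hs y).mul_const (R ^ 2)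
    have i2 : Integrable (fun z => h.p s y z * (h₀ z * (h₀ z - 2 * R))) μ :=
      g.integrable_of_cs (g.sm_mul (h.sm_p hs y) hφ) hφc.mul_left
    rw [e]
    refine ⟨i1.add i2, ?_⟩
    rw [integral_add i1 i2, integral_mul_const, h.integral_p hs y, one_mul, h.U_eq_integral hs hb]
  have hV0 : ∀ s, 0 < s → ∀ y, 0 ≤ R ^ 2 + h.U 0 s a y := fun s hs y => by
    rw [← (hV s hs y).2]
    exact integral_nonneg fun z => mul_nonneg (h.p_nonneg hs y z) (sq_nonneg _)
  refine ⟨(hV t ht _).1, ?_⟩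
  rw [(hV t ht _).2]
  have hcc : Continuous c := by
    refine (LipschitzWith.of_dist_le_mul (K := ⟨A, hc.nonneg⟩) fun a b => ?_).continuous
    rw [Real.dist_eq]; exact hc.lip a b
  set B := Real.sqrt ((A ^ 2 + 2 * n * t) * Real.exp (2 * lam * t)) * L with hB
  have hB0 : 0 ≤ B := by positivity
  have hB2 : B ^ 2 = (A ^ 2 + 2 * n * t) * (Real.exp (2 * lam * t) * L ^ 2) := by
    rw [hB, mul_pow, Real.sq_sqrt (by positivity)]; ring
  obtain ⟨K, hK⟩ := moment_bdd hφ hφc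
  have hder : ∀ τ : ℝ, 0 < τ → τ ≤ 1 → ∃ S' : ℝ,
      HasDerivAt (fun s => Real.sqrt (R ^ 2 + h.U 0 (t * s ^ 2) a (c s) + 3 * ε ^ 2)) S' τ ∧
        |S'| ≤ B := by
    intro τ hτ0 hτ1
    have hα : 0 < t * τ ^ 2 := by positivity
    obtain ⟨D, hD, hD2⟩ := hc.der _ (h.sm_U 0 hα a) τ
    have e0 := h.path_deriv (b := fun _ => a) hcc (moment_hasDeriv t τ) hα
      (hasDerivAt_const τ a) hD
    have eU : h.U 0 (t * τ ^ 2) 0 (c τ) = 0 := inner_zero_right _
    rw [eU, add_zero] at e0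
    have hW := hV0 _ hα (c τ)
    have hW' : 0 < R ^ 2 + h.U 0 (t * τ ^ 2) a (c τ) + 3 * ε ^ 2 := by positivity
    refine ⟨_, ((e0.const_add (R ^ 2)).add_const (3 * ε ^ 2)).sqrt hW'.ne', ?_⟩
    have e1 := h.BL_test hα hφ hφc hb (c τ)
    have e2 := g.Γ_nonneg (h.sm_U 0 hα a) (c τ)
    have e3 : ∫ z, h.p (t * τ ^ 2) (c τ) z * g.Γ (fun z => h₀ z * (h₀ z - 2 * R))
        (fun z => h₀ z * (h₀ z - 2 * R)) z ∂μ ≤
          4 * L ^ 2 * (R ^ 2 + h.U 0 (t * τ ^ 2) a (c τ)) := by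
      rw [← (hV _ hα _).2, ← integral_const_mul]
      refine integral_mono_of_nonneg (Eventually.of_forall fun y =>
        mul_nonneg (h.p_nonneg hα _ y) (g.Γ_nonneg hφ y)) ((hV _ hα _).1.const_mul _)
        (Eventually.of_forall fun y => ?_)
      have := mul_le_mul_of_nonneg_left (hΓ y) (h.p_nonneg hα (c τ) y)
      simp only
      linarith
    have e4 := (moment_exp (lam := lam) ht hτ0 hτ1).resolve_right (not_lt.2 g.lam_nonneg)
    have e5 := e1.trans ((mul_le_mul_of_nonneg_left e3 (Real.exp_pos _).le).trans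
      (mul_le_mul_of_nonneg_right e4 (by positivity)))
    have e6 := moment_cs (X := t * (2 * τ) * h.U 1 (t * τ ^ 2) a (c τ)) (P := 2 * n * t)
      (Y := 2 * (t * τ ^ 2) / n * h.U 1 (t * τ ^ 2) a (c τ) ^ 2) (by positivity) (sq_nonneg A)
      (by positivity) e2 (le_of_eq (by field_simp)) hD2
    have e7 := e6.trans (mul_le_mul_of_nonneg_left e5 (by positivity))
    have hs := Real.sqrt_pos.2 hW'
    rw [abs_div, abs_of_pos (by positivity : 0 < 2 * Real.sqrt _), div_le_iff₀ (by positivity)]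
    refine abs_le.2 (abs_le_of_sq_le_sq' (e7.trans ?_) (by positivity))
    rw [mul_pow B, mul_pow 2, Real.sq_sqrt hW'.le, hB2]
    have e8 : 0 ≤ (A ^ 2 + 2 * n * t) * (Real.exp (2 * lam * t) * L ^ 2) * (3 * ε ^ 2) := by
      positivity
    nlinarith
  choose! S' hS1 hS2 using hder
  have h6 : ∀ τ₀ : ℝ, 0 < τ₀ → τ₀ ≤ 1 → Real.sqrt (R ^ 2 + h.U 0 t a (c 1) + 3 * ε ^ 2) ≤
      Real.sqrt ((h₀ (c τ₀) - R) ^ 2 + K * (t * τ₀ ^ 2) + 3 * ε ^ 2) + B := by
    intro τ₀ h7 h8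
    have h9 := moment_mvt h8 (fun τ hτ => hS1 τ (h7.trans_le hτ.1) hτ.2)
      (fun τ hτ => hS2 τ (h7.trans_le hτ.1) hτ.2)
    simp only [one_pow, mul_one] at h9
    have h10 := (abs_le.1 (h.abs_U_sub_le (by positivity : 0 < t * τ₀ ^ 2) hφ hφc hb hK (c τ₀))).2
    have h11 : Real.sqrt (R ^ 2 + h.U 0 (t * τ₀ ^ 2) a (c τ₀) + 3 * ε ^ 2) ≤
        Real.sqrt ((h₀ (c τ₀) - R) ^ 2 + K * (t * τ₀ ^ 2) + 3 * ε ^ 2) :=
      Real.sqrt_le_sqrt (by nlinarith)
    have h12 : B * (1 - τ₀) ≤ B := mul_le_of_le_one_right hB0 (by linarith)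
    linarith [(abs_le.1 h9).2]
  have hh := g.cont h1
  have e : Tendsto (fun τ₀ : ℝ =>
      Real.sqrt ((h₀ (c τ₀) - R) ^ 2 + K * (t * τ₀ ^ 2) + 3 * ε ^ 2) + B) (𝓝[>] 0)
      (𝓝 (Real.sqrt ((h₀ (c 0) - R) ^ 2 + K * (t * 0 ^ 2) + 3 * ε ^ 2) + B)) :=
    (Continuous.tendsto (by fun_prop) _).mono_left nhdsWithin_le_nhds
  have h7 := ge_of_tendsto e (by
    filter_upwards [Ioc_mem_nhdsGT zero_lt_one] with τ hτ using h6 τ hτ.1 hτ.2)
  have h8 : Real.sqrt ((h₀ (c 0) - R) ^ 2 + K * (t * 0 ^ 2) + 3 * ε ^ 2) ≤ 2 * ε := by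
    rw [Real.sqrt_le_left (by positivity)]
    have := sq_le_sq' (abs_le.1 hx).1 (abs_le.1 hx).2
    nlinarith
  have h9 := (Real.sqrt_le_left (by positivity)).1 (h7.trans (add_le_add_left h8 B))
  nlinarith [sq_nonneg ε]

theorem moment_trunc {t : ℝ} (ht : 0 < t) (x y : M) {R : ℝ} (hR : 0 ≤ R) :
    ∫ z, h.p t y z * min (dist x z) R ^ 2 ∂μ ≤
      Real.exp (2 * lam * t) * (dist x y ^ 2 + 2 * n * t) := by
  have hf : LipschitzWith 1 fun z => max (R - dist x z) 0 := by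
    refine LipschitzWith.max_const (LipschitzWith.of_dist_le_mul fun a b => ?_) 0
    rw [Real.dist_eq, NNReal.coe_one, one_mul, show R - dist x a - (R - dist x b) =
      dist x b - dist x a by ring, dist_comm x b, dist_comm x a, dist_comm a b]
    exact abs_dist_sub_le _ _ _
  have hfc : HasCompactSupport fun z => max (R - dist x z) 0 := by
    refine HasCompactSupport.intro (isCompact_closedBall x R) fun z hz => max_eq_right ?_
    rw [Metric.mem_closedBall, dist_comm, not_le] at hz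
    linarith
  have key : ∀ ε : ℝ, 0 < ε → ∫ z, h.p t y z * min (dist x z) R ^ 2 ∂μ ≤
      (1 + ε) * (2 * ε + Real.sqrt (((dist x y + ε) ^ 2 + 2 * n * t) * Real.exp (2 * lam * t)) *
        (1 + ε)) ^ 2 + (ε + ε ^ 2) := by
    intro ε hε
    obtain ⟨h₀, h1, h2, h3, h4⟩ := g.lipApprox _ hf hfc ε hε
    obtain ⟨c, hc0, hc1, hc⟩ := g.curve x y ε hε
    obtain ⟨h5, h6⟩ := h.moment_path ht h1 h2 (R := R) (by positivity) h4 hc hε (by
      have := h3 x
      rwa [dist_self, sub_zero, max_eq_left hR, ← hc0] at this)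
    rw [hc1] at h5 h6
    have i1 := h5.const_mul (1 + ε)
    have i2 := (h.integrable_p ht y).mul_const (ε + ε ^ 2)
    refine (integral_mono_of_nonneg (Eventually.of_forall fun z =>
      mul_nonneg (h.p_nonneg ht y z) (sq_nonneg _)) (i1.add i2)
      (Eventually.of_forall fun z => ?_)).trans ?_
    · have e1 : min (dist x z) R = R - max (R - dist x z) 0 := by
        rcases le_total (dist x z) R with h7 | h7
        · rw [min_eq_left h7, max_eq_left (by linarith)]; ring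
        · rw [min_eq_right h7, max_eq_right (by linarith)]; ring
      have e2 : min (dist x z) R ^ 2 ≤ (1 + ε) * (h₀ z - R) ^ 2 + (ε + ε ^ 2) := by
        rw [e1]
        obtain ⟨h7, h8⟩ := abs_le.1 (h3 z)
        set u := h₀ z - max (R - dist x z) 0
        set v := h₀ z - R
        have e3 : R - max (R - dist x z) 0 = u - v := by simp only [u, v]; ring
        have e4 : u ^ 2 ≤ ε ^ 2 := sq_le_sq' h7 h8
        have e5 : -(2 * u * v) ≤ ε * (v ^ 2 + 1) := by
          nlinarith [mul_nonneg (sub_nonneg.2 h8) (sq_nonneg (v - 1)),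
            mul_nonneg (sub_nonneg.2 h7) (sq_nonneg (v + 1))]
        rw [e3]
        nlinarith
      have := mul_le_mul_of_nonneg_left e2 (h.p_nonneg ht y z)
      simp only [Pi.add_apply]
      linarith
    · simp only [Pi.add_apply]
      rw [integral_add i1 i2, integral_const_mul, integral_mul_const, h.integral_p ht y, one_mul]
      gcongr
  have e : Tendsto (fun ε : ℝ =>
      (1 + ε) * (2 * ε + Real.sqrt (((dist x y + ε) ^ 2 + 2 * n * t) * Real.exp (2 * lam * t)) *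
        (1 + ε)) ^ 2 + (ε + ε ^ 2)) (𝓝[>] 0)
      (𝓝 ((1 + 0) * (2 * 0 + Real.sqrt (((dist x y + 0) ^ 2 + 2 * n * t) *
        Real.exp (2 * lam * t)) * (1 + 0)) ^ 2 + (0 + 0 ^ 2))) :=
    (Continuous.tendsto (by fun_prop) _).mono_left nhdsWithin_le_nhds
  refine (ge_of_tendsto e (eventually_mem_nhdsWithin.mono key)).trans (le_of_eq ?_)
  simp only [add_zero, mul_zero, zero_add, mul_one, one_mul, zero_pow two_ne_zero]
  rw [Real.sq_sqrt (by positivity), mul_comm]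

theorem moment {t : ℝ} (ht : 0 < t) (x y : M) :
    Integrable (fun z => h.p t y z * dist x z ^ 2) μ ∧
      ∫ z, h.p t y z * dist x z ^ 2 ∂μ ≤ Real.exp (2 * lam * t) * (dist x y ^ 2 + 2 * n * t) := by
  refine moment_fatou (F := fun k z => h.p t y z * min (dist x z) k ^ 2) (fun k => ?_)
    (fun k z => mul_nonneg (h.p_nonneg ht y z) (sq_nonneg _)) (fun z => ?_)
    fun k => h.moment_trunc ht x y (Nat.cast_nonneg k)
  · refine (h.integrable_p ht y).mul_bdd (c := (k : ℝ) ^ 2)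
      (Continuous.aestronglyMeasurable (by fun_prop)) (Eventually.of_forall fun z => ?_)
    rw [Real.norm_of_nonneg (sq_nonneg _)]
    exact pow_le_pow_left₀ (le_min dist_nonneg (Nat.cast_nonneg k)) (min_le_right _ _) 2
  · refine tendsto_const_nhds.congr' ?_
    filter_upwards [tendsto_natCast_atTop_atTop.eventually_ge_atTop (dist x z)] with k hk
    rw [min_eq_left hk]

theorem first_moment {t : ℝ} (ht : 0 < t) (x y : M) :
    Integrable (fun z => h.p t y z * dist x z) μ ∧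
      ∫ z, h.p t y z * dist x z ∂μ ≤
        Real.sqrt (Real.exp (2 * lam * t) * (dist x y ^ 2 + 2 * n * t)) := by
  have hn : (0 : ℝ) < n := by exact_mod_cast g.n_pos
  obtain ⟨h1, h2⟩ := h.moment ht x y
  set S := Real.exp (2 * lam * t) * (dist x y ^ 2 + 2 * n * t) with hS
  have hS0 : 0 < S := by positivity
  have hK := Real.sqrt_pos.2 hS0
  have hK2 := Real.mul_self_sqrt hS0.le
  set K := Real.sqrt S
  have i1 := h1.const_mul (1 / (2 * K))
  have i2 := (h.integrable_p ht y).mul_const (K / 2)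
  have h3 : ∀ z, h.p t y z * dist x z ≤
      1 / (2 * K) * (h.p t y z * dist x z ^ 2) + h.p t y z * (K / 2) := by
    intro z
    have e : dist x z ≤ 1 / (2 * K) * dist x z ^ 2 + K / 2 := by
      rw [← sub_nonneg, show 1 / (2 * K) * dist x z ^ 2 + K / 2 - dist x z =
        (dist x z - K) ^ 2 / (2 * K) by field_simp; ring]
      positivity
    have := mul_le_mul_of_nonneg_left e (h.p_nonneg ht y z)
    linarith
  have h4 : ∀ z, 0 ≤ h.p t y z * dist x z := fun z => mul_nonneg (h.p_nonneg ht y z) dist_nonneg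
  have hp := g.cont (h.sm_p ht y)
  refine ⟨(i1.add i2).mono' (Continuous.aestronglyMeasurable (by fun_prop))
    (Eventually.of_forall fun z => by rw [Real.norm_of_nonneg (h4 z)]; exact h3 z), ?_⟩
  refine (integral_mono_of_nonneg (Eventually.of_forall h4) (i1.add i2)
    (Eventually.of_forall h3)).trans ?_
  simp only [Pi.add_apply]
  rw [integral_add i1 i2, integral_const_mul, integral_mul_const, h.integral_p ht y, one_mul]
  calc _ ≤ 1 / (2 * K) * S + K / 2 := by gcongr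
    _ = K := by rw [← hK2]; field_simp; ring

end Pool.Agent.MP_3fc7f4_gt.Heat
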